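import Pool.Agent.TH125.Gal.Poly

/-!
# Multilinear maps that are equivariant under a subgroup of finite index: the operators killing them
-/

open Finset Function

set_option linter.unusedSectionVars false

namespace Pool.Agent.TH125.Gal

universe u v w x

variable {K : Type u} [Field K] {T : Type v} [AddCommGroup T] [Module K T]
  {E : Type w} [AddCommGroup E] [Module K E] {S : Type} [Fintype S] [DecidableEq S]
  {G : Type x} [Group G]

/-- equivariance under a subgroup of finite index -/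
def Eqv (ρ : G →* (T →ₗ[K] T)) (σ : G →* (E →ₗ[K] E))
    (h : MultilinearMap K (fun _ : S => T) E) : Prop :=
  ∃ Δ : Subgroup G, Δ.FiniteIndex ∧ ∀ g ∈ Δ, ∀ v, h (fun j => ρ g (v j)) = σ g (h v)

/-- `X` kills `h` -/
def Kill (X : T →ₗ[K] T) (h : MultilinearMap K (fun _ : S => T) E) : Prop :=
  ∀ v : S → T, ∑ j, h (update v j (X (v j))) = 0

/-- skew operators -/
def Skew (B : T →ₗ[K] T →ₗ[K] K) (X : T →ₗ[K] T) : Prop := ∀ x y, B (X x) y + B x (X y) = 0

/-- The Lie algebra of the skew operators which kill all equivariant maps. -/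
def LL (S : Type) [Fintype S] [DecidableEq S] (B : T →ₗ[K] T →ₗ[K] K) (ρ : G →* (T →ₗ[K] T))
    (σ : G →* (E →ₗ[K] E)) : Submodule K (T →ₗ[K] T) where
  carrier := {X | Skew B X ∧ ∀ h : MultilinearMap K (fun _ : S => T) E, Eqv ρ σ h → Kill X h}
  zero_mem' := by
    refine ⟨fun x y => by simp, fun h _ v => ?_⟩
    refine Finset.sum_eq_zero fun j _ => ?_
    rw [LinearMap.zero_apply]
    exact h.map_coord_zero j (update_self _ _ _)
  add_mem' := by
    rintro X Y ⟨hX, hX'⟩ ⟨hY, hY'⟩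
    refine ⟨fun x y => ?_, fun h hh v => ?_⟩
    · rw [LinearMap.add_apply, LinearMap.add_apply, map_add, map_add, LinearMap.add_apply]
      linear_combination hX x y + hY x y
    · have h1 := hX' h hh v
      have h2 := hY' h hh v
      simp only [LinearMap.add_apply, MultilinearMap.map_update_add, Finset.sum_add_distrib]
      rw [h1, h2, add_zero]
  smul_mem' := by
    rintro c X ⟨hX, hX'⟩
    refine ⟨fun x y => ?_, fun h hh v => ?_⟩
    · rw [LinearMap.smul_apply, LinearMap.smul_apply, map_smul, map_smul, LinearMap.smul_apply,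
        ← smul_add, hX, smul_zero]
    · have h1 := hX' h hh v
      simp only [LinearMap.smul_apply, MultilinearMap.map_update_smul]
      rw [← Finset.smul_sum, h1, smul_zero]

theorem mem_LL {B : T →ₗ[K] T →ₗ[K] K} {ρ : G →* (T →ₗ[K] T)} {σ : G →* (E →ₗ[K] E)}
    {X : T →ₗ[K] T} : X ∈ LL S B ρ σ ↔ Skew B X ∧
      ∀ h : MultilinearMap K (fun _ : S => T) E, Eqv ρ σ h → Kill X h := Iff.rfl

/-- double sums -/
theorem kill_kill {X Y : T →ₗ[K] T} {h : MultilinearMap K (fun _ : S => T) E} (hX : Kill X h)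
    (v : S → T) : ∑ i, (h (update v i (X (Y (v i)))) +
      ∑ j ∈ univ.erase i, h (update (update v i (Y (v i))) j (X (v j)))) = 0 := by
  refine Finset.sum_eq_zero fun i _ => ?_
  have h1 := hX (update v i (Y (v i)))
  rw [← Finset.add_sum_erase _ _ (Finset.mem_univ i), update_self, update_idem] at h1
  rw [← h1]
  congr 1
  refine Finset.sum_congr rfl fun j hj => ?_
  rw [update_of_ne (Finset.ne_of_mem_erase hj)]

/-- brackets -/
theorem kill_bracket {X Y : T →ₗ[K] T} {h : MultilinearMap K (fun _ : S => T) E} (hX : Kill X h)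
    (hY : Kill Y h) : Kill (X ∘ₗ Y - Y ∘ₗ X) h := by
  intro v
  have h1 := kill_kill (Y := Y) hX v
  have h2 := kill_kill (Y := X) hY v
  rw [Finset.sum_add_distrib] at h1 h2
  have h3 : ∑ i, ∑ j ∈ univ.erase i, h (update (update v i (Y (v i))) j (X (v j))) =
      ∑ i, ∑ j ∈ univ.erase i, h (update (update v i (X (v i))) j (Y (v j))) := by
    rw [Finset.sum_comm' (s' := fun j => univ.erase j) (t' := univ) (by
      intro x y
      simp only [Finset.mem_univ, Finset.mem_erase, ne_eq, and_true, true_and]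
      exact ⟨fun h h' => h h'.symm, fun h h' => h h'.symm⟩)]
    refine Finset.sum_congr rfl fun j _ => Finset.sum_congr rfl fun i hi => ?_
    rw [update_comm (Finset.ne_of_mem_erase hi)]
  have h4 : ∀ j, h (update v j ((X ∘ₗ Y - Y ∘ₗ X) (v j))) = h (update v j (X (Y (v j)))) -
      h (update v j (Y (X (v j)))) := by
    intro j
    rw [LinearMap.sub_apply, MultilinearMap.map_update_sub]
    rfl
  rw [Finset.sum_congr rfl fun j _ => h4 j, Finset.sum_sub_distrib]
  rw [h3] at h1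
  rw [eq_neg_of_add_eq_zero_left h1, eq_neg_of_add_eq_zero_left h2]
  abel

theorem skew_bracket {B : T →ₗ[K] T →ₗ[K] K} {X Y : T →ₗ[K] T} (hX : Skew B X) (hY : Skew B Y) :
    Skew B (X ∘ₗ Y - Y ∘ₗ X) := by
  intro x y
  simp only [LinearMap.sub_apply, LinearMap.comp_apply, map_sub]
  linear_combination hX (Y x) y - hY (X x) y + hX x (Y y) - hY x (X y)

theorem LL_bracket {B : T →ₗ[K] T →ₗ[K] K} {ρ : G →* (T →ₗ[K] T)} {σ : G →* (E →ₗ[K] E)}
    {X Y : T →ₗ[K] T} (hX : X ∈ LL S B ρ σ) (hY : Y ∈ LL S B ρ σ) :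
    X ∘ₗ Y - Y ∘ₗ X ∈ LL S B ρ σ :=
  ⟨skew_bracket hX.1 hY.1, fun h hh => kill_bracket (hX.2 h hh) (hY.2 h hh)⟩

/-- twisting an equivariant map -/
theorem eqv_twist {ρ : G →* (T →ₗ[K] T)} {σ : G →* (E →ₗ[K] E)}
    {h : MultilinearMap K (fun _ : S => T) E} (hh : Eqv ρ σ h) (γ : G) :
    Eqv ρ σ ((σ γ⁻¹).compMultilinearMap (h.compLinearMap fun _ => ρ γ)) := by
  obtain ⟨Δ, hΔ, h1⟩ := hh
  refine ⟨Δ.comap (MulAut.conj γ).toMonoidHom, ?_, fun g hg v => ?_⟩
  · exact ⟨by
      rw [Subgroup.index_comap_of_surjective]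
      · exact hΔ.index_ne_zero
      · exact (MulAut.conj γ).surjective⟩
  · have hg' : γ * g * γ⁻¹ ∈ Δ := hg
    have h2 := h1 _ hg' (fun j => ρ γ (v j))
    change σ γ⁻¹ (h fun j => ρ γ (ρ g (v j))) = σ g (σ γ⁻¹ (h fun j => ρ γ (v j)))
    have h3 : (fun j => ρ γ (ρ g (v j))) = fun j => ρ (γ * g * γ⁻¹) (ρ γ (v j)) := by
      funext j
      rw [← Module.End.mul_apply, ← Module.End.mul_apply, ← map_mul, ← map_mul,
        inv_mul_cancel_right]
    rw [h3, h2, ← Module.End.mul_apply, ← Module.End.mul_apply, ← map_mul, ← map_mul]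
    congr 2
    group

/-- The Lie algebra is normalized by the group. -/
theorem LL_conj {B : T →ₗ[K] T →ₗ[K] K} {ρ : G →* (T →ₗ[K] T)} {σ : G →* (E →ₗ[K] E)}
    {μ : G → K} (hB : ∀ g x y, B (ρ g x) (ρ g y) = μ g * B x y)
    {X : T →ₗ[K] T} (hX : X ∈ LL S B ρ σ) (γ : G) : ρ γ ∘ₗ X ∘ₗ ρ γ⁻¹ ∈ LL S B ρ σ := by
  have hinv : ∀ x, ρ γ (ρ γ⁻¹ x) = x := by
    intro x
    rw [← Module.End.mul_apply, ← map_mul, mul_inv_cancel, map_one]
    rfl
  refine ⟨fun x y => ?_, fun h hh v => ?_⟩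
  · have h1 := hX.1 (ρ γ⁻¹ x) (ρ γ⁻¹ y)
    have h2 := hB γ (X (ρ γ⁻¹ x)) (ρ γ⁻¹ y)
    have h3 := hB γ (ρ γ⁻¹ x) (X (ρ γ⁻¹ y))
    rw [hinv] at h2 h3
    rw [LinearMap.comp_apply, LinearMap.comp_apply, LinearMap.comp_apply, LinearMap.comp_apply,
      h2, h3, ← mul_add, h1, mul_zero]
  · have h1 := hX.2 _ (eqv_twist hh γ) (fun j => ρ γ⁻¹ (v j))
    have h2 : σ γ⁻¹ (∑ j, h (update v j ((ρ γ ∘ₗ X ∘ₗ ρ γ⁻¹) (v j)))) = 0 := by
      rw [map_sum, ← h1]
      refine Finset.sum_congr rfl fun j _ => ?_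
      change _ = σ γ⁻¹ (h fun i => ρ γ (update (fun j => ρ γ⁻¹ (v j)) j (X (ρ γ⁻¹ (v j))) i))
      congr 2
      funext i
      by_cases hi : i = j
      · subst hi
        rw [update_self, update_self]
        rfl
      · rw [update_of_ne hi, update_of_ne hi, hinv]
    have h3 := congrArg (σ γ) h2
    rw [map_zero, ← Module.End.mul_apply, ← map_mul, mul_inv_cancel, map_one] at h3
    exact h3

end Pool.Agent.TH125.Gal
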