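import Pool.Agent.TH125.Gal.Grp

/-!
# Operators in the Lie algebra from a pseudoreflection
-/

open Finset Function

set_option linter.unusedSectionVars false

namespace Pool.Agent.TH125.Gal

universe u v w x

variable {K : Type u} [Field K] [CharZero K] {T : Type v} [AddCommGroup T] [Module K T]
  {E : Type w} [AddCommGroup E] [Module K E] {S : Type} [Fintype S] [DecidableEq S]
  {G : Type x} [Group G] {B : T →ₗ[K] T →ₗ[K] K} {ρ : G →* (T →ₗ[K] T)} {σ : G →* (E →ₗ[K] E)}

/-- the operator `x ↦ B a x • b` -/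
def rk (B : T →ₗ[K] T →ₗ[K] K) (a b : T) : T →ₗ[K] T := (B a).smulRight b

@[simp] theorem rk_apply (a b x : T) : rk B a b x = B a x • b := rfl

/-- a power of an element of the group is in the subgroup of finite index -/
theorem exists_pow {Δ : Subgroup G} (hΔ : Δ.FiniteIndex) (g : G) : ∃ n : ℕ, 0 < n ∧ g ^ n ∈ Δ := by
  obtain ⟨n, hn, -, h⟩ := Subgroup.exists_pow_mem_of_index_ne_zero hΔ.index_ne_zero g
  exact ⟨n, hn, h⟩

/-- transvections -/
theorem odd_mem (hsk : ∀ x y, B x y = -B y x) {g : G} {δ : T} {c : K} (hc : c ≠ 0)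
    (hg : ∀ x, ρ g x = x + (c * B δ x) • δ) (hσ : σ g = 1) : rk B δ δ ∈ LL S B ρ σ := by
  have hδ : B δ δ = 0 := by
    have h1 := hsk δ δ
    have h2 : (2 : K) * B δ δ = 0 := by linear_combination h1
    rcases mul_eq_zero.1 h2 with h | h
    · exact absurd h two_ne_zero
    · exact h
  have hpow : ∀ (n : ℕ) x, ρ (g ^ n) x = x + ((n : K) * c * B δ x) • δ := by
    intro n
    induction n with
    | zero =>
      intro x
      rw [pow_zero, map_one]
      simp
    | succ n ih =>
      intro x
      rw [pow_succ, map_mul, Module.End.mul_apply, hg, ih, map_add, map_smul, hδ, smul_zero,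
        add_zero]
      push_cast
      module
  refine ⟨fun x y => ?_, fun h hh v => ?_⟩
  · rw [rk_apply, rk_apply, map_smul, map_smul, LinearMap.smul_apply, smul_eq_mul, smul_eq_mul,
      hsk x δ]
    ring
  · obtain ⟨Δ, hΔ, h1⟩ := hh
    obtain ⟨n, hn, hgn⟩ := exists_pow hΔ g
    have h2 : {x : K | h (fun j => v j + x • (c • rk B δ δ (v j)) + x ^ 2 • (0 : T)) =
      h (fun j => v j + x • (0 : T) + x ^ 2 • (0 : T))}.Infinite := by
      refine Set.infinite_of_injective_forall_mem (f := fun l : ℕ => ((n * l : ℕ) : K)) ?_ ?_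
      · intro l l' hl
        have h3 : ((n * l : ℕ) : K) = ((n * l' : ℕ) : K) := hl
        have h4 : n * l = n * l' := Nat.cast_injective h3
        exact Nat.eq_of_mul_eq_mul_left hn h4
      · intro l
        have h3 : g ^ (n * l) ∈ Δ := by
          rw [pow_mul]
          exact Subgroup.pow_mem _ hgn l
        have h4 := h1 _ h3 v
        rw [map_pow σ, hσ, one_pow] at h4
        change h _ = h _
        simp only [smul_zero, add_zero]
        have h5 : (fun j => ρ (g ^ (n * l)) (v j)) =
            fun j => v j + ((n * l : ℕ) : K) • c • (rk B δ δ) (v j) := by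
          funext j
          rw [hpow, rk_apply, smul_smul, smul_smul]
        rw [h5] at h4
        exact h4
    have h3 := deriv_eq h v (fun j => c • rk B δ δ (v j)) (fun _ => 0) v (fun _ => 0)
      (fun _ => 0) h2
    have h4 : ∀ j, h (update v j (0 : T)) = 0 := fun j =>
      h.map_coord_zero j (update_self _ _ _)
    rw [Finset.sum_congr rfl fun j _ => h4 j, Finset.sum_const_zero] at h3
    simp only [MultilinearMap.map_update_smul] at h3
    rw [← Finset.smul_sum] at h3
    exact (smul_eq_zero.1 h3).resolve_left hc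

/-- reflections -/
noncomputable def refl (B : T →ₗ[K] T →ₗ[K] K) (w : T) : T →ₗ[K] T :=
  LinearMap.id - (2 / B w w) • rk B w w

theorem refl_apply (w x : T) : refl B w x = x - (2 / B w w * B w x) • w := by
  rw [refl, LinearMap.sub_apply, LinearMap.smul_apply, rk_apply, smul_smul]
  rfl

theorem refl_smul {c : K} (hc : c ≠ 0) (w : T) : refl B (c • w) = refl B w := by
  apply LinearMap.ext
  intro x
  rw [refl_apply, refl_apply]
  by_cases hw : B w w = 0
  · simp [hw]
  · simp only [map_smul, LinearMap.smul_apply, smul_eq_mul]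
    rw [smul_smul]
    congr 2
    field_simp

theorem refl_refl {w : T} (hw : B w w ≠ 0) (x : T) : refl B w (refl B w x) = x := by
  rw [refl_apply, refl_apply, map_sub, map_smul, smul_eq_mul, sub_sub, ← add_smul]
  have : 2 / B w w * B w x + 2 / B w w * (B w x - 2 / B w w * B w x * B w w) = 0 := by
    field_simp
    ring
  rw [this, zero_smul, sub_zero]

/-- conjugate reflections -/
theorem refl_conj {t : T →ₗ[K] T} {m : K} (hm : m ≠ 0)
    (ht : ∀ x y, B (t x) (t y) = m * B x y) (w x : T) :
    t (refl B w x) = refl B (t w) (t x) := by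
  rw [refl_apply, refl_apply, map_sub, map_smul, ht, ht]
  congr 2
  by_cases hw : B w w = 0
  · simp [hw]
  · field_simp

/-- the operator `a ∧ b` -/
def wg (B : T →ₗ[K] T →ₗ[K] K) (a b : T) : T →ₗ[K] T := rk B b a - rk B a b

theorem wg_apply (a b x : T) : wg B a b x = B b x • a - B a x • b := rfl

theorem wg_skew (hsy : ∀ x y, B x y = B y x) (a b : T) : Skew B (wg B a b) := by
  intro x y
  rw [wg_apply, wg_apply, map_sub, map_sub, map_smul, map_smul, map_smul, map_smul,
    LinearMap.sub_apply, LinearMap.smul_apply, LinearMap.smul_apply]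
  simp only [smul_eq_mul]
  rw [hsy x a, hsy x b]
  ring

theorem dihedral {R R' : T →ₗ[K] T} (hR : ∀ x, R (R x) = x) (hR' : ∀ x, R' (R' x) = x) (m : ℕ) :
    ∀ x, ((R * R') ^ m) (R (((R * R') ^ m) x)) = R x := by
  induction m with
  | zero => intro x; rfl
  | succ m ih =>
    intro x
    have h1 : ((R * R') ^ (m + 1)) x = R (R' (((R * R') ^ m) x)) := by
      rw [pow_succ']; rfl
    have h2 : ∀ y, ((R * R') ^ (m + 1)) y = ((R * R') ^ m) (R (R' y)) := by
      intro y
      rw [pow_succ]; rfl
    rw [h1, h2, hR, hR', ih]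

/-- **two reflections generating an infinite group** -/
theorem even_mem (hsy : ∀ x y, B x y = B y x) {μ : G → K} (hμ : ∀ g, μ g ≠ 0)
    (hB : ∀ g x y, B (ρ g x) (ρ g y) = μ g * B x y) {g γ : G} {δ : T} (hq : B δ δ ≠ 0)
    (hg : ∀ x, ρ g x = refl B δ x) (hσ : σ g = 1)
    (hinf : ∀ m ≥ 1, ∃ x, ρ ((g * (γ * g * γ⁻¹)) ^ m) x ≠ x) :
    wg B δ (ρ γ δ) ∈ LL S B ρ σ := by
  set δ' := ρ γ δ with hδ'
  set g' := γ * g * γ⁻¹ with hg'
  set t := g * g' with ht
  have hinv : ∀ x, ρ γ (ρ γ⁻¹ x) = x := by
    intro x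
    rw [← Module.End.mul_apply, ← map_mul, mul_inv_cancel, map_one]
    rfl
  have hg'' : ∀ x, ρ g' x = refl B δ' x := by
    intro x
    rw [hg', map_mul, map_mul, Module.End.mul_apply, Module.End.mul_apply, hg,
      refl_conj (hμ γ) (hB γ), hinv]
  have hq' : B δ' δ' ≠ 0 := by
    rw [hδ', hB]
    exact mul_ne_zero (hμ γ) hq
  have hσ' : σ g' = 1 := by
    rw [hg', map_mul, map_mul, hσ, mul_one, ← map_mul, mul_inv_cancel, map_one]
  have hσt : ∀ m, σ (t ^ m) = 1 := by
    intro m
    rw [map_pow, ht, map_mul, hσ, hσ', one_mul, one_pow]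
  have hR : ∀ x, ρ g (ρ g x) = x := fun x => by rw [hg, hg, refl_refl hq]
  have hR' : ∀ x, ρ g' (ρ g' x) = x := fun x => by rw [hg'', hg'', refl_refl hq']
  have hiso : ∀ m x y, B (ρ (t ^ m) x) (ρ (t ^ m) y) = B x y := by
    have h1 : ∀ w, B w w ≠ 0 → ∀ x y, B (refl B w x) (refl B w y) = B x y := by
      intro w hw x y
      rw [refl_apply, refl_apply, map_sub, map_sub, map_smul, map_smul, LinearMap.sub_apply,
        LinearMap.sub_apply, LinearMap.smul_apply, LinearMap.smul_apply]
      simp only [smul_eq_mul]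
      rw [hsy x w]
      field_simp
      ring
    intro m
    induction m with
    | zero => intro x y; rw [pow_zero, map_one]; rfl
    | succ m ih =>
      intro x y
      rw [pow_succ, map_mul, Module.End.mul_apply, Module.End.mul_apply, ih, ht, map_mul,
        Module.End.mul_apply, Module.End.mul_apply, hg, hg, h1 δ hq, hg'', hg'', h1 δ' hq']
  -- the reflections
  have hrefl : ∀ m x, refl B (ρ (t ^ m) δ) x = ρ (t ^ (2 * m)) (ρ g x) := by
    intro m x
    obtain ⟨y, rfl⟩ : ∃ y, ρ (t ^ m) y = x := ⟨ρ (t ^ m)⁻¹ x, by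
      rw [← Module.End.mul_apply, ← map_mul, mul_inv_cancel, map_one]; rfl⟩
    rw [← refl_conj (t := ρ (t ^ m)) (m := (1 : K)) one_ne_zero (fun x y => by
      rw [hiso, one_mul]) δ y, ← hg]
    have h1 := dihedral hR hR' m y
    rw [← map_mul, ← ht, ← map_pow] at h1
    rw [two_mul, pow_add, map_mul, Module.End.mul_apply, h1]
  have hspan : ∀ m : ℕ, ∃ a b : K, ρ (t ^ m) δ = a • δ + b • δ' := by
    intro m
    induction m with
    | zero => exact ⟨1, 0, by rw [pow_zero, map_one]; simp⟩
    | succ m ih =>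
      obtain ⟨a, b, h⟩ := ih
      rw [pow_succ', map_mul, Module.End.mul_apply, h, ht, map_mul, Module.End.mul_apply, hg'',
        hg, refl_apply δ', refl_apply δ]
      refine ⟨a - 2 / B δ δ * B δ (a • δ + b • δ' - (2 / B δ' δ' * B δ' (a • δ + b • δ')) • δ'),
        b - 2 / B δ' δ' * B δ' (a • δ + b • δ'), ?_⟩
      module
  choose a b hab using hspan
  have hdist : ∀ m m', m < m' → ∀ w (c c' : K), ρ (t ^ m) δ = c • w → ρ (t ^ m') δ = c' • w →
      False := by
    intro m m' hm w c c' h1 h2
    have hc : c ≠ 0 := by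
      rintro rfl
      have h3 := hiso m δ δ
      rw [h1, zero_smul, map_zero] at h3
      exact hq h3.symm
    have hc' : c' ≠ 0 := by
      rintro rfl
      have h3 := hiso m' δ δ
      rw [h2, zero_smul, map_zero] at h3
      exact hq h3.symm
    obtain ⟨x, hx⟩ := hinf (2 * (m' - m)) (by omega)
    apply hx
    have h3 : ∀ y, ρ (t ^ (2 * m)) (ρ g y) = ρ (t ^ (2 * m')) (ρ g y) := by
      intro y
      rw [← hrefl, ← hrefl, h1, h2, refl_smul hc, refl_smul hc']
    have h4 := h3 (ρ g x)
    rw [hR, show 2 * m' = 2 * m + 2 * (m' - m) by omega, pow_add, map_mul,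
      Module.End.mul_apply] at h4
    have h5 : ∀ y z, ρ (t ^ (2 * m)) y = ρ (t ^ (2 * m)) z → y = z := by
      intro y z hyz
      have h6 := congrArg (ρ (t ^ (2 * m))⁻¹) hyz
      rw [← Module.End.mul_apply, ← Module.End.mul_apply, ← map_mul, inv_mul_cancel, map_one] at h6
      exact h6
    exact (h5 _ _ h4).symm
  refine ⟨wg_skew hsy _ _, fun h hh y => ?_⟩
  obtain ⟨Δ, hΔ, h1⟩ := hh
  obtain ⟨n, hn, htn⟩ := exists_pow hΔ t
  have hfix : ∀ l : ℕ, ∀ v : S → T, h (fun j => refl B (ρ (t ^ (n * l)) δ) (v j)) =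
      h (fun j => ρ g (v j)) := by
    intro l v
    have h3 : t ^ (2 * (n * l)) ∈ Δ := by
      rw [mul_comm, pow_mul, pow_mul]
      exact Subgroup.pow_mem _ (Subgroup.pow_mem _ htn l) 2
    have h4 := h1 _ h3 (fun j => ρ g (v j))
    rw [hσt] at h4
    simp only [hrefl]
    exact h4
  have hM : {l : ℕ | a (n * l) = 0}.Subsingleton := by
    intro l hl l' hl'
    rw [Set.mem_ofPred_eq] at hl hl'
    by_contra hne
    rcases Nat.lt_or_gt_of_ne hne with hlt | hlt
    · exact hdist _ _ (Nat.mul_lt_mul_of_pos_left hlt hn) δ' _ _ (by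
        rw [hab, hl, zero_smul, zero_add]) (by rw [hab, hl', zero_smul, zero_add])
    · exact hdist _ _ (Nat.mul_lt_mul_of_pos_left hlt hn) δ' _ _ (by
        rw [hab, hl', zero_smul, zero_add]) (by rw [hab, hl, zero_smul, zero_add])
  have hM' : {l : ℕ | a (n * l) ≠ 0}.Infinite := by
    have := hM.finite.infinite_compl
    exact this
  set q := B δ δ with hqdef
  set β := B δ δ' with hβ
  obtain ⟨v, hv⟩ : ∃ v : S → T, ∀ j, v j = q⁻¹ • ρ g (y j) := ⟨_, fun _ => rfl⟩
  have h2 : {x : K | h (fun j => y j + x • ((2 * β) • v j - (2 * B δ (v j)) • δ' -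
        (2 * B δ' (v j)) • δ) + x ^ 2 • (B δ' δ' • v j - (2 * B δ' (v j)) • δ')) =
      h (fun j => y j + x • ((2 * β * q⁻¹) • y j) + x ^ 2 • ((B δ' δ' * q⁻¹) • y j))}.Infinite := by
    refine Set.infinite_of_injOn_mapsTo (s := {l : ℕ | a (n * l) ≠ 0})
      (f := fun l => b (n * l) / a (n * l)) ?_ ?_ hM'
    · intro l hl l' hl' hll
      rw [Set.mem_ofPred_eq] at hl hl'
      have hll' : b (n * l) / a (n * l) = b (n * l') / a (n * l') := hll
      have h3 : ρ (t ^ (n * l)) δ = a (n * l) • (δ + (b (n * l) / a (n * l)) • δ') := by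
        rw [hab, smul_add, smul_smul, mul_div_cancel₀ _ hl]
      have h4 : ρ (t ^ (n * l')) δ = a (n * l') • (δ + (b (n * l) / a (n * l)) • δ') := by
        rw [hab, hll', smul_add, smul_smul, mul_div_cancel₀ _ hl']
      by_contra hne
      rcases Nat.lt_or_gt_of_ne hne with hlt | hlt
      · exact hdist _ _ (Nat.mul_lt_mul_of_pos_left hlt hn) _ _ _ h3 h4
      · exact hdist _ _ (Nat.mul_lt_mul_of_pos_left hlt hn) _ _ _ h4 h3
    · intro l hl
      rw [Set.mem_ofPred_eq] at hl ⊢
      set x := b (n * l) / a (n * l) with hx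
      set w := δ + x • δ' with hw
      have h3 : ρ (t ^ (n * l)) δ = a (n * l) • w := by
        rw [hab, hw, smul_add, smul_smul, hx, mul_div_cancel₀ _ hl]
      have hww : B w w = q + x * (2 * β) + x ^ 2 * B δ' δ' := by
        rw [hw]
        simp only [map_add, map_smul, LinearMap.add_apply, LinearMap.smul_apply, smul_eq_mul]
        rw [hsy δ' δ]
        ring
      have hww0 : B w w ≠ 0 := by
        intro h0
        have h4 := hiso (n * l) δ δ
        rw [h3, map_smul, map_smul, LinearMap.smul_apply, h0, smul_zero, smul_zero] at h4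
        exact hq h4.symm
      have h4 := hfix l v
      rw [h3, refl_smul hl] at h4
      have h5 : h (fun j => B w w • refl B w (v j)) = h (fun j => B w w • ρ g (v j)) := by
        have e1 := h.map_smul_univ (fun _ => B w w) (fun j => refl B w (v j))
        have e2 := h.map_smul_univ (fun _ => B w w) (fun j => ρ g (v j))
        rw [e1, e2, h4]
      have hgv : ∀ j, ρ g (v j) = q⁻¹ • y j := by
        intro j
        rw [hv, map_smul, hR]
      have hyv : ∀ j, y j = q • v j - (2 * B δ (v j)) • δ := by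
        intro j
        have h6 := hgv j
        rw [hg, refl_apply] at h6
        have h7 := congrArg (fun z => q • z) h6
        simp only [smul_smul, mul_inv_cancel₀ hq, one_smul, smul_sub] at h7
        rw [← h7]
        congr 2
        rw [← hqdef]
        field_simp
      convert h5 using 2
      · funext j
        change y j + x • _ + x ^ 2 • _ = _
        have h6 : B w w * (2 / B w w * B w (v j)) = 2 * (B δ (v j) + x * B δ' (v j)) := by
          have h7 : B w (v j) = B δ (v j) + x * B δ' (v j) := by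
            rw [hw, map_add, map_smul, LinearMap.add_apply, LinearMap.smul_apply, smul_eq_mul]
          rw [h7]
          field_simp
        have h8 : B w w • refl B w (v j) =
            B w w • v j - (2 * (B δ (v j) + x * B δ' (v j))) • w := by
          rw [refl_apply, smul_sub, smul_smul, h6]
        rw [h8, hww, hyv j, hw]
        module
      · funext j
        change y j + x • _ + x ^ 2 • _ = _
        have h8 : B w w • ρ g (v j) = ((q + x * (2 * β) + x ^ 2 * B δ' δ') * q⁻¹) • y j := by
          rw [hgv, hww, smul_smul]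
        have h6 : (q + x * (2 * β) + x ^ 2 * B δ' δ') * q⁻¹ =
            1 + x * (2 * β * q⁻¹) + x ^ 2 * (B δ' δ' * q⁻¹) := by
          field_simp
        rw [h8, h6]
        module
  have h3 := deriv_eq h _ _ _ _ _ _ h2
  have h4 : ∀ j, h (update y j ((2 * β) • v j - (2 * B δ (v j)) • δ' - (2 * B δ' (v j)) • δ)) -
      h (update y j ((2 * β * q⁻¹) • y j)) =
      (-(2 * q⁻¹)) • h (update y j (wg B δ δ' (y j))) := by
    intro j
    rw [← MultilinearMap.map_update_sub, ← MultilinearMap.map_update_smul]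
    congr 2
    have e1 : v j = q⁻¹ • y j - (2 * q⁻¹ * q⁻¹ * B δ (y j)) • δ := by
      rw [hv, hg, refl_apply, smul_sub, smul_smul, ← hqdef]
      congr 2
      ring
    have e2 : B δ (v j) = -(q⁻¹ * B δ (y j)) := by
      rw [e1, map_sub, map_smul, map_smul, ← hqdef]
      simp only [smul_eq_mul]
      field_simp
      ring
    have e3 : B δ' (v j) = q⁻¹ * B δ' (y j) - 2 * q⁻¹ * q⁻¹ * B δ (y j) * β := by
      rw [e1, map_sub, map_smul, map_smul, hsy δ' δ, ← hβ]
      simp only [smul_eq_mul]
    rw [e2, e3, e1, wg_apply]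
    module
  have h5 : (-(2 * q⁻¹)) • ∑ j, h (update y j (wg B δ δ' (y j))) = 0 := by
    rw [Finset.smul_sum, ← Finset.sum_congr rfl fun j _ => h4 j, Finset.sum_sub_distrib, h3,
      sub_self]
  exact (smul_eq_zero.1 h5).resolve_left (neg_ne_zero.2 (mul_ne_zero two_ne_zero (inv_ne_zero hq)))

end Pool.Agent.TH125.Gal
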