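import Pool.Agent.TH125.Gal.Node

/-!
# The whole Lie algebra
-/

open Finset Function

set_option linter.unusedSectionVars false

namespace Pool.Agent.TH125.Gal

universe u v w x

variable {K : Type u} [Field K] [CharZero K] {T : Type v} [AddCommGroup T] [Module K T]
  {E : Type w} [AddCommGroup E] [Module K E] {S : Type} [Fintype S] [DecidableEq S]
  {G : Type x} [Group G] {B : T →ₗ[K] T →ₗ[K] K} {ρ : G →* (T →ₗ[K] T)} {σ : G →* (E →ₗ[K] E)}

/-- Every subspace which is stable under a subgroup of finite index is trivial. -/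
def SI (ρ : G →* (T →ₗ[K] T)) : Prop :=
  ∀ Δ : Subgroup G, Δ.FiniteIndex → ∀ U : Submodule K T, (∀ g ∈ Δ, ∀ x ∈ U, ρ g x ∈ U) →
    U = ⊥ ∨ U = ⊤

theorem rho_inv (ρ : G →* (T →ₗ[K] T)) (γ : G) (x : T) : ρ γ (ρ γ⁻¹ x) = x := by
  rw [← Module.End.mul_apply, ← map_mul, mul_inv_cancel, map_one]
  rfl

theorem rho_inv' (ρ : G →* (T →ₗ[K] T)) (γ : G) (x : T) : ρ γ⁻¹ (ρ γ x) = x := by
  rw [← Module.End.mul_apply, ← map_mul, inv_mul_cancel, map_one]
  rfl

theorem rho_mul_apply (ρ : G →* (T →ₗ[K] T)) (γ γ' : G) (x : T) : ρ (γ * γ') x = ρ γ (ρ γ' x) := by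
  rw [map_mul]
  rfl

/-- the stabilizer -/
def stab (ρ : G →* (T →ₗ[K] T)) (U : Submodule K T) : Subgroup G where
  carrier := {γ | (∀ x ∈ U, ρ γ x ∈ U) ∧ ∀ x ∈ U, ρ γ⁻¹ x ∈ U}
  one_mem' := by
    refine ⟨fun x hx => ?_, fun x hx => ?_⟩
    · rw [map_one]; exact hx
    · rw [inv_one, map_one]; exact hx
  mul_mem' := by
    rintro a b ⟨ha, ha'⟩ ⟨hb, hb'⟩
    refine ⟨fun x hx => ?_, fun x hx => ?_⟩
    · rw [rho_mul_apply]; exact ha _ (hb _ hx)
    · rw [mul_inv_rev, rho_mul_apply]; exact hb' _ (ha' _ hx)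
  inv_mem' := by
    rintro a ⟨ha, ha'⟩
    refine ⟨ha', fun x hx => ?_⟩
    rw [inv_inv]
    exact ha x hx

/-- the orbit lemma -/
theorem orbit_top [Module.Finite K T] {μ : G → K} (hμ : ∀ g, μ g ≠ 0)
    (hrf : ∀ x y, B x y = 0 → B y x = 0)
    (hB : ∀ g x y, B (ρ g x) (ρ g y) = μ g * B x y) (hSI : SI ρ) {U : Submodule K T}
    {u u' : T} (hu : u ∈ U) (hu' : u' ∈ U) (huu : B u u' ≠ 0)
    (hU : ∀ γ : G, (∀ x ∈ U, ρ γ x ∈ U) ∨ ∀ x ∈ U, ∀ y ∈ U, B (ρ γ x) y = 0) : U = ⊤ := by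
  have horth : ∀ q q' : G ⧸ stab ρ U, q ≠ q' → ∀ x ∈ U, ∀ y ∈ U,
      B (ρ q.out x) (ρ q'.out y) = 0 := by
    intro q q' hqq x hx y hy
    have h1 : q'.out⁻¹ * q.out ∉ stab ρ U := by
      intro h
      apply hqq
      have h2 := QuotientGroup.eq.2 h
      rw [QuotientGroup.out_eq', QuotientGroup.out_eq'] at h2
      exact h2.symm
    have e1 : B (ρ q.out x) (ρ q'.out y) = μ q'.out * B (ρ (q'.out⁻¹ * q.out) x) y := by
      rw [← hB, rho_mul_apply, rho_inv]
    have e2 : B (ρ q'.out y) (ρ q.out x) = μ q.out * B (ρ (q.out⁻¹ * q'.out) y) x := by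
      rw [← hB, rho_mul_apply, rho_inv]
    rcases hU (q'.out⁻¹ * q.out) with h2 | h2
    · rcases hU (q.out⁻¹ * q'.out) with h3 | h3
      · exfalso
        apply h1
        refine ⟨h2, fun z hz => ?_⟩
        rw [mul_inv_rev, inv_inv]
        exact h3 z hz
      · apply hrf
        rw [e2, h3 y hy x hx, mul_zero]
    · rw [e1, h2 x hx y hy, mul_zero]
  have hli : LinearIndependent K (fun q : G ⧸ stab ρ U => ρ q.out u) := by
    rw [linearIndependent_iff']
    intro s c hc q hq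
    have h1 := congrArg (fun z => B z (ρ q.out u')) hc
    simp only [map_zero, LinearMap.zero_apply, map_sum, LinearMap.sum_apply, map_smul,
      LinearMap.smul_apply, smul_eq_mul] at h1
    rw [Finset.sum_eq_single q] at h1
    · rw [hB] at h1
      rcases mul_eq_zero.1 h1 with h | h
      · exact h
      · exact absurd h (mul_ne_zero (hμ _) huu)
    · intro q' _ hqq
      rw [horth q' q hqq u hu u' hu', mul_zero]
    · intro h
      exact absurd hq h
  have hfin : Finite (G ⧸ stab ρ U) := hli.finite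
  have hfi : (stab ρ U).FiniteIndex := Subgroup.finiteIndex_of_finite_quotient
  rcases hSI _ hfi U (fun g hg x hx => hg.1 x hx) with h | h
  · rw [h, Submodule.mem_bot] at hu
    rw [hu, map_zero] at huu
    exact absurd rfl huu
  · exact h

/-- conjugates -/
theorem rk_conj {μ : G → K} (hμ : ∀ g, μ g ≠ 0)
    (hB : ∀ g x y, B (ρ g x) (ρ g y) = μ g * B x y) (γ : G) (a b : T) :
    ρ γ ∘ₗ rk B a b ∘ₗ ρ γ⁻¹ = (μ γ)⁻¹ • rk B (ρ γ a) (ρ γ b) := by
  apply LinearMap.ext
  intro x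
  rw [LinearMap.comp_apply, LinearMap.comp_apply, rk_apply, map_smul, LinearMap.smul_apply,
    rk_apply, smul_smul]
  congr 1
  have h1 := hB γ a (ρ γ⁻¹ x)
  rw [rho_inv] at h1
  rw [h1, ← mul_assoc, inv_mul_cancel₀ (hμ γ), one_mul]

theorem wg_conj {μ : G → K} (hμ : ∀ g, μ g ≠ 0)
    (hB : ∀ g x y, B (ρ g x) (ρ g y) = μ g * B x y) (γ : G) {a b : T}
    (h : wg B a b ∈ LL S B ρ σ) : wg B (ρ γ a) (ρ γ b) ∈ LL S B ρ σ := by
  have h1 := LL_conj hB h γ
  have h2 : ρ γ ∘ₗ wg B a b ∘ₗ ρ γ⁻¹ = (μ γ)⁻¹ • wg B (ρ γ a) (ρ γ b) := by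
    rw [wg, wg, smul_sub, ← rk_conj hμ hB, ← rk_conj hμ hB, LinearMap.sub_comp,
      LinearMap.comp_sub]
  rw [h2] at h1
  have h3 := Submodule.smul_mem _ (μ γ) h1
  rwa [smul_smul, mul_inv_cancel₀ (hμ γ), one_smul] at h3

/-- brackets with skew operators -/
theorem rk_bracket {A : T →ₗ[K] T} (hA : Skew B A) (a b : T) :
    A ∘ₗ rk B a b - rk B a b ∘ₗ A = rk B a (A b) + rk B (A a) b := by
  apply LinearMap.ext
  intro x
  simp only [LinearMap.sub_apply, LinearMap.comp_apply, rk_apply, LinearMap.add_apply, map_smul]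
  have h1 := hA a x
  have h2 : B (A a) x = - B a (A x) := eq_neg_of_add_eq_zero_left h1
  rw [h2, neg_smul, sub_eq_add_neg]

theorem wg_bracket {A : T →ₗ[K] T} (hA : Skew B A) (a b : T) :
    A ∘ₗ wg B a b - wg B a b ∘ₗ A = wg B (A a) b + wg B a (A b) := by
  have h1 := rk_bracket hA b a
  have h2 := rk_bracket hA a b
  rw [wg, wg, wg, LinearMap.comp_sub, LinearMap.sub_comp, sub_sub_sub_comm, h1, h2]
  abel

theorem wg_add_left (a a' b : T) : wg B (a + a') b = wg B a b + wg B a' b := by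
  apply LinearMap.ext
  intro x
  simp only [wg_apply, LinearMap.add_apply, map_add]
  module

theorem wg_add_right (a b b' : T) : wg B a (b + b') = wg B a b + wg B a b' := by
  apply LinearMap.ext
  intro x
  simp only [wg_apply, LinearMap.add_apply, map_add]
  module

theorem wg_smul_left (c : K) (a b : T) : wg B (c • a) b = c • wg B a b := by
  apply LinearMap.ext
  intro x
  simp only [wg_apply, LinearMap.smul_apply, map_smul, smul_eq_mul]
  module

theorem wg_smul_right (c : K) (a b : T) : wg B a (c • b) = c • wg B a b := by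
  apply LinearMap.ext
  intro x
  simp only [wg_apply, LinearMap.smul_apply, map_smul, smul_eq_mul]
  module

theorem wg_self (a : T) : wg B a a = 0 := by
  apply LinearMap.ext
  intro x
  simp [wg_apply]

theorem wg_neg_swap (a b : T) : wg B a b = - wg B b a := by
  apply LinearMap.ext
  intro x
  simp only [wg_apply, LinearMap.neg_apply]
  module

/-- the partners of a vector -/
def partners (S : Type) [Fintype S] [DecidableEq S] (B : T →ₗ[K] T →ₗ[K] K)
    (ρ : G →* (T →ₗ[K] T)) (σ : G →* (E →ₗ[K] E)) (δ : T) : Submodule K T where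
  carrier := {w | wg B δ w ∈ LL S B ρ σ}
  zero_mem' := by
    have h : wg B δ 0 = 0 := by
      apply LinearMap.ext
      intro x
      simp [wg_apply]
    show wg B δ 0 ∈ LL S B ρ σ
    rw [h]
    exact Submodule.zero_mem _
  add_mem' := by
    intro a b ha hb
    show wg B δ (a + b) ∈ LL S B ρ σ
    rw [wg_add_right]
    exact Submodule.add_mem _ ha hb
  smul_mem' := by
    intro c a ha
    show wg B δ (c • a) ∈ LL S B ρ σ
    rw [wg_smul_right]
    exact Submodule.smul_mem _ c ha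

theorem mem_partners {δ w : T} : w ∈ partners S B ρ σ δ ↔ wg B δ w ∈ LL S B ρ σ := Iff.rfl

section even

variable (hsy : ∀ x y, B x y = B y x) {μ : G → K} (hμ : ∀ g, μ g ≠ 0)
  (hB : ∀ g x y, B (ρ g x) (ρ g y) = μ g * B x y) {g : G} {δ : T} (hq : B δ δ ≠ 0)
  (hg : ∀ x, ρ g x = refl B δ x)

include hsy hq hg hB in
/-- `A δ` is a partner -/
theorem apply_mem_partners {A : T →ₗ[K] T} (hA : A ∈ LL S B ρ σ) :
    A δ ∈ partners S B ρ σ δ := by
  have hR : ∀ x, ρ g (ρ g x) = x := fun x => by rw [hg, hg, refl_refl hq]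
  have h1 := LL_conj hB hA g
  have hinv : ∀ x, ρ g⁻¹ x = ρ g x := by
    intro x
    have := rho_inv' ρ g (ρ g x)
    rw [hR] at this
    exact this
  have hAδ : B δ (A δ) = 0 := by
    have h2 := hA.1 δ δ
    rw [hsy (A δ) δ] at h2
    have h3 : (2 : K) * B δ (A δ) = 0 := by linear_combination h2
    exact (mul_eq_zero.1 h3).resolve_left two_ne_zero
  have h2 : A - ρ g ∘ₗ A ∘ₗ ρ g⁻¹ = (2 / B δ δ) • wg B (A δ) δ := by
    apply LinearMap.ext
    intro x
    rw [LinearMap.sub_apply, LinearMap.comp_apply, LinearMap.comp_apply, hinv, hg, hg, refl_apply,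
      refl_apply, map_sub, map_sub, map_smul, map_smul, hAδ, LinearMap.smul_apply, wg_apply]
    have h3 := hA.1 δ x
    have h4 : B δ (A x) = - B (A δ) x := (neg_eq_of_add_eq_zero_right h3).symm
    rw [h4, smul_zero, sub_zero]
    module
  have h3 : (2 / B δ δ) • wg B (A δ) δ ∈ LL S B ρ σ := by
    rw [← h2]
    exact Submodule.sub_mem _ hA h1
  have h4 := Submodule.smul_mem _ (-(B δ δ / 2)) h3
  rw [smul_smul] at h4
  have h5 : -(B δ δ / 2) * (2 / B δ δ) = -1 := by field_simp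
  rw [h5, neg_one_smul, ← wg_neg_swap] at h4
  exact h4

include hsy hq in
/-- pairs of partners -/
theorem pair_mem {w w' : T} (hw : w ∈ partners S B ρ σ δ) (hw' : w' ∈ partners S B ρ σ δ) :
    wg B w w' ∈ LL S B ρ σ := by
  have hw1 : wg B δ w ∈ LL S B ρ σ := hw
  have hw1' : wg B δ w' ∈ LL S B ρ σ := hw'
  have h1 := LL_bracket hw1 hw1'
  rw [wg_bracket hw1.1] at h1
  have h2 : wg B (wg B δ w δ) w' + wg B δ (wg B δ w w') = B w δ • wg B δ w' -
      B δ δ • wg B w w' - B δ w' • wg B δ w := by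
    apply LinearMap.ext
    intro x
    simp only [wg_apply, LinearMap.add_apply, LinearMap.sub_apply, LinearMap.smul_apply, map_sub,
      map_smul, smul_eq_mul]
    module
  rw [h2] at h1
  have h3 : B δ δ • wg B w w' ∈ LL S B ρ σ := by
    have h4 : B δ δ • wg B w w' = B w δ • wg B δ w' - B δ w' • wg B δ w - (B w δ • wg B δ w' -
      B δ δ • wg B w w' - B δ w' • wg B δ w) := by abel
    rw [h4]
    exact Submodule.sub_mem _ (Submodule.sub_mem _ (Submodule.smul_mem _ _ hw1')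
      (Submodule.smul_mem _ _ hw1)) h1
  have h4 := Submodule.smul_mem _ (B δ δ)⁻¹ h3
  rwa [smul_smul, inv_mul_cancel₀ hq, one_smul] at h4

include hsy hq hg hB in
/-- stability -/
theorem partners_stable {A : T →ₗ[K] T} (hA : A ∈ LL S B ρ σ) {w : T}
    (hw : w ∈ partners S B ρ σ δ) : A w ∈ partners S B ρ σ δ := by
  have h0 : wg B δ w ∈ LL S B ρ σ := hw
  have h1 := LL_bracket hA h0
  rw [wg_bracket hA.1] at h1
  have h2 := pair_mem hsy hq (apply_mem_partners hsy hB hq hg hA) hw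
  have h3 := Submodule.sub_mem _ h1 h2
  rw [add_sub_cancel_left] at h3
  exact h3

/-- partners of translates -/
theorem partners_conj (hμ : ∀ g, μ g ≠ 0) (hB : ∀ g x y, B (ρ g x) (ρ g y) = μ g * B x y)
    (γ : G) {δ w : T} (hw : w ∈ partners S B ρ σ δ) :
    ρ γ w ∈ partners S B ρ σ (ρ γ δ) := wg_conj hμ hB γ hw

include hμ hB hg in
theorem conj_refl (γ : G) (x : T) : ρ (γ * g * γ⁻¹) x = refl B (ρ γ δ) x := by
  rw [map_mul, map_mul, Module.End.mul_apply, Module.End.mul_apply, hg,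
    refl_conj (hμ γ) (hB γ), rho_inv]

include hsy hμ hB hq hg in
/-- the radicals are orthogonal -/
theorem rad_orth {γ γ' : G} {x y : T} (hx : x ∈ partners S B ρ σ (ρ γ δ))
    (hx' : ∀ z ∈ partners S B ρ σ (ρ γ δ), B x z = 0)
    (hy : y ∈ partners S B ρ σ (ρ γ' δ)) (hy' : ∀ z ∈ partners S B ρ σ (ρ γ' δ), B y z = 0) :
    B y x = 0 := by
  have hqγ : ∀ γ, B (ρ γ δ) (ρ γ δ) ≠ 0 := fun γ => by
    rw [hB]
    exact mul_ne_zero (hμ γ) hq
  have hy0 : wg B y (ρ γ' δ) ∈ LL S B ρ σ := by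
    rw [wg_neg_swap]
    exact Submodule.neg_mem _ hy
  have hz : wg B y (ρ γ' δ) x ∈ partners S B ρ σ (ρ γ δ) :=
    partners_stable hsy hB (hqγ γ) (conj_refl hμ hB hg γ) hy0 hx
  have hzz : B (wg B y (ρ γ' δ) x) (wg B y (ρ γ' δ) x) = 0 := by
    have h1 := hy0.1 x (wg B y (ρ γ' δ) x)
    rw [hx' _ (partners_stable hsy hB (hqγ γ) (conj_refl hμ hB hg γ) hy0 hz), add_zero] at h1
    exact h1
  have hδ : ρ γ' δ ∈ partners S B ρ σ (ρ γ' δ) := by
    show wg B (ρ γ' δ) (ρ γ' δ) ∈ LL S B ρ σ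
    rw [wg_self]
    exact Submodule.zero_mem _
  have h1 := hy' _ hy
  have h2 := hy' _ hδ
  simp only [wg_apply, map_sub, map_smul, LinearMap.sub_apply, LinearMap.smul_apply,
    smul_eq_mul, h1, h2, hsy (ρ γ' δ) y] at hzz
  have h3 : B y x * B y x * B (ρ γ' δ) (ρ γ' δ) = 0 := by linear_combination hzz
  rcases mul_eq_zero.1 h3 with h | h
  · rcases mul_eq_zero.1 h with h | h <;> exact h
  · exact absurd h (hqγ γ')

include hsy hμ hB hq hg in
theorem rad_zero (hSI : SI ρ) {γ : G} {x : T} (hx : x ∈ partners S B ρ σ (ρ γ δ))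
    (hx' : ∀ z ∈ partners S B ρ σ (ρ γ δ), B x z = 0) : x = 0 := by
  set P : Set T := {x | ∃ γ : G, x ∈ partners S B ρ σ (ρ γ δ) ∧
    ∀ z ∈ partners S B ρ σ (ρ γ δ), B x z = 0} with hP
  have h1 : ∀ g' ∈ (⊤ : Subgroup G), ∀ x ∈ Submodule.span K P, ρ g' x ∈ Submodule.span K P := by
    intro g' _ x hx
    induction hx using Submodule.span_induction with
    | mem x hx =>
      obtain ⟨γ, h1, h2⟩ := hx
      refine Submodule.subset_span ⟨g' * γ, ?_, fun z hz => ?_⟩
      · rw [rho_mul_apply]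
        exact partners_conj hμ hB g' h1
      · have h3 := partners_conj hμ hB g'⁻¹ hz
        rw [rho_mul_apply, rho_inv'] at h3
        have h4 := h2 _ h3
        have h5 := hB g' x (ρ g'⁻¹ z)
        rw [rho_inv, h4, mul_zero] at h5
        exact h5
    | zero => rw [map_zero]; exact Submodule.zero_mem _
    | add x y _ _ hx hy => rw [map_add]; exact Submodule.add_mem _ hx hy
    | smul a x _ hx => rw [map_smul]; exact Submodule.smul_mem _ a hx
  have h2 : ∀ x ∈ Submodule.span K P, ∀ y ∈ Submodule.span K P, B x y = 0 := by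
    intro x hx
    induction hx using Submodule.span_induction with
    | mem x hx =>
      intro y hy
      induction hy using Submodule.span_induction with
      | mem y hy =>
        obtain ⟨γ, h1, h2⟩ := hx
        obtain ⟨γ', h1', h2'⟩ := hy
        exact rad_orth hsy hμ hB hq hg h1' h2' h1 h2
      | zero => rw [map_zero]
      | add y y' _ _ hy hy' => rw [map_add, hy, hy', add_zero]
      | smul a y _ hy => rw [map_smul, hy, smul_zero]
    | zero => intro y _; rw [map_zero, LinearMap.zero_apply]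
    | add x x' _ _ hx hx' =>
      intro y hy
      rw [map_add, LinearMap.add_apply, hx y hy, hx' y hy, add_zero]
    | smul a x _ hx =>
      intro y hy
      rw [map_smul, LinearMap.smul_apply, hx y hy, smul_zero]
  have h3 : x ∈ Submodule.span K P := Submodule.subset_span ⟨γ, hx, hx'⟩
  rcases hSI ⊤ inferInstance _ h1 with h | h
  · rw [h, Submodule.mem_bot] at h3
    exact h3
  · exact absurd (h2 δ (by rw [h]; exact Submodule.mem_top) δ
      (by rw [h]; exact Submodule.mem_top)) hq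

include hsy hμ hB hq hg in
/-- **the orthogonal Lie algebra** -/
theorem even_full [Module.Finite K T] (hSI : SI ρ) {δ' : T} (hδ' : δ' ∈ partners S B ρ σ δ)
    (hne : ∀ c : K, δ' ≠ c • δ) (a b : T) : wg B a b ∈ LL S B ρ σ := by
  have hqγ : ∀ γ, B (ρ γ δ) (ρ γ δ) ≠ 0 := fun γ => by
    rw [hB]
    exact mul_ne_zero (hμ γ) hq
  have hδ : δ ∈ partners S B ρ σ δ := by
    show wg B δ δ ∈ LL S B ρ σ
    rw [wg_self]
    exact Submodule.zero_mem _
  have step : ∀ γ : G, ∀ w' ∈ partners S B ρ σ (ρ γ δ), ∀ b ∈ partners S B ρ σ δ,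
      B b w' ≠ 0 → ∀ a ∈ partners S B ρ σ δ, a ∈ partners S B ρ σ (ρ γ δ) := by
    intro γ w' hw' b hb hbw a ha
    have hb0 : b ≠ 0 := by
      rintro rfl
      rw [map_zero, LinearMap.zero_apply] at hbw
      exact hbw rfl
    obtain ⟨a0, ha0, ha0b⟩ : ∃ a0 ∈ partners S B ρ σ δ, ∀ c : K, a0 ≠ c • b := by
      by_contra hcon
      push Not at hcon
      obtain ⟨c, hc⟩ := hcon δ hδ
      obtain ⟨c', hc'⟩ := hcon δ' hδ'
      have hc0 : c ≠ 0 := by
        rintro rfl
        rw [zero_smul] at hc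
        rw [hc, map_zero] at hq
        exact hq rfl
      apply hne (c' * c⁻¹)
      rw [hc, smul_smul, mul_assoc, inv_mul_cancel₀ hc0, mul_one]
      exact hc'
    have hy1 : wg B a0 b w' ∈ partners S B ρ σ (ρ γ δ) :=
      partners_stable hsy hB (hqγ γ) (conj_refl hμ hB hg γ) (pair_mem hsy hq ha0 hb) hw'
    have hy2 : wg B a0 b w' ∈ partners S B ρ σ δ := by
      rw [wg_apply]
      exact Submodule.sub_mem _ (Submodule.smul_mem _ _ ha0) (Submodule.smul_mem _ _ hb)
    have hy0 : wg B a0 b w' ≠ 0 := by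
      intro h
      rw [wg_apply, sub_eq_zero] at h
      apply ha0b ((B b w')⁻¹ * B a0 w')
      have h1 := congrArg (fun z => (B b w')⁻¹ • z) h
      simp only [smul_smul, inv_mul_cancel₀ hbw, one_smul] at h1
      exact h1
    obtain ⟨w'', hw'', hyw⟩ : ∃ w'' ∈ partners S B ρ σ (ρ γ δ), B (wg B a0 b w') w'' ≠ 0 := by
      by_contra hcon
      push Not at hcon
      exact hy0 (rad_zero hsy hμ hB hq hg hSI hy1 hcon)
    have h1 : wg B a (wg B a0 b w') w'' ∈ partners S B ρ σ (ρ γ δ) :=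
      partners_stable hsy hB (hqγ γ) (conj_refl hμ hB hg γ) (pair_mem hsy hq ha hy2) hw''
    rw [wg_apply] at h1
    have h2 := Submodule.add_mem _ h1 (Submodule.smul_mem _ (B a w'') hy1)
    rw [sub_add_cancel] at h2
    have h3 := Submodule.smul_mem _ (B (wg B a0 b w') w'')⁻¹ h2
    rwa [smul_smul, inv_mul_cancel₀ hyw, one_smul] at h3
  have htop : partners S B ρ σ δ = ⊤ := by
    refine orbit_top hμ (fun x y h => by rw [hsy]; exact h) hB hSI hδ hδ hq fun γ => ?_
    by_contra hcon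
    push Not at hcon
    obtain ⟨⟨x, hx, hx'⟩, y, hy, z, hz, hyz⟩ := hcon
    apply hx'
    have h1 : B (ρ γ y) z = μ γ * B y (ρ γ⁻¹ z) := by rw [← hB, rho_inv]
    have h2 : ∀ a ∈ partners S B ρ σ δ, a ∈ partners S B ρ σ (ρ γ⁻¹ δ) := by
      refine step γ⁻¹ (ρ γ⁻¹ z) (partners_conj hμ hB γ⁻¹ hz) y hy ?_
      intro h
      rw [h, mul_zero] at h1
      exact hyz h1
    have h3 := partners_conj hμ hB γ (h2 x hx)
    rwa [rho_inv] at h3
  exact pair_mem hsy hq (by rw [htop]; exact Submodule.mem_top)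
    (by rw [htop]; exact Submodule.mem_top)

end even

/-- the operator `a b` -/
def ss (B : T →ₗ[K] T →ₗ[K] K) (a b : T) : T →ₗ[K] T := rk B a b + rk B b a

theorem ss_apply (a b x : T) : ss B a b x = B a x • b + B b x • a := rfl

theorem ss_comm (a b : T) : ss B a b = ss B b a := add_comm _ _

theorem ss_add_left (a a' b : T) : ss B (a + a') b = ss B a b + ss B a' b := by
  apply LinearMap.ext
  intro x
  simp only [ss_apply, LinearMap.add_apply, map_add]
  module

theorem ss_add_right (a b b' : T) : ss B a (b + b') = ss B a b + ss B a b' := by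
  rw [ss_comm, ss_add_left, ss_comm b, ss_comm b']

theorem ss_smul_left (c : K) (a b : T) : ss B (c • a) b = c • ss B a b := by
  apply LinearMap.ext
  intro x
  simp only [ss_apply, LinearMap.smul_apply, map_smul, smul_eq_mul]
  module

theorem ss_smul_right (c : K) (a b : T) : ss B a (c • b) = c • ss B a b := by
  rw [ss_comm, ss_smul_left, ss_comm]

theorem ss_bracket {A : T →ₗ[K] T} (hA : Skew B A) (a b : T) :
    A ∘ₗ ss B a b - ss B a b ∘ₗ A = ss B (A a) b + ss B a (A b) := by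
  have h1 := rk_bracket hA a b
  have h2 := rk_bracket hA b a
  rw [ss, ss, ss, LinearMap.comp_add, LinearMap.add_comp, add_sub_add_comm, h1, h2]
  abel

theorem ss_conj {μ : G → K} (hμ : ∀ g, μ g ≠ 0)
    (hB : ∀ g x y, B (ρ g x) (ρ g y) = μ g * B x y) (γ : G) {a b : T}
    (h : ss B a b ∈ LL S B ρ σ) : ss B (ρ γ a) (ρ γ b) ∈ LL S B ρ σ := by
  have h1 := LL_conj hB h γ
  have h2 : ρ γ ∘ₗ ss B a b ∘ₗ ρ γ⁻¹ = (μ γ)⁻¹ • ss B (ρ γ a) (ρ γ b) := by
    rw [ss, ss, smul_add, ← rk_conj hμ hB, ← rk_conj hμ hB, LinearMap.add_comp,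
      LinearMap.comp_add]
  rw [h2] at h1
  have h3 := Submodule.smul_mem _ (μ γ) h1
  rwa [smul_smul, mul_inv_cancel₀ (hμ γ), one_smul] at h3

section odd

variable (hsk : ∀ x y, B x y = -B y x) (hnd : ∀ x, (∀ y, B x y = 0) → x = 0) {μ : G → K}
  (hμ : ∀ g, μ g ≠ 0) (hB : ∀ g x y, B (ρ g x) (ρ g y) = μ g * B x y)

/-- the products with a new vector -/
theorem ss_step {U : Submodule K T} (hU : ∀ u ∈ U, ∀ u' ∈ U, ss B u u' ∈ LL S B ρ σ) {u1 v w : T}
    (hu1 : u1 ∈ U) (hβ : B u1 v ≠ 0) (hwv : ss B w v ∈ LL S B ρ σ)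
    (hUv : ∀ u ∈ U, ss B (ss B u u1 w) v ∈ LL S B ρ σ) {u : T} (hu : u ∈ U) :
    ss B w u ∈ LL S B ρ σ := by
  have key : ∀ u ∈ U, B u v • ss B w u1 + B u1 v • ss B w u ∈ LL S B ρ σ := by
    intro u hu
    have h1 := LL_bracket (hU u hu u1 hu1) hwv
    rw [ss_bracket (hU u hu u1 hu1).1] at h1
    have h2 := Submodule.sub_mem _ h1 (hUv u hu)
    rw [add_sub_cancel_left, ss_apply u u1 v, ss_add_right, ss_smul_right, ss_smul_right] at h2
    exact h2
  have h1 : ss B w u1 ∈ LL S B ρ σ := by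
    have h2 := key u1 hu1
    rw [← add_smul, ← two_mul] at h2
    have h3 := Submodule.smul_mem _ (2 * B u1 v)⁻¹ h2
    rwa [smul_smul, inv_mul_cancel₀ (mul_ne_zero two_ne_zero hβ), one_smul] at h3
  have h2 := Submodule.sub_mem _ (key u hu) (Submodule.smul_mem _ (B u v) h1)
  rw [add_sub_cancel_left] at h2
  have h3 := Submodule.smul_mem _ (B u1 v)⁻¹ h2
  rwa [smul_smul, inv_mul_cancel₀ hβ, one_smul] at h3

include hsk hnd hμ hB in
/-- **the symplectic Lie algebra** -/
theorem odd_full [Module.Finite K T] (hSI : SI ρ) {δ : T} (hδ0 : δ ≠ 0)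
    (hδ : rk B δ δ ∈ LL S B ρ σ) (a b : T) : ss B a b ∈ LL S B ρ σ := by
  have hδδ : ss B δ δ ∈ LL S B ρ σ := Submodule.add_mem _ hδ hδ
  have hgg : ∀ γ, ss B (ρ γ δ) (ρ γ δ) ∈ LL S B ρ σ := fun γ => ss_conj hμ hB γ hδδ
  obtain ⟨U, ⟨hUδ, hU⟩, hmax⟩ := (inferInstance : WellFoundedGT (Submodule K T)).wf.has_min
    {U | δ ∈ U ∧ ∀ u ∈ U, ∀ u' ∈ U, ss B u u' ∈ LL S B ρ σ} ⟨Submodule.span K {δ}, by
      refine ⟨Submodule.mem_span_singleton_self δ, fun u hu u' hu' => ?_⟩
      obtain ⟨c, rfl⟩ := Submodule.mem_span_singleton.1 hu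
      obtain ⟨c', rfl⟩ := Submodule.mem_span_singleton.1 hu'
      rw [ss_smul_left, ss_smul_right]
      exact Submodule.smul_mem _ _ (Submodule.smul_mem _ _ hδδ)⟩
  have hext : ∀ V : Submodule K T, (∀ v ∈ V, ∀ v' ∈ V, ss B v v' ∈ LL S B ρ σ) →
      (∀ u ∈ U, ∀ v ∈ V, ss B u v ∈ LL S B ρ σ) → V ≤ U := by
    intro V h1 h2
    by_contra hVU
    refine hmax (U ⊔ V) ⟨Submodule.mem_sup_left hUδ, fun x hx y hy => ?_⟩ ?_
    · obtain ⟨u, hu, v, hv, rfl⟩ := Submodule.mem_sup.1 hx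
      obtain ⟨u', hu', v', hv', rfl⟩ := Submodule.mem_sup.1 hy
      rw [ss_add_left, ss_add_right, ss_add_right]
      refine Submodule.add_mem _ (Submodule.add_mem _ (hU u hu u' hu') (h2 u hu v' hv'))
        (Submodule.add_mem _ ?_ (h1 v hv v' hv'))
      rw [ss_comm]
      exact h2 u' hu' v hv
    · exact lt_of_le_of_ne le_sup_left (fun h => hVU (h ▸ le_sup_right))
  -- the dichotomy
  have hdi : ∀ γ, (∃ u ∈ U, B u (ρ γ δ) ≠ 0) → ρ γ δ ∈ U := by
    rintro γ ⟨u1, hu1, hβ⟩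
    have h1 : Submodule.span K {ρ γ δ} ≤ U := by
      refine hext _ (fun v hv v' hv' => ?_) (fun u hu v hv => ?_)
      · obtain ⟨c, rfl⟩ := Submodule.mem_span_singleton.1 hv
        obtain ⟨c', rfl⟩ := Submodule.mem_span_singleton.1 hv'
        rw [ss_smul_left, ss_smul_right]
        exact Submodule.smul_mem _ _ (Submodule.smul_mem _ _ (hgg γ))
      · obtain ⟨c, rfl⟩ := Submodule.mem_span_singleton.1 hv
        rw [ss_smul_right]
        refine Submodule.smul_mem _ _ ?_
        -- the bracket with the square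
        have key : ∀ u ∈ U, B u (ρ γ δ) • ss B u1 (ρ γ δ) + B u1 (ρ γ δ) • ss B u (ρ γ δ) ∈
            LL S B ρ σ := by
          intro u hu
          have h1 := LL_bracket (hU u hu u1 hu1) (hgg γ)
          rw [ss_bracket (hU u hu u1 hu1).1, ss_comm (ρ γ δ) (ss B u u1 (ρ γ δ)), ← two_smul K,
            ss_apply u u1, ss_add_left, ss_smul_left, ss_smul_left] at h1
          have h2 := Submodule.smul_mem _ (2 : K)⁻¹ h1
          rwa [smul_smul, inv_mul_cancel₀ two_ne_zero, one_smul] at h2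
        have h1 : ss B u1 (ρ γ δ) ∈ LL S B ρ σ := by
          have h2 := key u1 hu1
          rw [← add_smul, ← two_mul] at h2
          have h3 := Submodule.smul_mem _ (2 * B u1 (ρ γ δ))⁻¹ h2
          rwa [smul_smul, inv_mul_cancel₀ (mul_ne_zero two_ne_zero hβ), one_smul] at h3
        have h2 := Submodule.sub_mem _ (key u hu) (Submodule.smul_mem _ (B u (ρ γ δ)) h1)
        rw [add_sub_cancel_left] at h2
        have h3 := Submodule.smul_mem _ (B u1 (ρ γ δ))⁻¹ h2
        rwa [smul_smul, inv_mul_cancel₀ hβ, one_smul] at h3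
    exact h1 (Submodule.mem_span_singleton_self _)
  -- the orbit spans
  have hst : ∀ g ∈ (⊤ : Subgroup G), ∀ x ∈ Submodule.span K (Set.range fun γ => ρ γ δ),
      ρ g x ∈ Submodule.span K (Set.range fun γ => ρ γ δ) := by
    intro g _ x hx
    induction hx using Submodule.span_induction with
    | mem x hx =>
      obtain ⟨γ, rfl⟩ := hx
      exact Submodule.subset_span ⟨g * γ, rho_mul_apply ρ g γ δ⟩
    | zero => rw [map_zero]; exact Submodule.zero_mem _
    | add x y _ _ hx hy => rw [map_add]; exact Submodule.add_mem _ hx hy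
    | smul a x _ hx => rw [map_smul]; exact Submodule.smul_mem _ a hx
  have hspan : Submodule.span K (Set.range fun γ => ρ γ δ) = ⊤ := by
    rcases hSI ⊤ inferInstance _ hst with h | h
    · exfalso
      apply hδ0
      have h1 : ρ 1 δ ∈ Submodule.span K (Set.range fun γ => ρ γ δ) :=
        Submodule.subset_span ⟨1, rfl⟩
      rw [h, Submodule.mem_bot, map_one] at h1
      exact h1
    · exact h
  -- nondegenerate
  have hUnd : ∀ r ∈ U, (∀ u ∈ U, B r u = 0) → r = 0 := by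
    intro r hr h1
    apply hnd
    intro y
    have hy : y ∈ Submodule.span K (Set.range fun γ => ρ γ δ) := by
      rw [hspan]; exact Submodule.mem_top
    induction hy using Submodule.span_induction with
    | mem y hy =>
      obtain ⟨γ, rfl⟩ := hy
      by_contra h2
      exact h2 (h1 _ (hdi γ ⟨r, hr, h2⟩))
    | zero => rw [map_zero]
    | add x y _ _ hx hy => rw [map_add, hx, hy, add_zero]
    | smul a x _ hx => rw [map_smul, hx, smul_zero]
  -- generated by the vectors of the orbit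
  have hUgen : ∀ u ∈ U, u ∈ Submodule.span K {v | v ∈ U ∧ ∃ γ, ρ γ δ = v} := by
    intro u hu
    have hy : u ∈ Submodule.span K (Set.range fun γ => ρ γ δ) := by
      rw [hspan]; exact Submodule.mem_top
    have h1 : ∀ y ∈ Submodule.span K (Set.range fun γ => ρ γ δ),
        ∃ y1 ∈ Submodule.span K {v | v ∈ U ∧ ∃ γ, ρ γ δ = v}, ∃ y2, (∀ u ∈ U, B u y2 = 0) ∧
          y = y1 + y2 := by
      intro y hy
      induction hy using Submodule.span_induction with
      | mem y hy =>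
        obtain ⟨γ, rfl⟩ := hy
        by_cases h2 : ρ γ δ ∈ U
        · exact ⟨ρ γ δ, Submodule.subset_span ⟨h2, γ, rfl⟩, 0, fun u _ => map_zero _,
            (add_zero _).symm⟩
        · refine ⟨0, Submodule.zero_mem _, ρ γ δ, fun u hu => ?_, (zero_add _).symm⟩
          by_contra h3
          exact h2 (hdi γ ⟨u, hu, h3⟩)
      | zero => exact ⟨0, Submodule.zero_mem _, 0, fun u _ => map_zero _, (add_zero _).symm⟩
      | add x y _ _ hx hy =>
        obtain ⟨x1, hx1, x2, hx2, rfl⟩ := hx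
        obtain ⟨y1, hy1, y2, hy2, rfl⟩ := hy
        refine ⟨x1 + y1, Submodule.add_mem _ hx1 hy1, x2 + y2, fun u hu => ?_, by abel⟩
        rw [map_add, hx2 u hu, hy2 u hu, add_zero]
      | smul a x _ hx =>
        obtain ⟨x1, hx1, x2, hx2, rfl⟩ := hx
        refine ⟨a • x1, Submodule.smul_mem _ a hx1, a • x2, fun u hu => ?_, smul_add _ _ _⟩
        rw [map_smul, hx2 u hu, smul_zero]
    obtain ⟨y1, hy1, y2, hy2, hyy⟩ := h1 u hy
    have h2 : y1 ∈ U := (Submodule.span_le.2 fun v hv => hv.1) hy1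
    have h3 : y2 ∈ U := by
      have : y2 = u - y1 := by rw [hyy, add_sub_cancel_left]
      rw [this]
      exact Submodule.sub_mem _ hu h2
    have h4 : y2 = 0 := hUnd y2 h3 fun u hu => by rw [hsk, hy2 u hu, neg_zero]
    rw [hyy, h4, add_zero]
    exact hy1
  have hU0 : ∃ u1 ∈ U, B δ u1 ≠ 0 := by
    by_contra hcon
    push Not at hcon
    exact hδ0 (hUnd δ hUδ hcon)
  obtain ⟨u0, hu0, hδu0⟩ := hU0
  have htop : U = ⊤ := by
    refine orbit_top hμ (fun x y h => by rw [hsk, h, neg_zero]) hB hSI hUδ hu0 hδu0 fun γ => ?_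
    by_contra hcon
    push Not at hcon
    obtain ⟨⟨x, hx, hx'⟩, y, hy, z, hz, hyz⟩ := hcon
    apply hx'
    -- a vector of the orbit in both spaces
    obtain ⟨v, hv, hvz⟩ : ∃ v ∈ {v | v ∈ U ∧ ∃ γ, ρ γ δ = v}, B (ρ γ v) z ≠ 0 := by
      by_contra hcon
      push Not at hcon
      apply hyz
      have h1 : ∀ y ∈ Submodule.span K {v | v ∈ U ∧ ∃ γ, ρ γ δ = v}, B (ρ γ y) z = 0 := by
        intro y hy
        induction hy using Submodule.span_induction with
        | mem y hy => exact hcon y hy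
        | zero => rw [map_zero, map_zero, LinearMap.zero_apply]
        | add x y _ _ hx hy => rw [map_add, map_add, LinearMap.add_apply, hx, hy, add_zero]
        | smul a x _ hx => rw [map_smul, map_smul, LinearMap.smul_apply, hx, smul_zero]
      exact h1 y (hUgen y hy)
    obtain ⟨hvU, γ', rfl⟩ := hv
    have hv' : ρ γ (ρ γ' δ) ∈ U := by
      rw [← rho_mul_apply]
      refine hdi _ ⟨z, hz, ?_⟩
      rw [rho_mul_apply, hsk]
      exact neg_ne_zero.2 hvz
    have h1 : U.map (ρ γ) ≤ U := by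
      refine hext _ ?_ ?_
      · rintro _ ⟨w, hw, rfl⟩ _ ⟨w', hw', rfl⟩
        exact ss_conj hμ hB γ (hU w hw w' hw')
      · rintro u hu _ ⟨w, hw, rfl⟩
        rw [ss_comm]
        refine ss_step hU hz (v := ρ γ (ρ γ' δ)) ?_ (ss_conj hμ hB γ (hU w hw _ hvU)) ?_ hu
        · rw [hsk]
          exact neg_ne_zero.2 hvz
        · intro u hu
          refine hU _ ?_ _ hv'
          rw [ss_apply]
          exact Submodule.add_mem _ (Submodule.smul_mem _ _ hz) (Submodule.smul_mem _ _ hu)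
    exact h1 ⟨x, hx, rfl⟩
  exact hU a (by rw [htop]; exact Submodule.mem_top) b (by rw [htop]; exact Submodule.mem_top)

end odd

end Pool.Agent.TH125.Gal
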