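import Pool.Agent.TH125.Gal.Fp

/-!
# Positivity of the form and the conjecture D for products
-/

open CategoryTheory AlgebraicGeometry Finset

set_option linter.unusedSectionVars false

universe u v w

namespace Pool.Agent.TH125.Gal

open Pool.Agent.H914 Pool.Agent.H914.VarClass Pool.Agent.H914.VarClass.Obj
  Pool.Agent.H914.WeilCohomology Pool.Agent.H281R3.HT Pool.Agent.W552 Pool.Agent.H447

variable {k : Type u} [Field k] {𝒱 : VarClass k} {ops : CycleOps 𝒱}
  {W : WeilCohomology.{u, v} ops} {X Y Z A B : 𝒱.Obj}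

/-- The contraction with a class of the first factor. -/
noncomputable def cn (u : W.H A) (c : W.H (A.prod B)) : W.H B :=
  W.push (snd A B) (W.map (fst A B) u * c)

theorem cn_AS {u : W.H A} {c : W.H (A.prod B)} (hu : W552.AS W A u) (hc : W552.AS W _ c) :
    W552.AS W B (cn u c) := ((hu.map _).mul hc).push _

theorem cn_add (u : W.H A) (c c' : W.H (A.prod B)) : cn u (c + c') = cn u c + cn u c' := by
  rw [cn, mul_add, map_add]
  rfl

theorem cn_smul (u : W.H A) (r : W.K) (c : W.H (A.prod B)) : cn u (r • c) = r • cn u c := by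
  rw [cn, mul_smul_comm, map_smul]
  rfl

theorem cn_ext (u a : W.H A) (b : W.H B) :
    cn u (W.map (fst A B) a * W.map (snd A B) b) = W.tr A (u * a) • b := by
  rw [cn, ← mul_assoc, ← map_mul, W.push_snd]

theorem tr_cn (u : W.H A) (c : W.H (A.prod B)) (w : W.H B) :
    W.tr B (cn u c * w) = W.tr (A.prod B) (W.map (fst A B) u * c * W.map (snd A B) w) := by
  rw [cn, W.tr_push]

/-- the classes which are combinations of external products of algebraic classes of the first factor
and arbitrary classes -/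
noncomputable def LSpan (W : WeilCohomology.{u, v} ops) (A B : 𝒱.Obj) :
    Submodule W.K (W.H (A.prod B)) :=
  Submodule.span W.K {c | ∃ a ∈ algSpan W A, ∃ b, c = W.map (fst A B) a * W.map (snd A B) b}

/-- Expansion in an orthogonal basis. -/
theorem lspan_expand {D : A.Cycles} {f : Module.End W.K (W.H A)} (F : Fp W A D f) {N : ℕ}
    {e : Fin N → W.H A} {w : Fin N → ℚ} (he : ∀ k, W552.AS W A (e k))
    (hexp : ∀ x ∈ algSpan W A, x = ∑ k, ((w k : W.K)⁻¹ * bf W A D f x (e k)) • e k)
    {c : W.H (A.prod B)} (hc : c ∈ LSpan W A B) :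
    c = ∑ k, (w k : W.K)⁻¹ • (W.map (fst A B) (e k) *
      W.map (snd A B) (cn (st W A D f (e k)) c)) := by
  induction hc using Submodule.span_induction with
  | mem c hc =>
    obtain ⟨a, ha, b, rfl⟩ := hc
    have h1 : W.map (fst A B) a = ∑ k, ((w k : W.K)⁻¹ * bf W A D f a (e k)) •
        W.map (fst A B) (e k) := by
      conv_lhs => rw [hexp a ha]
      rw [map_sum]
      simp only [map_smul]
    conv_lhs => rw [h1, Finset.sum_mul]
    refine Finset.sum_congr rfl fun k _ => ?_
    rw [cn_ext, (F.fr.st_AS (he k)).comm, ← bf_apply, map_smul, mul_smul_comm, smul_mul_assoc,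
      smul_smul]
  | zero => simp [cn]
  | add x y _ _ hx hy =>
    conv_lhs => rw [hx, hy]
    rw [← Finset.sum_add_distrib]
    refine Finset.sum_congr rfl fun k _ => ?_
    rw [cn_add, map_add, mul_add, smul_add]
  | smul q x _ hx =>
    conv_lhs => rw [hx]
    rw [Finset.smul_sum]
    refine Finset.sum_congr rfl fun k _ => ?_
    rw [cn_smul, map_smul, mul_smul_comm, smul_comm]

/-- **Positivity of the form on the algebraic classes of a product.** -/
theorem Fp.prod {D : A.Cycles} {f : Module.End W.K (W.H A)} (F : Fp W A D f)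
    {E : B.Cycles} {g : Module.End W.K (W.H B)} (G : Fp W B E g)
    (hspan : ∀ c, W552.AS W (A.prod B) c → c ∈ LSpan W A B) :
    Fp W (A.prod B) (ops.pull (fst A B) D + ops.pull (snd A B) E) (extSum W f g) := by
  refine ⟨F.fr.prod G.fr, F.sy.prod F.fr G.fr G.sy, ?_⟩
  obtain ⟨N, e, w, he, hw, horth, hexp⟩ := F.exists_onb
  intro c hc hc0
  set z : Fin N → W.H B := fun k => cn (st W A D f (e k)) c with hz
  have hzA : ∀ k, W552.AS W B (z k) := fun k => cn_AS (F.fr.st_AS (he k)) hc
  have hcz : c = ∑ k, (w k : W.K)⁻¹ • H281R3.HT.ext W (e k) (z k) :=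
    lspan_expand F he hexp (hspan c hc)
  have hpos : ∀ k, ∃ q : ℚ, 0 ≤ q ∧ (z k ≠ 0 → 0 < q) ∧ bf W B E g (z k) (z k) = q := by
    intro k
    by_cases h0 : z k = 0
    · exact ⟨0, le_rfl, fun h => absurd h0 h, by rw [h0]; simp⟩
    · obtain ⟨q, hq, hq'⟩ := G.pos _ (hzA k) h0
      exact ⟨q, hq.le, fun _ => hq, hq'⟩
  choose q hq0 hq1 hq2 using hpos
  have hw' : ∀ k, (w k : W.K) ≠ 0 := fun k => by exact_mod_cast (hw k).ne'
  refine ⟨∑ k, (w k)⁻¹ * q k, ?_, ?_⟩
  · have hex : ∃ k ∈ Finset.univ, z k ≠ 0 := by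
      by_contra h0
      push Not at h0
      apply hc0
      rw [hcz]
      refine Finset.sum_eq_zero fun k hk => ?_
      rw [h0 k hk, H281R3.HT.ext, map_zero, mul_zero, smul_zero]
    obtain ⟨k, hk, hk0⟩ := hex
    exact Finset.sum_pos' (fun b _ => mul_nonneg (inv_nonneg.2 (hw b).le) (hq0 b))
      ⟨k, hk, mul_pos (inv_pos.2 (hw k)) (hq1 k hk0)⟩
  · rw [hcz, map_sum (bf W (A.prod B) _ _), LinearMap.sum_apply, Rat.cast_sum]
    refine Finset.sum_congr rfl fun k _ => ?_
    rw [map_sum, Finset.sum_eq_single k]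
    · rw [map_smul, map_smul, LinearMap.smul_apply, F.fr.bf_ext G.fr, horth, if_pos rfl, hq2,
        smul_eq_mul, smul_eq_mul]
      push_cast
      rw [← mul_assoc, ← mul_assoc, inv_mul_cancel_right₀ (hw' k)]
    · intro l _ hl
      rw [map_smul, map_smul, LinearMap.smul_apply, F.fr.bf_ext G.fr, horth,
        if_neg (Ne.symm hl), zero_mul, smul_zero, smul_zero]
    · intro h
      exact absurd (Finset.mem_univ _) h

/-- The conjecture D in terms of sums of algebraic classes. -/
theorem homEqNum_iff : HomEqNum W X ↔ ∀ c, W552.AS W X c →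
    (∀ w, W552.AS W X w → W.tr X (c * w) = 0) → c = 0 := by
  constructor
  · intro h c hc hnum
    rw [Fr.AS_sum hc]
    refine Finset.sum_eq_zero fun j hj => ?_
    have hj' : j ≤ X.dim := by
      have := Finset.mem_range.1 hj
      omega
    obtain ⟨z, hz, hz'⟩ := hc.proj j
    rw [← hz']
    refine h j hj' z hz fun w hw => ?_
    have h1 := hnum (W.cl X w) (W552.AS.of ⟨w, hw, rfl⟩)
    have h2 : W.tr X (c * W.cl X w) = W.tr X (W.cl X z * W.cl X w) := by
      conv_lhs => rw [Fr.AS_sum hc, Finset.sum_mul, map_sum]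
      rw [Finset.sum_eq_single j, hz']
      · intro i hi hij
        exact W.tr_eq_zero (W.mul_mem (proj_mem _ _ _) (W.cl_mem hw)) (by omega)
      · intro h0
        exact absurd hj h0
    rw [h2, ← W.cl_mul, W.tr_cl] at h1
    · exact_mod_cast h1
    · have := ops.mul_mem hz hw
      rwa [Nat.add_sub_cancel' hj'] at this
  · intro h j hj z hz hnum
    refine h _ (W552.AS.of ⟨z, hz, rfl⟩) fun w hw => ?_
    refine W552.AS.ind (p := fun w => W.tr X (W.cl X z * w) = 0) ?_ ?_ hw
    · rintro i _ ⟨w, hw, rfl⟩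
      by_cases hi : j + i = X.dim
      · rw [← W.cl_mul, W.tr_cl (hi ▸ ops.mul_mem hz hw), hnum w (by
          rwa [show X.dim - j = i by omega])]
        simp
      · exact W.tr_eq_zero (W.mul_mem (W.cl_mem hz) (W.cl_mem hw)) (by omega)
    · intro a b ha hb
      rw [mul_add, map_add, ha, hb, add_zero]

/-- **The conjecture D for a product.** -/
theorem homEqNum_prod {D : A.Cycles} {f : Module.End W.K (W.H A)} (F : Fp W A D f)
    (hspan : ∀ c, W552.AS W (A.prod B) c → c ∈ LSpan W A B) (hB : HomEqNum W B) :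
    HomEqNum W (A.prod B) := by
  obtain ⟨N, e, w, he, hw, horth, hexp⟩ := F.exists_onb
  rw [homEqNum_iff] at hB ⊢
  intro c hc hnum
  rw [lspan_expand F he hexp (hspan c hc)]
  refine Finset.sum_eq_zero fun k _ => ?_
  have h1 : cn (st W A D f (e k)) c = 0 := by
    refine hB _ (cn_AS (F.fr.st_AS (he k)) hc) fun w hw => ?_
    have h2 := ((F.fr.st_AS (he k)).map (fst A B)).comm c
    rw [tr_cn, h2, mul_assoc]
    exact hnum _ (((F.fr.st_AS (he k)).map _).mul (hw.map _))
  rw [h1, map_zero, mul_zero, smul_zero]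

end Pool.Agent.TH125.Gal
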