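import Pool.Agent.TH125.Gal.Nst
import Pool.Agent.TH125.Gal.Pub2

/-!
# The standard conjectures for towers of products with powers
-/

open CategoryTheory AlgebraicGeometry Finset

set_option linter.unusedSectionVars false

universe u v w

namespace Pool.Agent.TH125.Gal

open Pool.Agent.H914 Pool.Agent.H914.VarClass Pool.Agent.H914.VarClass.Obj
  Pool.Agent.H914.WeilCohomology Pool.Agent.H281R3.HT Pool.Agent.W552 Pool.Agent.H447

variable {k : Type u} [Field k] {𝒱 : VarClass k} {ops : CycleOps 𝒱}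
  {W : WeilCohomology.{u, v} ops} {Γ : Type w} [Group Γ] {χ : Γ →* W.Kˣ} {G : Set (GVar W Γ)}

/-- products in the class -/
theorem GaloisClass.prod' (hG : GaloisClass χ G) {A : GVar W Γ} (hA : A ∈ G) {B : GVar W Γ}
    (hB : B ∈ G) : ∃ υ : Γ →* (W.H (A.X.prod B.X) ≃ₐ[W.K] W.H (A.X.prod B.X)),
    Intertwines (W.map (fst A.X B.X)) A.act υ ∧ Intertwines (W.map (snd A.X B.X)) B.act υ ∧
      (⟨A.X.prod B.X, υ⟩ : GVar W Γ) ∈ G := by
  obtain ⟨C, hC, h⟩ := hG.prod A hA B hB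
  obtain ⟨υ, h1, h2⟩ := h
  exact ⟨υ, h1, h2, hC⟩

/-- the action on powers -/
theorem exists_nest_act (hG : GaloisClass χ G) {A : GVar W Γ} (hA : A ∈ G) (D : A.X.Cycles)
    (n : ℕ) : ∃ ν : Γ →* (W.H (nest ops n fun _ => ⟨A.X, D⟩).X ≃ₐ[W.K]
        W.H (nest ops n fun _ => ⟨A.X, D⟩).X),
      (⟨(nest ops n fun _ => ⟨A.X, D⟩).X, ν⟩ : GVar W Γ) ∈ G ∧
      ∀ p : Fin (n + 1), Intertwines (W.map (prj ops n (fun _ => ⟨A.X, D⟩) p)) A.act ν := by
  induction n with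
  | zero =>
    refine ⟨A.act, hA, fun p g a => ?_⟩
    obtain rfl : p = 0 := Fin.eq_zero p
    have h1 : ∀ a, W.map (prj ops 0 (fun _ => (⟨A.X, D⟩ : Polarized 𝒱)) 0) a = a :=
      fun a => W.map_id A.X a
    exact (congrArg (A.act g) (h1 a)).trans (h1 (A.act g a)).symm
  | succ n ih =>
    obtain ⟨ν, hν, hν'⟩ := ih
    obtain ⟨υ, h1, h2, h3⟩ := hG.prod' hA hν
    refine ⟨υ, h3, fun p => ?_⟩
    refine Fin.cases ?_ (fun i => ?_) p
    · exact h1
    · intro g a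
      have h4 : ∀ a, W.map (prj ops (n + 1) (fun _ => (⟨A.X, D⟩ : Polarized 𝒱)) i.succ) a =
          W.map (snd A.X (nest ops n fun _ => ⟨A.X, D⟩).X)
            (W.map (prj ops n (fun _ => (⟨A.X, D⟩ : Polarized 𝒱)) i) a) :=
        fun a => W.map_comp _ _ a
      have h5 := h2 g (W.map (prj ops n (fun _ => (⟨A.X, D⟩ : Polarized 𝒱)) i) a)
      rw [hν' i g a] at h5
      exact (congrArg (υ g) (h4 a)).trans (h5.trans (h4 (A.act g a)).symm)

/-- the action on products with powers -/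
theorem exists_pow_act (hG : GaloisClass χ G) {A B : GVar W Γ} (hA : A ∈ G) (hB : B ∈ G)
    (D : A.X.Cycles) (n : ℕ) :
    ∃ υ : Γ →* (W.H ((nest ops n fun _ => ⟨A.X, D⟩).X.prod B.X) ≃ₐ[W.K]
        W.H ((nest ops n fun _ => ⟨A.X, D⟩).X.prod B.X)),
      (⟨(nest ops n fun _ => ⟨A.X, D⟩).X.prod B.X, υ⟩ : GVar W Γ) ∈ G ∧
      IsPowAct W ⟨A.X, D⟩ n B.X A.act B.act υ := by
  obtain ⟨ν, hν, hν'⟩ := exists_nest_act hG hA D n
  obtain ⟨υ, h1, h2, h3⟩ := hG.prod' hν hB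
  refine ⟨υ, h3, fun g => ⟨fun p a => ?_, fun b => h2 g b⟩⟩
  have h4 := h1 g (W.map (prj ops n (fun _ => (⟨A.X, D⟩ : Polarized 𝒱)) p) a)
  rw [hν' p g a] at h4
  exact h4

/-- The conditions on the polarized variety `A` relative to `B`. -/
structure Nodal (χ : Γ →* W.Kˣ) (A : GVar W Γ) (D : A.X.Cycles) (B : GVar W Γ) (n : ℕ) :
    Prop where
  pol : IsPolarization W A.X D
  middle : transcendental W A.X ≤ W.gr A.X A.X.dim
  irred : IrredAct A.act (transcendental W A.X)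
  node : ∃ g : Γ, PLAct (W.tr A.X) (transcendental W A.X) A.act g ∧ χ g = 1 ∧ TrivAct B.act g
  few : Even A.X.dim → FewRoots W.K ∧ n + 1 < transRank W A.X

section

variable {A B : GVar W Γ} {D : A.X.Cycles} {n : ℕ}

/-- **The algebraic classes on a product.** -/
theorem Nodal.mem_Tgt (hG : GaloisClass χ G) (hA : A ∈ G) (hB : B ∈ G)
    (h : Nodal χ A D B n) (hDX : HomEqNum W A.X) (s : SB W A.X) {m : ℕ} (hm : m ≤ n)
    {c : W.H ((nest ops m fun _ => ⟨A.X, D⟩).X.prod B.X)} (hc : W552.AS W _ c) :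
    c ∈ Tgt (P := ⟨A.X, D⟩) s m B.X := by
  obtain ⟨υ, hυ, hP⟩ := exists_pow_act hG hA hB D m
  obtain ⟨b, hb⟩ := exists_monoBasis (ops := ops) (⟨A.X, D⟩ : Polarized 𝒱) s.e m
  obtain ⟨g, hPL, hχ, hg⟩ := h.node
  have hgal := (hG.galois _ hυ)
  refine W552.AS.ind (p := fun c => c ∈ Tgt (P := ⟨A.X, D⟩) s m B.X) ?_ ?_ hc
  · intro j c hc
    obtain ⟨Δ, hΔ, h1⟩ := hgal.cl_fix j c hc
    refine Gal.mem_Tgt (P := ⟨A.X, D⟩) hb hDX h.middle (isGalois (hG.galois A hA)) hP h.irred hχ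
      (trivAct.1 hg) hPL (fun h' => ?_) hΔ h1
    have h2 := h.few h'
    refine ⟨h2.1, lt_of_le_of_lt ?_ h2.2⟩
    omega
  · intro x y hx hy
    exact Submodule.add_mem _ hx hy

theorem tgt_lspan {s : SB W A.X} (hDX : HomEqNum W A.X)
    (hmid : transcendental W A.X ≤ W.gr A.X A.X.dim) {Z : 𝒱.Obj}
    {c : W.H ((nest ops n fun _ => ⟨A.X, D⟩).X.prod Z)} (hc : c ∈ Tgt (P := ⟨A.X, D⟩) s n Z) :
    c ∈ LSpan W (nest ops n fun _ => ⟨A.X, D⟩).X Z := by
  refine Submodule.span_mono ?_ hc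
  rintro c ⟨S, i, m, w, hm, rfl⟩
  exact ⟨m, hm.alg hDX hmid, w, rfl⟩

theorem Nodal.one_ne (h : Nodal χ A D B n) : (1 : W.H A.X) ≠ 0 := by
  obtain ⟨g, ⟨δ, hδ, hδ0, _⟩, _⟩ := h.node
  intro h3
  apply hδ0
  rw [← one_mul δ, h3, zero_mul]

theorem Nodal.homEqNum (h : Nodal χ A D B n) : HomEqNum W A.X := by
  obtain ⟨f, F, _⟩ := exists_Fp h.pol.div h.pol.hard h.pol.lefschetz h.pol.hodge
  exact F.hodge.2

/-- positivity on the powers -/
theorem Nodal.fp_nest (hG : GaloisClass χ G) (hA : A ∈ G) (hB : B ∈ G)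
    (h : Nodal χ A D B n) (hB1 : (1 : W.H B.X) ≠ 0) :
    ∃ g, Fp W (nest ops n fun _ => ⟨A.X, D⟩).X (nest ops n fun _ => ⟨A.X, D⟩).D g := by
  obtain ⟨f, F, hls⟩ := exists_Fp h.pol.div h.pol.hard h.pol.lefschetz h.pol.hodge
  obtain ⟨s⟩ := exists_SB h.homEqNum
  have key : ∀ m ≤ n, ∀ c, W552.AS W (nest ops m fun _ => ⟨A.X, D⟩).X c → c ∈
      Submodule.span W.K {c | ∃ S i, Mq s (prj ops m fun _ => ⟨A.X, D⟩) S i c} := by
    intro m hm c hc
    exact mq_of_fst (P := ⟨A.X, D⟩) hB1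
      (h.mem_Tgt hG hA hB h.homEqNum s hm (hc.map (fst _ B.X)))
  exact Gal.fp_nest (P := ⟨A.X, D⟩) F hls h.pol.hard h.pol.lefschetz h.homEqNum h.middle s h.one_ne
    n (fun hn => key 1 hn) (key n le_rfl)

/-- **The conjecture D for products with powers.** -/
theorem Nodal.homEqNum_prod (hG : GaloisClass χ G) (hA : A ∈ G) (hB : B ∈ G)
    (h : Nodal χ A D B n) (hDB : HomEqNum W B.X) :
    HomEqNum W ((nest ops n fun _ => ⟨A.X, D⟩).X.prod B.X) := by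
  by_cases hB1 : (1 : W.H B.X) = 0
  · intro j _ z _ _
    rw [← one_mul (W.cl _ z), ← map_one (W.map (snd _ B.X)), hB1, map_zero, zero_mul]
  · obtain ⟨g, F⟩ := h.fp_nest hG hA hB hB1
    obtain ⟨s⟩ := exists_SB h.homEqNum
    exact Gal.homEqNum_prod F (fun c hc => tgt_lspan h.homEqNum h.middle
      (h.mem_Tgt hG hA hB h.homEqNum s le_rfl hc)) hDB

/-- **Positivity for products with powers.** -/
theorem Nodal.fp_prod (hG : GaloisClass χ G) (hA : A ∈ G) (hB : B ∈ G)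
    (h : Nodal χ A D B n) {E : B.X.Cycles} (hE : ∃ g, Fp W B.X E g) :
    ∃ g, Fp W ((nest ops n fun _ => ⟨A.X, D⟩).prod ops ⟨B.X, E⟩).X
      ((nest ops n fun _ => ⟨A.X, D⟩).prod ops ⟨B.X, E⟩).D g := by
  obtain ⟨g', F'⟩ := hE
  by_cases hB1 : (1 : W.H B.X) = 0
  · obtain ⟨f, F, hls⟩ := exists_Fp h.pol.div h.pol.hard h.pol.lefschetz h.pol.hodge
    obtain ⟨g, l, hFg, hSg, -⟩ := exists_nest (ops := ops) n (fun _ => (⟨A.X, D⟩ : Polarized 𝒱))
      (fun _ => f) (fun _ => F.fr) (fun _ => F.sy) (fun _ => (exists_HB W A.X).some)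
    refine ⟨_, hFg.prod F'.fr, hSg.prod hFg F'.fr F'.sy, fun x _ hx0 => absurd ?_ hx0⟩
    have h1 : (1 : W.H ((nest ops n fun _ => (⟨A.X, D⟩ : Polarized 𝒱)).X.prod B.X)) = 0 := by
      rw [← map_one (W.map (snd _ B.X)), hB1, map_zero]
    exact (one_mul x).symm.trans ((congrArg (· * x) h1).trans (zero_mul x))
  · obtain ⟨g, F⟩ := h.fp_nest hG hA hB hB1
    obtain ⟨s⟩ := exists_SB h.homEqNum
    exact ⟨_, F.prod F' (fun c hc => tgt_lspan h.homEqNum h.middle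
      (h.mem_Tgt hG hA hB h.homEqNum s le_rfl hc))⟩

/-- The conjecture D for a product implies the conjecture for the factors. -/
theorem homEqNum_factor {A B : 𝒱.Obj} {a : W.H A} (ha : W.tr A a ≠ 0)
    (h : HomEqNum W (A.prod B)) : HomEqNum W B := by
  rw [homEqNum_iff] at h ⊢
  intro c hc hnum
  have h1 : W.map (snd A B) c = 0 := by
    refine h _ (hc.map _) fun w hw => ?_
    rw [(hc.map (snd A B)).comm, ← W.tr_push, ← (hc.comm (W.push (snd A B) w))]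
    exact hnum _ (hw.push _)
  have h2 : W.push (snd A B) (W.map (fst A B) a * W.map (snd A B) c) = 0 := by
    rw [h1, mul_zero, map_zero]
  rw [W.push_snd] at h2
  exact (smul_eq_zero.1 h2).resolve_left ha

theorem exists_tr {X : 𝒱.Obj} (h1 : (1 : W.H X) ≠ 0) : ∃ a, W.tr X a ≠ 0 := by
  by_contra hcon
  push Not at hcon
  exact h1 (W.nondeg _ fun b => hcon _)

end

end Pool.Agent.TH125.Gal
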