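import Pool.Agent.W552.Defs
import Pool.Agent.H914R2.DDefs

/-!
# Galois actions on Weil cohomology and towers of products: definitions
-/

open CategoryTheory AlgebraicGeometry

universe u v w

namespace Pool.Agent.TH125.Gal

section Alg

variable {K : Type*} [Field K] {A : Type*} [Ring A] [Algebra K A] {B : Type*} [Ring B]
  [Algebra K B] {Γ : Type*} [Group Γ]

/-- The formal properties of the action `ρ` of a Galois group `Γ` on the cohomology algebra `A` of a
variety of dimension `n`: it respects the subspaces `gr i`, an element `g` multiplies the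
orientation `tr` by `χ g ^ n` (`χ` is a character of `Γ`, the action on the Tate twists) and maps
an element `c` of the set `C j` (the classes of cycles of codimension `j`) to the product of
`χ g ^ j` with another element of `C j`, which is `c` itself for all `g` in a subgroup of finite
index. -/
structure IsGaloisAct (χ : Γ →* Kˣ) (gr : ℕ → Submodule K A) (n : ℕ) (tr : A →ₗ[K] K)
    (C : ℕ → Set A) (ρ : Γ →* (A ≃ₐ[K] A)) : Prop where
  gr_mem : ∀ g i, ∀ a ∈ gr i, ρ g a ∈ gr i
  tr_act : ∀ g a, tr (ρ g a) = (χ g : K) ^ n * tr a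
  cl_act : ∀ g j, ∀ c ∈ C j, ∃ c' ∈ C j, ρ g c = (χ g : K) ^ j • c'
  cl_fix : ∀ j, ∀ c ∈ C j, ∃ Δ : Subgroup Γ, Δ.FiniteIndex ∧ ∀ g ∈ Δ, ρ g c = (χ g : K) ^ j • c

/-- All elements `c` of `gr (2 * j)` such that `ρ g c = χ g ^ j • c` for all `g` in a subgroup of
finite index are linear combinations of elements of `C j`, for all `j`. -/
def TateAct (χ : Γ →* Kˣ) (gr : ℕ → Submodule K A) (C : ℕ → Set A) (ρ : Γ →* (A ≃ₐ[K] A)) :
    Prop :=
  ∀ j, ∀ c ∈ gr (2 * j), (∃ Δ : Subgroup Γ, Δ.FiniteIndex ∧
    ∀ g ∈ Δ, ρ g c = (χ g : K) ^ j • c) → c ∈ Submodule.span K (C j)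

/-- Every subspace of `T` which is stable under a subgroup of finite index is `0` or `T`. -/
def IrredAct (ρ : Γ →* (A ≃ₐ[K] A)) (T : Submodule K A) : Prop :=
  ∀ Δ : Subgroup Γ, Δ.FiniteIndex → ∀ U ≤ T, (∀ g ∈ Δ, ∀ a ∈ U, ρ g a ∈ U) → U = ⊥ ∨ U = T

/-- `g` acts on `T` by the Picard-Lefschetz formula `t ↦ t + c tr(δ t) δ`, where `c` and `δ ∈ T` are
not zero. -/
def PLAct (tr : A →ₗ[K] K) (T : Submodule K A) (ρ : Γ →* (A ≃ₐ[K] A)) (g : Γ) : Prop :=
  ∃ δ ∈ T, δ ≠ 0 ∧ ∃ c : K, c ≠ 0 ∧ ∀ t ∈ T, ρ g t = t + (c * tr (δ * t)) • δ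

/-- `g` acts trivially. -/
def TrivAct (ρ : Γ →* (A ≃ₐ[K] A)) (g : Γ) : Prop := ∀ a, ρ g a = a

/-- The homomorphism `f` is equivariant. -/
def Intertwines (f : A →ₐ[K] B) (ρ : Γ →* (A ≃ₐ[K] A)) (υ : Γ →* (B ≃ₐ[K] B)) : Prop :=
  ∀ g a, υ g (f a) = f (ρ g a)

end Alg

open Pool.Agent.H914 Pool.Agent.H914.VarClass Pool.Agent.H914.VarClass.Obj
  Pool.Agent.H914.WeilCohomology Pool.Agent.H281R3.HT Pool.Agent.W552

variable {k : Type u} [Field k] {𝒱 : VarClass k} {ops : CycleOps 𝒱}

/-- A variety with an action of the group `Γ` on its cohomology algebra. -/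
structure GVar (W : WeilCohomology.{u, v} ops) (Γ : Type w) [Group Γ] where
  /-- the variety -/
  X : 𝒱.Obj
  /-- the action -/
  act : Γ →* (W.H X ≃ₐ[W.K] W.H X)

/-- The product `X × (X × ( ⋯ × X))` of `n + 1` copies of `X`. -/
noncomputable def power (ops : CycleOps 𝒱) (X : 𝒱.Obj) (n : ℕ) : 𝒱.Obj :=
  (nest ops n fun _ => ⟨X, 0⟩).X

/-- The projections of the product of copies of `X`. -/
noncomputable def powerPrj (ops : CycleOps 𝒱) (X : 𝒱.Obj) (n : ℕ) (p : Fin (n + 1)) :
    power ops X n ⟶ X :=
  prj ops n (fun _ => ⟨X, 0⟩) p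

variable {W : WeilCohomology.{u, v} ops} {Γ : Type w} [Group Γ]

/-- The dimension of the transcendental cohomology. -/
noncomputable def transRank (W : WeilCohomology.{u, v} ops) (X : 𝒱.Obj) : ℕ :=
  Module.finrank W.K (transcendental W X)

/-- `Y` is the product of `n + 1` copies of `X` and of `Z`, with an action on the cohomology which
is compatible with the projections to the factors. -/
inductive IsPowProd (X : GVar W Γ) (n : ℕ) (Z : GVar W Γ) : GVar W Γ → Prop
  | mk (υ : Γ →* (W.H ((power ops X.X n).prod Z.X) ≃ₐ[W.K] W.H ((power ops X.X n).prod Z.X))) :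
      (∀ p, Intertwines (W.map (fst (power ops X.X n) Z.X ≫ powerPrj ops X.X n p)) X.act υ) →
      Intertwines (W.map (snd (power ops X.X n) Z.X)) Z.act υ →
      IsPowProd X n Z ⟨(power ops X.X n).prod Z.X, υ⟩

/-- The varieties `Y = X_1^(n_1) × (X_2^(n_2) × ( ⋯ × Z))`, where the `X_i` are pairwise different
members of the family `X` (`S` is the set of the indices which are used), where `n_i` is less than
the dimension of the transcendental cohomology of `X_i` if the dimension of `X_i` is even. -/
inductive GTower {ι : Type} (X : ι → GVar W Γ) (Z : GVar W Γ) : Set ι → GVar W Γ → Prop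
  | base : GTower X Z ∅ Z
  | step {S Y Y'} (i : ι) (n : ℕ) : GTower X Z S Y → i ∉ S →
      (Even (X i).X.dim → n + 1 < transRank W (X i).X) → IsPowProd (X i) n Y Y' →
      GTower X Z (insert i S) Y'

/-- The field `K` contains only finitely many elements of the form `ζ + ζ⁻¹`, where `ζ` is a root
of unity in an algebraic closure of `K` (for instance, `K` is a number field or a finite extension
of `ℚ_ℓ`). -/
def FewRoots (K : Type u) [Field K] : Prop :=
  {y : K | ∃ ζ : AlgebraicClosure K, (∃ m ≥ 1, ζ ^ m = 1) ∧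
    algebraMap K (AlgebraicClosure K) y = ζ + ζ⁻¹}.Finite

/-- `Γ` acts on the cohomology of the varieties `X i` like a Galois group; their transcendental
cohomology is in the middle degree and irreducible under all subgroups of finite index; numerical
and homological equivalence coincide for them; for every `i` there is an element of `Γ` which acts
on the transcendental cohomology of `X i` by a Picard-Lefschetz formula and trivially on the
cohomology of `Z` and of the other `X j` and by `χ`; if some `X i` has even dimension the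
coefficient field contains only finitely many `ζ + ζ⁻¹`, `ζ` a root of unity. -/
structure NodalFamily (χ : Γ →* W.Kˣ) {ι : Type} (X : ι → GVar W Γ) (Z : GVar W Γ) : Prop where
  galois : ∀ i, IsGaloisAct χ (W.gr (X i).X) (X i).X.dim (W.tr (X i).X)
    (algClasses W (X i).X) (X i).act
  homEqNum : ∀ i, HomEqNum W (X i).X
  middle : ∀ i, transcendental W (X i).X ≤ W.gr (X i).X (X i).X.dim
  irreducible : ∀ i, IrredAct (X i).act (transcendental W (X i).X)
  node : ∀ i, ∃ g : Γ, PLAct (W.tr (X i).X) (transcendental W (X i).X) (X i).act g ∧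
    χ g = 1 ∧ TrivAct Z.act g ∧ ∀ j, j ≠ i → TrivAct (X j).act g
  few : (∃ i, Even (X i).X.dim) → FewRoots W.K

/-- The Tate conjecture for `X`: for all `j`, every class in `H^(2j)(X)` which is multiplied by
`χ g ^ j` by all `g` in a subgroup of finite index is a linear combination of classes of algebraic
cycles of codimension `j`. -/
def TateConjecture (χ : Γ →* W.Kˣ) (X : GVar W Γ) : Prop :=
  TateAct χ (W.gr X.X) (algClasses W X.X) X.act

end Pool.Agent.TH125.Gal
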