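import Pool.Agent.TH125.Gal.Chev
import Pool.Agent.TH125.Nod.Fft2

/-!
# Equivariant multilinear maps: the conclusion for one block
-/

open Finset Function

set_option linter.unusedSectionVars false

namespace Pool.Agent.TH125.Gal

universe u v w x

variable {K : Type u} [Field K] [CharZero K] {T : Type v} [AddCommGroup T] [Module K T]
  {E : Type w} [AddCommGroup E] [Module K E] {S : Type} [Fintype S] [DecidableEq S]
  {G : Type x} [Group G] {B : T →ₗ[K] T →ₗ[K] K} {ρ : G →* (T →ₗ[K] T)} {σ : G →* (E →ₗ[K] E)}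

/-- All the operators of the form are in the Lie algebra. -/
theorem all_mem [Module.Finite K T] {s : ℤ} (hs : s = 1 ∨ s = -1)
    (hsy : ∀ x y, B x y = (s : K) * B y x) (hnd : ∀ x, (∀ y, B x y = 0) → x = 0) {μ : G → K}
    (hμ : ∀ g, μ g ≠ 0) (hB : ∀ g x y, B (ρ g x) (ρ g y) = μ g * B x y) (hSI : SI ρ) {g : G}
    {δ : T} {c : K} (hδ : δ ≠ 0) (hc : c ≠ 0) (hg : ∀ x, ρ g x = x + (c * B δ x) • δ)
    (hμg : μ g = 1) (hσ : σ g = 1) (hK : s = 1 → FewRoots K ∧ 2 ≤ Module.finrank K T) (u v : T) :
    rk B v u - (s : K) • rk B u v ∈ LL S B ρ σ := by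
  rcases hs with rfl | rfl
  · -- symmetric
    have hsy' : ∀ x y, B x y = B y x := fun x y => by rw [hsy, Int.cast_one, one_mul]
    obtain ⟨x, hx⟩ : ∃ x, B δ x ≠ 0 := by
      by_contra hcon
      push Not at hcon
      exact hδ (hnd δ hcon)
    have h1 := hB g x x
    rw [hμg, one_mul, hg] at h1
    simp only [map_add, map_smul, LinearMap.add_apply, LinearMap.smul_apply, smul_eq_mul] at h1
    rw [hsy' x δ] at h1
    have h2 : (c * B δ x * B δ x) * (2 + c * B δ δ) = 0 := by linear_combination h1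
    have h3 : 2 + c * B δ δ = 0 :=
      (mul_eq_zero.1 h2).resolve_left (mul_ne_zero (mul_ne_zero hc hx) hx)
    have hq : B δ δ ≠ 0 := by
      intro h
      rw [h, mul_zero, add_zero] at h3
      exact two_ne_zero h3
    have hg' : ∀ x, ρ g x = refl B δ x := by
      intro x
      rw [hg, refl_apply]
      have h4 : c = -(2 / B δ δ) := by
        field_simp
        linear_combination h3
      rw [h4]
      module
    obtain ⟨hK, hdim⟩ := hK rfl
    obtain ⟨γ, hγ⟩ := exists_gamma hsy' hnd hμ hB hq hg' hSI hK hdim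
    have h4 := even_mem (S := S) (σ := σ) hsy' hμ hB hq hg' hσ hγ
    have h5 : ∀ c : K, ρ γ δ ≠ c • δ := by
      intro c hc
      have hc0 : c ≠ 0 := by
        rintro rfl
        have h6 := hB γ δ δ
        rw [hc, zero_smul, map_zero] at h6
        exact mul_ne_zero (hμ γ) hq h6.symm
      obtain ⟨x, hx⟩ := hγ 1 le_rfl
      apply hx
      rw [pow_one, rho_mul_apply, conj_refl (ρ := ρ) hμ hB hg' γ, hg', hc, refl_smul hc0,
        refl_refl hq]
    have h6 := even_full hsy' hμ hB hq hg' hSI h4 h5 u v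
    rw [wg] at h6
    rw [Int.cast_one, one_smul]
    exact h6
  · have hsy' : ∀ x y, B x y = -B y x := fun x y => by
      rw [hsy, Int.cast_neg, Int.cast_one, neg_one_mul]
    have h1 := odd_mem (S := S) (σ := σ) hsy' hc hg hσ
    have h2 := odd_full hsy' hnd hμ hB hSI hδ h1 v u
    rw [ss] at h2
    rw [Int.cast_neg, Int.cast_one, neg_one_smul, sub_neg_eq_add]
    exact h2

open Pool.Agent.TH125.Nod in
/-- **Equivariant multilinear maps in a basis.** -/
theorem gen_mem [Module.Finite K T] {s : ℤ} (hs : s = 1 ∨ s = -1)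
    (hsy : ∀ x y, B x y = (s : K) * B y x) (hnd : ∀ x, (∀ y, B x y = 0) → x = 0) {μ : G → K}
    (hμ : ∀ g, μ g ≠ 0) (hB : ∀ g x y, B (ρ g x) (ρ g y) = μ g * B x y) (hSI : SI ρ) {g : G}
    {δ : T} {c : K} (hδ : δ ≠ 0) (hc : c ≠ 0) (hg : ∀ x, ρ g x = x + (c * B δ x) • δ)
    (hμg : μ g = 1) (hσ : σ g = 1) (hK : s = 1 → FewRoots K ∧ 2 ≤ Module.finrank K T)
    {h : MultilinearMap K (fun _ : S => T) E} (hh : Eqv ρ σ h) {J : Type} [Fintype J]
    [DecidableEq J] (t : Module.Basis J K T) (hcard : s = 1 → Fintype.card S < Fintype.card J) :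
    (fun r : S → J => h fun j => t (r j)) ∈ Gen (fun _ : J => ())
      (Matrix.of fun i j => B (t i) (t j)) (fun _ : S => ()) := by
  -- the inverse of the Gram matrix
  have hBnd : LinearMap.BilinForm.Nondegenerate (LinearMap.flip B) := by
    refine ⟨fun x hx => hnd x fun y => ?_, fun x hx => hnd x fun y => hx y⟩
    rw [hsy, show B y x = 0 from hx y, mul_zero]
  obtain ⟨R, hR⟩ : ∃ R : Matrix J J K, (Matrix.of fun i j => B (t i) (t j)) * R = 1 := by
    refine ⟨Matrix.of fun j k =>
      t.repr (LinearMap.BilinForm.dualBasis (LinearMap.flip B) hBnd t k) j, ?_⟩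
    ext i k
    rw [Matrix.mul_apply, Matrix.one_apply]
    simp only [Matrix.of_apply]
    have h1 := LinearMap.BilinForm.apply_dualBasis_left (B := LinearMap.flip B) hBnd t k i
    rw [LinearMap.flip_apply] at h1
    rw [← h1]
    conv_rhs => rw [← t.sum_repr (LinearMap.BilinForm.dualBasis (LinearMap.flip B) hBnd t k)]
    rw [map_sum]
    refine Finset.sum_congr rfl fun j _ => ?_
    rw [map_smul, smul_eq_mul, mul_comm]
  refine fft (s := fun _ => s) (fun _ => hs) (fun a b hab => absurd rfl hab) (fun a b => hsy _ _)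
    hR (Fintype.card S) S (fun _ => ()) _ rfl (fun r hr => absurd (fun _ => rfl) hr) ?_ ?_
  · intro u v _ r
    have h1 := (all_mem (S := S) (σ := σ) hs hsy hnd hμ hB hSI hδ hc hg hμg hσ hK (t u) (t v)).2
      h hh (fun j => t (r j))
    rw [← h1]
    refine Finset.sum_congr rfl fun j _ => ?_
    have e1 : (rk B (t v) (t u) - (s : K) • rk B (t u) (t v)) (t (r j)) =
        B (t v) (t (r j)) • t u - ((s : K) * B (t u) (t (r j))) • t v := by
      rw [LinearMap.sub_apply, LinearMap.smul_apply, rk_apply, rk_apply, smul_smul]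
    rw [e1, MultilinearMap.map_update_sub, MultilinearMap.map_update_smul,
      MultilinearMap.map_update_smul]
    have e2 : ∀ a, (fun i => t (update r j a i)) = update (fun i => t (r i)) j (t a) := by
      intro a
      funext i
      by_cases hi : i = j
      · subst hi
        rw [update_self, update_self]
      · rw [update_of_ne hi, update_of_ne hi]
    change B (t v) (t (r j)) • h (fun i => t (update r j u i)) -
      ((s : K) * B (t u) (t (r j))) • h (fun i => t (update r j v i)) = _
    rw [e2, e2]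
  · intro _ hs1
    have h1 := hcard hs1
    refine lt_of_le_of_lt (Finset.card_le_univ _) (lt_of_lt_of_eq h1 ?_)
    rw [blk, Finset.filter_true_of_mem (fun _ _ => rfl), Finset.card_univ]

end Pool.Agent.TH125.Gal
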