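import Pool.Agent.TH125.Gal.Final
import Pool.Agent.TH125.Gal.Pub

/-!
# Existence of two reflections generating an infinite group
-/

open Finset Function

set_option linter.unusedSectionVars false

namespace Pool.Agent.TH125.Gal

universe u v w x

variable {K : Type u} [Field K] [CharZero K] {T : Type v} [AddCommGroup T] [Module K T]
  {G : Type x} [Group G] {B : T →ₗ[K] T →ₗ[K] K} {ρ : G →* (T →ₗ[K] T)}

/-- powers of an operator satisfying a quadratic equation -/
theorem pow_quad {t : T →ₗ[K] T} {y : K} {e : T} (ht : t (t e) = y • t e - e) :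
    ∃ U V : ℕ → K, (∀ m, (t ^ m) e = U m • t e - V m • e) ∧
      ∀ ζ : AlgebraicClosure K, ζ * ζ = algebraMap K (AlgebraicClosure K) y * ζ - 1 →
        ∀ m, ζ ^ m = algebraMap K (AlgebraicClosure K) (U m) * ζ -
          algebraMap K (AlgebraicClosure K) (V m) := by
  let f : ℕ → K × K := fun m => Nat.rec (0, -1) (fun _ p => (y * p.1 - p.2, p.1)) m
  have hf : ∀ m, f (m + 1) = (y * (f m).1 - (f m).2, (f m).1) := fun m => rfl
  refine ⟨fun m => (f m).1, fun m => (f m).2, fun m => ?_, fun ζ hζ m => ?_⟩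
  · induction m with
    | zero =>
      show e = (0 : K) • t e - (-1 : K) • e
      module
    | succ m ih =>
      beta_reduce at ih ⊢
      rw [pow_succ', Module.End.mul_apply, ih, map_sub, map_smul, map_smul, ht, hf]
      module
  · induction m with
    | zero =>
      show ζ ^ 0 = algebraMap K _ (0 : K) * ζ - algebraMap K _ (-1 : K)
      rw [pow_zero, map_zero, map_neg, map_one]
      ring
    | succ m ih =>
      beta_reduce at ih ⊢
      rw [pow_succ', ih, hf]
      simp only [map_sub, map_mul]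
      linear_combination (algebraMap K (AlgebraicClosure K) (f m).1) * hζ

theorem few_of_pow {t : T →ₗ[K] T} {y : K} {e : T} (ht : t (t e) = y • t e - e)
    (hli : ∀ c : K, t e ≠ c • e) (he : e ≠ 0) {m : ℕ} (hm : 1 ≤ m) (htm : (t ^ m) e = e) :
    y ∈ {y : K | ∃ ζ : AlgebraicClosure K, (∃ m ≥ 1, ζ ^ m = 1) ∧
      algebraMap K (AlgebraicClosure K) y = ζ + ζ⁻¹} := by
  obtain ⟨U, V, h1, h2⟩ := pow_quad ht
  have h3 := h1 m
  rw [htm] at h3
  have hU : U m = 0 := by
    by_contra hU
    apply hli ((U m)⁻¹ * (1 + V m))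
    have h4 : U m • t e = (1 + V m) • e := by
      have h5 : U m • t e = e + V m • e := by
        rw [eq_comm, sub_eq_iff_eq_add] at h3
        exact h3
      rw [h5]
      module
    rw [← smul_smul, ← h4, smul_smul, inv_mul_cancel₀ hU, one_smul]
  have hV : V m = -1 := by
    rw [hU, zero_smul, zero_sub] at h3
    have h4 : (1 + V m) • e = 0 := by
      rw [add_smul, one_smul]
      nth_rewrite 1 [h3]
      rw [neg_add_cancel]
    rcases smul_eq_zero.1 h4 with h | h
    · linear_combination h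
    · exact absurd h he
  obtain ⟨ζ, hζ⟩ := IsAlgClosed.exists_eval₂_eq_zero (algebraMap K (AlgebraicClosure K))
    (Polynomial.X ^ 2 - Polynomial.C y * Polynomial.X + 1 : Polynomial K) (by
      have h5 : (Polynomial.X ^ 2 - Polynomial.C y * Polynomial.X + 1 : Polynomial K).degree = 2 :=
        by compute_degree!
      rw [h5]
      decide)
  simp only [Polynomial.eval₂_add, Polynomial.eval₂_sub, Polynomial.eval₂_pow, Polynomial.eval₂_X,
    Polynomial.eval₂_mul, Polynomial.eval₂_C, Polynomial.eval₂_one] at hζ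
  have hζ' : ζ * ζ = algebraMap K (AlgebraicClosure K) y * ζ - 1 := by linear_combination hζ
  have hζ0 : ζ ≠ 0 := by
    rintro rfl
    rw [mul_zero, mul_zero, zero_sub] at hζ'
    exact one_ne_zero (neg_eq_zero.1 hζ'.symm)
  refine ⟨ζ, ⟨m, hm, ?_⟩, ?_⟩
  · rw [h2 ζ hζ' m, hU, hV, map_zero, map_neg, map_one]
    ring
  · have h5 : (ζ + ζ⁻¹) * ζ = algebraMap K (AlgebraicClosure K) y * ζ := by
      rw [add_mul, inv_mul_cancel₀ hζ0, hζ']
      ring
    exact (mul_right_cancel₀ hζ0 h5).symm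

theorem few_neg_two : (-2 : K) ∈ {y : K | ∃ ζ : AlgebraicClosure K, (∃ m ≥ 1, ζ ^ m = 1) ∧
      algebraMap K (AlgebraicClosure K) y = ζ + ζ⁻¹} := by
  refine ⟨-1, ⟨2, by norm_num, by norm_num⟩, ?_⟩
  rw [map_neg, map_ofNat]
  norm_num

theorem few_two : (2 : K) ∈ {y : K | ∃ ζ : AlgebraicClosure K, (∃ m ≥ 1, ζ ^ m = 1) ∧
      algebraMap K (AlgebraicClosure K) y = ζ + ζ⁻¹} := by
  refine ⟨1, ⟨1, le_refl 1, by norm_num⟩, ?_⟩
  rw [map_ofNat]
  norm_num

section

variable (hsy : ∀ x y, B x y = B y x) (hnd : ∀ x, (∀ y, B x y = 0) → x = 0) {μ : G → K}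
  (hμ : ∀ g, μ g ≠ 0)
  (hB : ∀ g x y, B (ρ g x) (ρ g y) = μ g * B x y) {g : G} {δ : T} (hq : B δ δ ≠ 0)
  (hg : ∀ x, ρ g x = refl B δ x)

include hsy hμ hB hq hg in
/-- the values of the form -/
theorem few_value {γ : G} {m : ℕ} (hm : 1 ≤ m) (h : ∀ x, ρ ((g * (γ * g * γ⁻¹)) ^ m) x = x) :
    4 * (B δ (ρ γ δ) * B δ (ρ γ δ)) / (B δ δ * B (ρ γ δ) (ρ γ δ)) - 2 ∈
      {y : K | ∃ ζ : AlgebraicClosure K, (∃ m ≥ 1, ζ ^ m = 1) ∧
      algebraMap K (AlgebraicClosure K) y = ζ + ζ⁻¹} := by
  set δ' := ρ γ δ with hδ'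
  have hδ0 : δ ≠ 0 := by
    rintro rfl
    rw [map_zero] at hq
    exact hq rfl
  have hq' : B δ' δ' ≠ 0 := by
    rw [hδ', hB]
    exact mul_ne_zero (hμ γ) hq
  have hg' := conj_refl (ρ := ρ) hμ hB hg γ
  have ht : ∀ x, ρ (g * (γ * g * γ⁻¹)) x = refl B δ (refl B δ' x) := by
    intro x
    rw [rho_mul_apply, hg', hg]
  by_cases hpar : ∃ c : K, δ' = c • δ
  · obtain ⟨c, hc⟩ := hpar
    have hc0 : c ≠ 0 := by
      rintro rfl
      rw [hc, zero_smul, map_zero] at hq'
      exact hq' rfl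
    have h1 : 4 * (B δ δ' * B δ δ') / (B δ δ * B δ' δ') - 2 = (2 : K) := by
      rw [hc]
      simp only [map_smul, LinearMap.smul_apply, smul_eq_mul]
      field_simp
      ring
    rw [h1]
    exact few_two
  by_cases hβ : B δ δ' = 0
  · have h1 : 4 * (B δ δ' * B δ δ') / (B δ δ * B δ' δ') - 2 = (-2 : K) := by
      rw [hβ]
      simp
    rw [h1]
    exact few_neg_two
  have h1 : ρ (g * (γ * g * γ⁻¹)) δ = (4 * (B δ δ' * B δ δ') / (B δ δ * B δ' δ') - 1) • δ -
      (2 * B δ δ' / B δ' δ') • δ' := by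
    rw [ht, refl_apply, refl_apply, map_sub, map_smul, hsy δ' δ]
    simp only [smul_eq_mul]
    have e1 : 2 / B δ δ * (B δ δ - 2 / B δ' δ' * B δ δ' * B δ δ') =
        2 - 4 * (B δ δ' * B δ δ') / (B δ δ * B δ' δ') := by
      field_simp
      ring
    rw [e1]
    module
  refine few_of_pow (t := ρ (g * (γ * g * γ⁻¹))) (e := δ) ?_ ?_ hδ0 hm ?_
  · have h2 : ρ (g * (γ * g * γ⁻¹)) δ' = (2 * B δ δ' / B δ δ) • δ - δ' := by
      rw [ht, refl_apply δ' δ', div_mul_cancel₀ _ hq', refl_apply, map_sub, map_smul]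
      simp only [smul_eq_mul]
      have e1 : 2 / B δ δ * (B δ δ' - 2 * B δ δ') = -(2 * B δ δ' / B δ δ) := by
        field_simp
        ring
      rw [e1]
      module
    conv_lhs => rw [h1, map_sub, map_smul, map_smul, h2]
    rw [h1]
    have e1 : (2 * B δ δ' / B δ' δ') * (2 * B δ δ' / B δ δ) =
      4 * (B δ δ' * B δ δ') / (B δ δ * B δ' δ') := by
      field_simp
      ring
    rw [smul_sub (2 * B δ δ' / B δ' δ'), smul_smul (2 * B δ δ' / B δ' δ'), e1]
    module
  · intro c hc
    apply hpar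
    rw [h1] at hc
    refine ⟨(2 * B δ δ' / B δ' δ')⁻¹ * (4 * (B δ δ' * B δ δ') / (B δ δ * B δ' δ') - 1 - c), ?_⟩
    have h2 : (2 * B δ δ' / B δ' δ') • δ' =
        (4 * (B δ δ' * B δ δ') / (B δ δ * B δ' δ') - 1 - c) • δ := by
      rw [sub_smul _ c, ← hc]
      abel
    rw [← smul_smul, ← h2, smul_smul, inv_mul_cancel₀, one_smul]
    exact div_ne_zero (mul_ne_zero two_ne_zero hβ) hq'
  · rw [← map_pow]
    exact h δ

/-- the square roots of the elements of a finite set -/
theorem sqrt_finite {P : Set K} (hP : P.Finite) : {x : K | x * x ∈ P}.Finite := by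
  have h1 : {x : K | x * x ∈ P} = ⋃ a ∈ P, {x : K | x * x = a} := by
    ext x
    simp
  rw [h1]
  refine hP.biUnion fun a _ => ?_
  by_cases h : ∃ y : K, y * y = a
  · obtain ⟨y, rfl⟩ := h
    refine Set.Finite.subset (Set.toFinite {y, -y}) fun x hx => ?_
    have h2 : (x - y) * (x + y) = 0 := by
      have : x * x = y * y := hx
      linear_combination this
    rcases mul_eq_zero.1 h2 with h | h
    · left; exact sub_eq_zero.1 h
    · right; exact eq_neg_of_add_eq_zero_left h
  · have : {x : K | x * x = a} = ∅ := by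
      ext x
      simp only [Set.mem_ofPred_eq, Set.mem_empty_iff_false, iff_false]
      exact fun hx => h ⟨x, hx⟩
    rw [this]
    exact Set.finite_empty

include hsy hnd hμ hB hq hg in
/-- **two reflections generating an infinite group exist** -/
theorem exists_gamma [Module.Finite K T] (hSI : SI ρ) (hK : FewRoots K)
    (h2 : 2 ≤ Module.finrank K T) :
    ∃ γ : G, ∀ m ≥ 1, ∃ x, ρ ((g * (γ * g * γ⁻¹)) ^ m) x ≠ x := by
  by_contra hcon
  push Not at hcon
  have hδ0 : δ ≠ 0 := by
    rintro rfl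
    rw [map_zero] at hq
    exact hq rfl
  have hqγ : ∀ γ, B (ρ γ δ) (ρ γ δ) ≠ 0 := fun γ => by
    rw [hB]
    exact mul_ne_zero (hμ γ) hq
  -- the values of the form
  set F : Set K := (fun y => (y + 2) / 4) '' {y : K | ∃ ζ : AlgebraicClosure K,
    (∃ m ≥ 1, ζ ^ m = 1) ∧ algebraMap K (AlgebraicClosure K) y = ζ + ζ⁻¹} with hF
  have hFfin : F.Finite := Set.Finite.image _ hK
  have hval : ∀ γ γ' : G, B (ρ γ δ) (ρ γ' δ) * B (ρ γ δ) (ρ γ' δ) /
      (B (ρ γ δ) (ρ γ δ) * B (ρ γ' δ) (ρ γ' δ)) ∈ F := by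
    intro γ γ'
    obtain ⟨m, hm, hm'⟩ := hcon (γ⁻¹ * γ')
    refine ⟨_, few_value hsy hμ hB hq hg hm hm', ?_⟩
    have e1 : B (ρ γ δ) (ρ γ' δ) = μ γ * B δ (ρ (γ⁻¹ * γ') δ) := by
      rw [← hB, rho_mul_apply, rho_inv]
    have e2 : B (ρ γ' δ) (ρ γ' δ) = μ γ * B (ρ (γ⁻¹ * γ') δ) (ρ (γ⁻¹ * γ') δ) := by
      rw [← hB, rho_mul_apply, rho_inv]
    rw [e1, e2, hB γ δ δ]
    have h3 := hqγ (γ⁻¹ * γ')
    have h4 := hμ γ
    field_simp
    ring
  -- a basis in the orbit
  have hst : ∀ g ∈ (⊤ : Subgroup G), ∀ x ∈ Submodule.span K (Set.range fun γ => ρ γ δ),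
      ρ g x ∈ Submodule.span K (Set.range fun γ => ρ γ δ) := by
    intro g _ x hx
    induction hx using Submodule.span_induction with
    | mem x hx =>
      obtain ⟨γ, rfl⟩ := hx
      exact Submodule.subset_span ⟨g * γ, rho_mul_apply ρ g γ δ⟩
    | zero => rw [map_zero]; exact Submodule.zero_mem _
    | add x y _ _ hx hy => rw [map_add]; exact Submodule.add_mem _ hx hy
    | smul a x _ hx => rw [map_smul]; exact Submodule.smul_mem _ a hx
  have hspan : Submodule.span K (Set.range fun γ => ρ γ δ) = ⊤ := by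
    rcases hSI ⊤ inferInstance _ hst with h | h
    · exfalso
      apply hδ0
      have h1 : ρ 1 δ ∈ Submodule.span K (Set.range fun γ => ρ γ δ) :=
        Submodule.subset_span ⟨1, rfl⟩
      rw [h, Submodule.mem_bot, map_one] at h1
      exact h1
    · exact h
  obtain ⟨b, hb, hbs, hbl⟩ := exists_linearIndependent K (Set.range fun γ => ρ γ δ)
  rw [hspan] at hbs
  have hbfin : Finite b := hbl.finite
  have hextb : ∀ x, (∀ i : b, B x i = 0) → x = 0 := by
    intro x hx
    apply hnd
    intro y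
    have hy : y ∈ Submodule.span K b := by rw [hbs]; exact Submodule.mem_top
    induction hy using Submodule.span_induction with
    | mem y hy => exact hx ⟨y, hy⟩
    | zero => rw [map_zero]
    | add x y _ _ hx hy => rw [map_add, hx, hy, add_zero]
    | smul a x _ hx => rw [map_smul, hx, smul_zero]
  -- the invariants of a line
  set M : G → b → b → K := fun γ i j => B (ρ γ δ) i * B (ρ γ δ) j / B (ρ γ δ) (ρ γ δ) with hM
  have hMfin : (Set.range M).Finite := by
    have h1 : ∀ i j : b, {x : K | ∃ γ, M γ i j = x}.Finite := by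
      intro i j
      obtain ⟨γi, hi⟩ := hb i.2
      obtain ⟨γj, hj⟩ := hb j.2
      have h3 : {x : K | x * x ∈ (fun p : K × K => p.1 * p.2 * (B i i * B j j)) ''
          (F ×ˢ F)}.Finite := sqrt_finite (Set.Finite.image _ (hFfin.prod hFfin))
      refine h3.subset ?_
      rintro x ⟨γ, rfl⟩
      refine ⟨(B (ρ γ δ) i * B (ρ γ δ) i / (B (ρ γ δ) (ρ γ δ) * B i i),
        B (ρ γ δ) j * B (ρ γ δ) j / (B (ρ γ δ) (ρ γ δ) * B j j)), ⟨?_, ?_⟩, ?_⟩
      · have := hval γ γi
        beta_reduce at hi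
        rw [hi] at this
        exact this
      · have := hval γ γj
        beta_reduce at hj
        rw [hj] at this
        exact this
      · have hi' : B i.1 i.1 ≠ 0 := by
          beta_reduce at hi
          rw [← hi]
          exact hqγ γi
        have hj' : B j.1 j.1 ≠ 0 := by
          beta_reduce at hj
          rw [← hj]
          exact hqγ γj
        have hγ := hqγ γ
        simp only [hM]
        field_simp
    refine Set.Finite.subset (Set.Finite.pi' fun i => Set.Finite.pi' fun j => h1 i j) ?_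
    rintro _ ⟨γ, rfl⟩ i j
    exact ⟨γ, rfl⟩
  -- the stabilizer of the line has finite index
  have hinj : ∀ γ γ' : G, M γ = M γ' → ∃ c : K, ρ γ δ = c • ρ γ' δ := by
    intro γ γ' hMM
    obtain ⟨i, hi⟩ : ∃ i : b, B (ρ γ δ) i ≠ 0 := by
      by_contra hcon
      push Not at hcon
      have := hqγ γ
      rw [hextb _ hcon, map_zero] at this
      exact this rfl
    refine ⟨B (ρ γ' δ) i / B (ρ γ' δ) (ρ γ' δ) * B (ρ γ δ) (ρ γ δ) / B (ρ γ δ) i, ?_⟩
    rw [← sub_eq_zero]
    apply hextb
    intro j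
    have h3 := congrFun (congrFun hMM i) j
    simp only [hM] at h3
    have h4 := hqγ γ
    have h5 := hqγ γ'
    rw [div_eq_div_iff h4 h5] at h3
    rw [map_sub, map_smul, LinearMap.sub_apply, LinearMap.smul_apply, smul_eq_mul, sub_eq_zero]
    field_simp
    linear_combination h3
  have hfi : (stab ρ (Submodule.span K {δ})).FiniteIndex := by
    have hfin : Finite (G ⧸ stab ρ (Submodule.span K {δ})) := by
      have := hMfin.to_subtype
      refine Finite.of_injective (fun q : G ⧸ stab ρ (Submodule.span K {δ}) =>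
        (⟨M q.out, q.out, rfl⟩ : Set.range M)) ?_
      intro q q' hqq
      have h3 : M q.out = M q'.out := congrArg Subtype.val hqq
      obtain ⟨c, hc⟩ := hinj _ _ h3
      obtain ⟨c', hc'⟩ := hinj _ _ h3.symm
      have h4 : q.out⁻¹ * q'.out ∈ stab ρ (Submodule.span K {δ}) := by
        refine ⟨fun x hx => ?_, fun x hx => ?_⟩
        · obtain ⟨a, rfl⟩ := Submodule.mem_span_singleton.1 hx
          rw [map_smul, rho_mul_apply, hc', map_smul, rho_inv']
          exact Submodule.smul_mem _ _ (Submodule.smul_mem _ _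
            (Submodule.mem_span_singleton_self δ))
        · obtain ⟨a, rfl⟩ := Submodule.mem_span_singleton.1 hx
          rw [mul_inv_rev, inv_inv, map_smul, rho_mul_apply, hc, map_smul, rho_inv']
          exact Submodule.smul_mem _ _ (Submodule.smul_mem _ _
            (Submodule.mem_span_singleton_self δ))
      have h5 := QuotientGroup.eq.2 h4
      rwa [QuotientGroup.out_eq', QuotientGroup.out_eq'] at h5
    exact Subgroup.finiteIndex_of_finite_quotient
  rcases hSI _ hfi _ (fun g hg x hx => hg.1 x hx) with h | h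
  · apply hδ0
    have h3 := Submodule.mem_span_singleton_self (R := K) δ
    rw [h, Submodule.mem_bot] at h3
    exact h3
  · have h3 : Module.finrank K T ≤ 1 := by
      rw [← finrank_top K T, ← h]
      exact (finrank_span_le_card ({δ} : Set T)).trans (by simp)
    omega

end

end Pool.Agent.TH125.Gal
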