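import Pool.Agent.W552.Main

/-!
# Actions of Galois groups on Weil cohomology: definitions
-/

open CategoryTheory AlgebraicGeometry

universe u v w

namespace Pool.Agent.TH125.Gal

open Pool.Agent.H914 Pool.Agent.H914.VarClass Pool.Agent.H914.VarClass.Obj
  Pool.Agent.H914.WeilCohomology Pool.Agent.H281R3.HT Pool.Agent.W552

variable {k : Type u} [Field k] {𝒱 : VarClass k} {ops : CycleOps 𝒱}

/-- The formal properties of the action `ρ` of a Galois group `Γ` on the cohomology of a variety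
`X`: it respects the grading, an element `g` multiplies the orientation by the power `dim X` of
`χ g` (`χ` is a character of `Γ`, the action on the Tate twists) and maps the class of a cycle of
codimension `j` to the product of `χ g ^ j` with the class of another cycle, which is the given one
for all `g` in a subgroup of finite index. -/
structure IsGalois (W : WeilCohomology.{u, v} ops) {Γ : Type w} [Group Γ] (χ : Γ →* W.Kˣ)
    (X : 𝒱.Obj) (ρ : Γ →* (W.H X ≃ₐ[W.K] W.H X)) : Prop where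
  gr_mem : ∀ g i, ∀ a ∈ W.gr X i, ρ g a ∈ W.gr X i
  tr_act : ∀ g a, W.tr X (ρ g a) = (χ g : W.K) ^ X.dim * W.tr X a
  cl_act : ∀ g j, ∀ c ∈ algClasses W X j, ∃ c' ∈ algClasses W X j,
    ρ g c = (χ g : W.K) ^ j • c'
  cl_fix : ∀ j, ∀ c ∈ algClasses W X j, ∃ Δ : Subgroup Γ, Δ.FiniteIndex ∧
    ∀ g ∈ Δ, ρ g c = (χ g : W.K) ^ j • c

/-- Every subspace of `T` which is stable under a subgroup of finite index is `0` or `T`. -/
def StronglyIrreducible {W : WeilCohomology.{u, v} ops} {Γ : Type w} [Group Γ] {X : 𝒱.Obj}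
    (ρ : Γ →* (W.H X ≃ₐ[W.K] W.H X)) (T : Submodule W.K (W.H X)) : Prop :=
  ∀ Δ : Subgroup Γ, Δ.FiniteIndex → ∀ U ≤ T, (∀ g ∈ Δ, ∀ a ∈ U, ρ g a ∈ U) → U = ⊥ ∨ U = T

/-- The map `f` is given on the transcendental cohomology of `X` by a Picard-Lefschetz formula
`f t = t + c (δ, t) δ`, where `(δ, t)` is the intersection form and `c` and the transcendental class
`δ` are not zero. -/
def PicardLefschetz (W : WeilCohomology.{u, v} ops) (X : 𝒱.Obj) (f : W.H X → W.H X) : Prop :=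
  ∃ δ ∈ transcendental W X, δ ≠ 0 ∧ ∃ c : W.K, c ≠ 0 ∧
    ∀ t ∈ transcendental W X, f t = t + (c * W.tr X (δ * t)) • δ

/-- The action `υ` on the cohomology of `A × B` is compatible with the actions on the cohomology of
`A` and `B`. -/
def IsProdAct (W : WeilCohomology.{u, v} ops) {Γ : Type w} [Group Γ] {A B : 𝒱.Obj}
    (ρ : Γ →* (W.H A ≃ₐ[W.K] W.H A)) (τ : Γ →* (W.H B ≃ₐ[W.K] W.H B))
    (υ : Γ →* (W.H (A.prod B) ≃ₐ[W.K] W.H (A.prod B))) : Prop :=
  ∀ g, (∀ a, υ g (W.map (fst A B) a) = W.map (fst A B) (ρ g a)) ∧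
    ∀ b, υ g (W.map (snd A B) b) = W.map (snd A B) (τ g b)

/-- The action `υ` on the cohomology of `(X × ⋯ × X) × Z`, with `n + 1` factors `X`, is compatible
with the actions on the cohomology of `X` and `Z`. -/
def IsPowAct (W : WeilCohomology.{u, v} ops) {Γ : Type w} [Group Γ] (P : Polarized 𝒱) (n : ℕ)
    (Z : 𝒱.Obj) (ρ : Γ →* (W.H P.X ≃ₐ[W.K] W.H P.X)) (τ : Γ →* (W.H Z ≃ₐ[W.K] W.H Z))
    (υ : Γ →* (W.H ((nest ops n fun _ => P).X.prod Z) ≃ₐ[W.K]
      W.H ((nest ops n fun _ => P).X.prod Z))) : Prop :=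
  ∀ g, (∀ p a, υ g (W.map (fst _ Z) (W.map (prj ops n (fun _ => P) p) a)) =
      W.map (fst _ Z) (W.map (prj ops n (fun _ => P) p) (ρ g a))) ∧
    ∀ b, υ g (W.map (snd _ Z) b) = W.map (snd _ Z) (τ g b)

end Pool.Agent.TH125.Gal
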