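import Pool.Agent.TH125.Gal.Hml
import Pool.Agent.TH125.Gal.Defs

/-!
# The algebraic and the transcendental part, dual bases
-/

open CategoryTheory AlgebraicGeometry Finset

set_option linter.unusedSectionVars false

universe u v w

namespace Pool.Agent.TH125.Gal

open Pool.Agent.H914 Pool.Agent.H914.VarClass Pool.Agent.H914.VarClass.Obj
  Pool.Agent.H914.WeilCohomology Pool.Agent.H281R3.HT Pool.Agent.W552

variable {k : Type u} [Field k] {𝒱 : VarClass k} {ops : CycleOps 𝒱}
  {W : WeilCohomology.{u, v} ops} {X : 𝒱.Obj}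

theorem alg_comm {c : W.H X} (hc : c ∈ algSpan W X) (a : W.H X) : c * a = a * c := by
  induction hc using Submodule.span_induction with
  | mem c hc =>
    obtain ⟨j, hj⟩ := Set.mem_iUnion.1 hc
    exact alg_even_comm hj a
  | zero => rw [zero_mul, mul_zero]
  | add x y _ _ hx hy => rw [add_mul, mul_add, hx, hy]
  | smul q x _ hx => rw [smul_mul_assoc, mul_smul_comm, hx]

theorem trans_alg {t c : W.H X} (ht : t ∈ transcendental W X) (hc : c ∈ algSpan W X) :
    bil W X t c = 0 := by
  induction hc using Submodule.span_induction with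
  | mem c hc =>
    obtain ⟨j, hj⟩ := Set.mem_iUnion.1 hc
    exact mem_trans.1 ht j c hj
  | zero => rw [map_zero]
  | add x y _ _ hx hy => rw [map_add, hx, hy, add_zero]
  | smul q x _ hx => rw [map_smul, hx, smul_zero]

theorem alg_trans {t c : W.H X} (ht : t ∈ transcendental W X) (hc : c ∈ algSpan W X) :
    bil W X c t = 0 := by
  rw [bil_apply, alg_comm hc, ← bil_apply, trans_alg ht hc]

theorem mem_trans' {t : W.H X} :
    t ∈ transcendental W X ↔ ∀ c ∈ algSpan W X, bil W X t c = 0 :=
  ⟨fun h _ hc => trans_alg h hc, fun h => mem_trans.2 fun j c hc =>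
    h c (Submodule.subset_span (Set.mem_iUnion.2 ⟨j, hc⟩))⟩

/-- **The decomposition of the cohomology.** -/
theorem isCompl (hDX : HomEqNum W X) : IsCompl (algSpan W X) (transcendental W X) := by
  obtain ⟨π, hπ⟩ := exists_cProj hDX
  have hcod : ∀ a : W.H X, ∃ c ∈ algSpan W X, ∃ t ∈ transcendental W X, a = c + t := by
    intro a
    refine ⟨_, ?_, _, hπ.piT_trans a, (hπ.decomp a).trans (add_comm _ _)⟩
    refine Submodule.sum_mem _ fun l _ => ?_
    have h1 := hπ.mem l a
    rw [spanCycles_eq] at h1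
    exact Submodule.span_mono (Set.subset_iUnion _ _) h1
  constructor
  · rw [Submodule.disjoint_def]
    intro x hx hx'
    apply W.nondeg
    intro b
    obtain ⟨c, hc, t, ht, rfl⟩ := hcod b
    rw [← bil_apply, map_add, trans_alg hx' hc, alg_trans ht hx, add_zero]
  · rw [codisjoint_iff, eq_top_iff]
    intro a _
    obtain ⟨c, hc, t, ht, rfl⟩ := hcod a
    exact Submodule.add_mem_sup hc ht

/-- the form on a subspace -/
noncomputable def rform (W : WeilCohomology.{u, v} ops) (X : 𝒱.Obj) (T : Submodule W.K (W.H X)) :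
    T →ₗ[W.K] T →ₗ[W.K] W.K := (bil W X).domRestrict₁₂ T T

theorem rform_apply (T : Submodule W.K (W.H X)) (a b : T) : rform W X T a b = bil W X a b := rfl

theorem trans_nondeg (hDX : HomEqNum W X) (a : transcendental W X)
    (h : ∀ b, rform W X (transcendental W X) a b = 0) : a = 0 := by
  apply Subtype.ext
  apply W.nondeg
  intro b
  have hb : b ∈ algSpan W X ⊔ transcendental W X := by
    rw [(isCompl hDX).sup_eq_top]; exact Submodule.mem_top
  obtain ⟨c, hc, t, ht, rfl⟩ := Submodule.mem_sup.1 hb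
  rw [← bil_apply, map_add, trans_alg a.2 hc, zero_add]
  exact h ⟨t, ht⟩

theorem alg_nondeg (hDX : HomEqNum W X) (a : algSpan W X)
    (h : ∀ b, rform W X (algSpan W X) a b = 0) : a = 0 := by
  apply Subtype.ext
  apply W.nondeg
  intro b
  have hb : b ∈ algSpan W X ⊔ transcendental W X := by
    rw [(isCompl hDX).sup_eq_top]; exact Submodule.mem_top
  obtain ⟨c, hc, t, ht, rfl⟩ := Submodule.mem_sup.1 hb
  rw [← bil_apply, map_add, alg_trans ht a.2, add_zero]
  exact h ⟨c, hc⟩

/-- the symmetry of the form in the middle degree -/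
theorem trans_symm (hmid : transcendental W X ≤ W.gr X X.dim) {a b : W.H X}
    (ha : a ∈ transcendental W X) (hb : b ∈ transcendental W X) :
    bil W X a b = (-1 : W.K) ^ X.dim * bil W X b a := by
  rw [bil_apply, W.comm (hmid ha) (hmid hb), map_smul, smul_eq_mul, bil_apply]
  congr 1
  rcases Nat.even_or_odd X.dim with h | h
  · rw [h.neg_one_pow, (h.mul_left _).neg_one_pow]
  · rw [h.neg_one_pow, (h.mul h).neg_one_pow]

/-- a basis of the span of the algebraic classes -/
theorem exists_algBasis (W : WeilCohomology.{u, v} ops) (X : 𝒱.Obj) :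
    ∃ (N : ℕ) (b : Module.Basis (Fin N) W.K (algSpan W X)) (j : Fin N → ℕ),
      ∀ i, (b i : W.H X) ∈ algClasses W X (j i) := by
  classical
  obtain ⟨S, hSA, hSspan, hSli⟩ := exists_linearIndependent W.K (⋃ j, algClasses W X j)
  have hfin : S.Finite := hSli.setFinite
  have := hfin.fintype
  have h1 : ∀ i : S, ∃ j, (i : W.H X) ∈ algClasses W X j := fun i => Set.mem_iUnion.1 (hSA i.2)
  choose j hj using h1
  have h2 : Submodule.span W.K (Set.range (Subtype.val : S → W.H X)) = algSpan W X := by
    rw [Subtype.range_coe, hSspan]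
    rfl
  let b0 : Module.Basis S W.K (Submodule.span W.K (Set.range (Subtype.val : S → W.H X))) :=
    Module.Basis.span hSli
  let b1 := (b0.map (LinearEquiv.ofEq _ _ h2)).reindex (Fintype.equivFin S)
  refine ⟨Fintype.card S, b1, fun i => j ((Fintype.equivFin S).symm i), fun i => ?_⟩
  have h3 : (b1 i : W.H X) = ((Fintype.equivFin S).symm i : S) := by
    change (((b0.map (LinearEquiv.ofEq _ _ h2)).reindex (Fintype.equivFin S) i : algSpan W X) :
      W.H X) = _
    rw [Module.Basis.reindex_apply, Module.Basis.map_apply, LinearEquiv.coe_ofEq_apply]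
    exact congrArg Subtype.val (Module.Basis.span_apply hSli _)
  rw [h3]
  exact hj _

/-- A basis of the cohomology adapted to the decomposition, with the dual basis. -/
structure SB (W : WeilCohomology.{u, v} ops) (X : 𝒱.Obj) where
  /-- the number of algebraic elements -/
  NC : ℕ
  /-- the number of transcendental elements -/
  NT : ℕ
  /-- algebraic classes -/
  bC : Module.Basis (Fin NC) W.K (algSpan W X)
  /-- their codimensions -/
  jC : Fin NC → ℕ
  alg : ∀ i, (bC i : W.H X) ∈ algClasses W X (jC i)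
  /-- transcendental classes -/
  bT : Module.Basis (Fin NT) W.K (transcendental W X)
  /-- the basis -/
  e : Module.Basis (Fin NC ⊕ Fin NT) W.K (W.H X)
  e_inl : ∀ i, e (Sum.inl i) = bC i
  e_inr : ∀ i, e (Sum.inr i) = bT i
  /-- the dual classes -/
  uC : Module.Basis (Fin NC) W.K (algSpan W X)
  /-- the dual classes -/
  uT : Module.Basis (Fin NT) W.K (transcendental W X)
  uC_bC : ∀ i j, bil W X (uC i) (bC j) = if j = i then 1 else 0
  uT_bT : ∀ i j, bil W X (uT i) (bT j) = if j = i then 1 else 0

theorem exists_SB (hDX : HomEqNum W X) : Nonempty (SB W X) := by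
  obtain ⟨NC, bC, jC, hjC⟩ := exists_algBasis W X
  have hC : LinearMap.BilinForm.Nondegenerate (rform W X (algSpan W X)) := by
    refine ⟨fun a h => alg_nondeg hDX a h, fun a h => alg_nondeg hDX a fun b => ?_⟩
    rw [rform_apply, bil_apply, alg_comm a.2, ← bil_apply]
    exact h b
  have hT : LinearMap.BilinForm.Nondegenerate (rform W X (transcendental W X)) := by
    have h1 : ∀ a, (∀ b, rform W X (transcendental W X) a b = 0) → a = 0 :=
      fun a h => trans_nondeg hDX a h
    refine ⟨h1, ?_⟩
    have h2 : Function.Injective (rform W X (transcendental W X)) :=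
      (injective_iff_map_eq_zero _).2 fun a ha => h1 a fun b => by rw [ha]; rfl
    intro a ha
    by_contra ha0
    have h3 : Function.Surjective (rform W X (transcendental W X)) :=
      (LinearMap.injective_iff_surjective_of_finrank_eq_finrank
        (Subspace.dual_finrank_eq).symm).1 h2
    obtain ⟨φ, hφ⟩ : ∃ φ : Module.Dual W.K (transcendental W X), φ a ≠ 0 := by
      by_contra hcon
      push Not at hcon
      exact ha0 ((Module.forall_dual_apply_eq_zero_iff W.K a).1 hcon)
    obtain ⟨b, rfl⟩ := h3 φ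
    exact hφ (ha b)
  let bT := Module.finBasis W.K (transcendental W X)
  exact ⟨{
    NC := NC
    NT := Module.finrank W.K (transcendental W X)
    bC := bC
    jC := jC
    alg := hjC
    bT := bT
    e := (bC.prod bT).map (Submodule.prodEquivOfIsCompl _ _ (isCompl hDX))
    e_inl := fun i => by
      rw [Module.Basis.map_apply, Module.Basis.prod_apply]
      simp
    e_inr := fun i => by
      rw [Module.Basis.map_apply, Module.Basis.prod_apply]
      simp
    uC := LinearMap.BilinForm.dualBasis _ hC bC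
    uT := LinearMap.BilinForm.dualBasis _ hT bT
    uC_bC := fun i j => LinearMap.BilinForm.apply_dualBasis_left hC bC i j
    uT_bT := fun i j => LinearMap.BilinForm.apply_dualBasis_left hT bT i j }⟩

namespace SB

variable (s : SB W X)

/-- the dual basis -/
noncomputable def es (i : Fin s.NC ⊕ Fin s.NT) : W.H X :=
  i.elim (fun i => (s.uC i : W.H X)) fun i => (s.uT i : W.H X)

theorem es_e (i j : Fin s.NC ⊕ Fin s.NT) : bil W X (s.es i) (s.e j) = if j = i then 1 else 0 := by
  rcases i with i | i <;> rcases j with j | j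
  · rw [s.e_inl]
    refine (s.uC_bC i j).trans ?_
    simp
  · rw [s.e_inr]
    refine (alg_trans (s.bT j).2 (s.uC i).2).trans ?_
    simp
  · rw [s.e_inl]
    refine (trans_alg (s.uT i).2 (s.bC j).2).trans ?_
    simp
  · rw [s.e_inr]
    refine (s.uT_bT i j).trans ?_
    simp

theorem ext_e {a b : W.H X} (h : ∀ j, bil W X a (s.e j) = bil W X b (s.e j)) : a = b := by
  apply W.tr_ext
  intro c
  rw [← bil_apply, ← bil_apply, ← s.e.sum_repr c, map_sum, map_sum]
  refine Finset.sum_congr rfl fun j _ => ?_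
  rw [map_smul, map_smul, h]

/-- expansion of a transcendental class -/
theorem expand_T {t : W.H X} (ht : t ∈ transcendental W X) :
    t = ∑ i, bil W X (s.uT i) t • (s.bT i : W.H X) := by
  have h1 := s.bT.sum_repr ⟨t, ht⟩
  have h2 : t = ∑ i, s.bT.repr ⟨t, ht⟩ i • (s.bT i : W.H X) := by
    conv_lhs => rw [show t = ((⟨t, ht⟩ : transcendental W X) : W.H X) from rfl, ← h1]
    rw [Submodule.coe_sum]
    rfl
  have h3 : ∀ i, bil W X (s.uT i) t = s.bT.repr ⟨t, ht⟩ i := by
    intro i
    conv_lhs => rw [h2]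
    rw [map_sum, Finset.sum_eq_single i]
    · rw [map_smul, s.uT_bT, if_pos rfl, smul_eq_mul, mul_one]
    · intro j _ hj
      rw [map_smul, s.uT_bT, if_neg hj, smul_zero]
    · intro h
      exact absurd (Finset.mem_univ _) h
  rw [Finset.sum_congr rfl fun i _ => by rw [h3]]
  exact h2

end SB

section Galois

variable {Γ : Type w} [Group Γ] {χ : Γ →* W.Kˣ} {ρ : Γ →* (W.H X ≃ₐ[W.K] W.H X)}

/-- the form is multiplied by a character -/
theorem bil_act (h : IsGalois W χ X ρ) (g : Γ) (a b : W.H X) :
    bil W X (ρ g a) (ρ g b) = (χ g : W.K) ^ X.dim * bil W X a b := by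
  rw [bil_apply, ← map_mul, h.tr_act, bil_apply]

theorem act_algSpan (h : IsGalois W χ X ρ) (g : Γ) {c : W.H X} (hc : c ∈ algSpan W X) :
    ρ g c ∈ algSpan W X := by
  induction hc using Submodule.span_induction with
  | mem c hc =>
    obtain ⟨j, hj⟩ := Set.mem_iUnion.1 hc
    obtain ⟨c', hc', h1⟩ := h.cl_act g j c hj
    rw [h1]
    exact Submodule.smul_mem _ _ (Submodule.subset_span (Set.mem_iUnion.2 ⟨j, hc'⟩))
  | zero => rw [map_zero]; exact Submodule.zero_mem _
  | add x y _ _ hx hy => rw [map_add]; exact Submodule.add_mem _ hx hy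
  | smul q x _ hx => rw [map_smul]; exact Submodule.smul_mem _ _ hx

theorem act_inv (ρ : Γ →* (W.H X ≃ₐ[W.K] W.H X)) (g : Γ) (a : W.H X) :
    ρ g (ρ g⁻¹ a) = a := by
  rw [← AlgEquiv.mul_apply, ← map_mul, mul_inv_cancel, map_one]
  rfl

theorem act_trans (h : IsGalois W χ X ρ) (g : Γ) {t : W.H X} (ht : t ∈ transcendental W X) :
    ρ g t ∈ transcendental W X := by
  rw [mem_trans']
  intro c hc
  have h1 := bil_act h g t (ρ g⁻¹ c)
  rw [act_inv, trans_alg ht (act_algSpan h g⁻¹ hc), mul_zero] at h1
  exact h1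

/-- the action on the transcendental part -/
noncomputable def rhoT (h : IsGalois W χ X ρ) :
    Γ →* (transcendental W X →ₗ[W.K] transcendental W X) where
  toFun g := (ρ g).toLinearMap.restrict fun _ ht => act_trans h g ht
  map_one' := by
    apply LinearMap.ext
    intro t
    apply Subtype.ext
    change ρ 1 (t : W.H X) = t
    rw [map_one]
    rfl
  map_mul' g g' := by
    apply LinearMap.ext
    intro t
    apply Subtype.ext
    change ρ (g * g') (t : W.H X) = ρ g (ρ g' (t : W.H X))
    rw [map_mul]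
    rfl

theorem rhoT_apply (h : IsGalois W χ X ρ) (g : Γ) (t : transcendental W X) :
    (rhoT h g t : W.H X) = ρ g t := rfl

/-- a subgroup of finite index acting by characters on the algebraic part -/
theorem exists_fix (h : IsGalois W χ X ρ) (s : SB W X) : ∃ Δ : Subgroup Γ, Δ.FiniteIndex ∧
    ∀ g ∈ Δ, ∀ i, ρ g (s.bC i) = (χ g : W.K) ^ s.jC i • (s.bC i : W.H X) := by
  choose Δ hΔ h1 using fun i => h.cl_fix (s.jC i) (s.bC i) (s.alg i)
  refine ⟨⨅ i, Δ i, Subgroup.finiteIndex_iInf hΔ, fun g hg i => ?_⟩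
  exact h1 i g (Subgroup.mem_iInf.1 hg i)

theorem jC_le (s : SB W X) (i : Fin s.NC) : s.jC i ≤ X.dim := by
  by_contra hcon
  have h1 := alg_gr (s.alg i)
  rw [W.gr_eq_bot X _ (by omega), Submodule.mem_bot] at h1
  exact s.bC.ne_zero i (Subtype.ext h1)

/-- the dual classes -/
theorem uC_act (h : IsGalois W χ X ρ) (s : SB W X) {g : Γ}
    (hg : ∀ i, ρ g (s.bC i) = (χ g : W.K) ^ s.jC i • (s.bC i : W.H X)) (i : Fin s.NC) :
    ρ g (s.uC i) = (χ g : W.K) ^ (X.dim - s.jC i) • (s.uC i : W.H X) := by
  have hinv : ∀ a, ρ g⁻¹ (ρ g a) = a := by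
    intro a
    rw [← AlgEquiv.mul_apply, ← map_mul, inv_mul_cancel, map_one]
    rfl
  apply s.ext_e
  intro j
  rcases j with j | j
  · rw [s.e_inl]
    have h1 := bil_act h g (s.uC i) (s.bC j)
    rw [hg, map_smul, s.uC_bC] at h1
    rw [map_smul, LinearMap.smul_apply, s.uC_bC]
    by_cases hij : j = i
    · subst hij
      rw [if_pos rfl] at h1 ⊢
      have h2 : (χ g : W.K) ^ X.dim = (χ g : W.K) ^ s.jC j * (χ g : W.K) ^ (X.dim - s.jC j) := by
        rw [← pow_add, Nat.add_sub_cancel' (jC_le s j)]
      rw [h2, smul_eq_mul, mul_assoc] at h1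
      have h3 : (χ g : W.K) ^ s.jC j ≠ 0 := pow_ne_zero _ (Units.ne_zero _)
      rw [smul_eq_mul]
      exact mul_left_cancel₀ h3 h1
    · rw [if_neg hij] at h1 ⊢
      rw [mul_zero, smul_eq_mul] at h1
      rw [smul_zero]
      exact (mul_eq_zero.1 h1).resolve_left (pow_ne_zero _ (Units.ne_zero _))
  · rw [s.e_inr, map_smul, LinearMap.smul_apply, alg_trans (s.bT j).2 (s.uC i).2, smul_zero,
      alg_trans (s.bT j).2 (act_algSpan h g (s.uC i).2)]

end Galois

end Pool.Agent.TH125.Gal
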