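import Pool.Agent.TH125.Gal.Dec

/-!
# The transcendental part of the diagonal
-/

open CategoryTheory AlgebraicGeometry Finset

set_option linter.unusedSectionVars false

universe u v w

namespace Pool.Agent.TH125.Gal

open Pool.Agent.H914 Pool.Agent.H914.VarClass Pool.Agent.H914.VarClass.Obj
  Pool.Agent.H914.WeilCohomology Pool.Agent.H281R3.HT Pool.Agent.W552

variable {k : Type u} [Field k] {𝒱 : VarClass k} {ops : CycleOps 𝒱}
  {W : WeilCohomology.{u, v} ops} {X Y Z : 𝒱.Obj}

theorem algSpan_mul {a b : W.H X} (ha : a ∈ algSpan W X) (hb : b ∈ algSpan W X) :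
    a * b ∈ algSpan W X := by
  induction ha using Submodule.span_induction with
  | mem a ha =>
    obtain ⟨i, hi⟩ := Set.mem_iUnion.1 ha
    induction hb using Submodule.span_induction with
    | mem b hb =>
      obtain ⟨j, hj⟩ := Set.mem_iUnion.1 hb
      exact Submodule.subset_span (Set.mem_iUnion.2 ⟨i + j, alg_mul hi hj⟩)
    | zero => rw [mul_zero]; exact Submodule.zero_mem _
    | add x y _ _ hx hy => rw [mul_add]; exact Submodule.add_mem _ hx hy
    | smul q x _ hx => rw [mul_smul_comm]; exact Submodule.smul_mem _ _ hx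
  | zero => rw [zero_mul]; exact Submodule.zero_mem _
  | add x y _ _ hx hy => rw [add_mul]; exact Submodule.add_mem _ hx hy
  | smul q x _ hx => rw [smul_mul_assoc]; exact Submodule.smul_mem _ _ hx

theorem algSpan_map (f : X ⟶ Y) {a : W.H Y} (ha : a ∈ algSpan W Y) :
    W.map f a ∈ algSpan W X := by
  induction ha using Submodule.span_induction with
  | mem a ha =>
    obtain ⟨i, hi⟩ := Set.mem_iUnion.1 ha
    exact Submodule.subset_span (Set.mem_iUnion.2 ⟨i, alg_map f hi⟩)
  | zero => rw [map_zero]; exact Submodule.zero_mem _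
  | add x y _ _ hx hy => rw [map_add]; exact Submodule.add_mem _ hx hy
  | smul q x _ hx => rw [map_smul]; exact Submodule.smul_mem _ _ hx

theorem alg_mem {j : ℕ} {a : W.H X} (ha : a ∈ algClasses W X j) : a ∈ algSpan W X :=
  Submodule.subset_span (Set.mem_iUnion.2 ⟨j, ha⟩)

theorem algSpan_one : (1 : W.H X) ∈ algSpan W X := alg_mem alg_one

/-- The algebraic classes of a given degree. -/
theorem algSpan_gr {j : ℕ} {a : W.H X} (ha : a ∈ algSpan W X) (ha' : a ∈ W.gr X (2 * j)) :
    a ∈ Submodule.span W.K (algClasses W X j) := by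
  have h1 : ∀ a ∈ algSpan W X, proj (W.isInternal X) (2 * j) a ∈
      Submodule.span W.K (algClasses W X j) := by
    intro a ha
    induction ha using Submodule.span_induction with
    | mem a ha =>
      obtain ⟨i, hi⟩ := Set.mem_iUnion.1 ha
      by_cases hij : i = j
      · subst hij
        rw [proj_same _ (alg_gr hi)]
        exact Submodule.subset_span hi
      · rw [proj_ne _ (alg_gr hi) (by omega)]
        exact Submodule.zero_mem _
    | zero => rw [map_zero]; exact Submodule.zero_mem _
    | add x y _ _ hx hy => rw [map_add]; exact Submodule.add_mem _ hx hy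
    | smul q x _ hx => rw [map_smul]; exact Submodule.smul_mem _ _ hx
  have h2 := h1 a ha
  rwa [proj_same _ ha'] at h2

/-- the pairing with the class of the diagonal -/
theorem diag_pair (x y : W.H X) : W.tr (X.prod X) (W.push (diag X) 1 *
    (W.map (fst X X) x * W.map (snd X X) y)) = bil W X x y := by
  rw [W.tr_push, one_mul, map_mul, ← W.map_comp, ← W.map_comp]
  have e1 : diag X ≫ fst X X = 𝟙 X := Obj.lift_fst _ _
  have e2 : diag X ≫ snd X X = 𝟙 X := Obj.lift_snd _ _
  rw [e1, e2, W.map_id, W.map_id, bil_apply]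

theorem expand_uC (s : SB W X) {x : W.H X} (hx : x ∈ algSpan W X) :
    x = ∑ i, bil W X (s.bC i) x • (s.uC i : W.H X) := by
  have h1 := s.uC.sum_repr ⟨x, hx⟩
  have h2 : x = ∑ i, s.uC.repr ⟨x, hx⟩ i • (s.uC i : W.H X) := by
    conv_lhs => rw [show x = ((⟨x, hx⟩ : algSpan W X) : W.H X) from rfl, ← h1]
    rw [Submodule.coe_sum]
    rfl
  have h3 : ∀ i, bil W X (s.bC i) x = s.uC.repr ⟨x, hx⟩ i := by
    intro i
    rw [bil_apply, alg_comm (s.bC i).2, ← bil_apply]
    conv_lhs => rw [h2]
    rw [map_sum, LinearMap.sum_apply, Finset.sum_eq_single i]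
    · rw [map_smul, LinearMap.smul_apply, s.uC_bC, if_pos rfl, smul_eq_mul, mul_one]
    · intro j _ hj
      rw [map_smul, LinearMap.smul_apply, s.uC_bC, if_neg (Ne.symm hj), smul_zero]
    · intro h
      exact absurd (Finset.mem_univ _) h
  rw [Finset.sum_congr rfl fun i _ => by rw [h3]]
  exact h2

theorem expand_uT (s : SB W X) {x : W.H X} (hx : x ∈ transcendental W X) :
    x = ∑ i, bil W X x (s.bT i) • (s.uT i : W.H X) := by
  have h1 := s.uT.sum_repr ⟨x, hx⟩
  have h2 : x = ∑ i, s.uT.repr ⟨x, hx⟩ i • (s.uT i : W.H X) := by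
    conv_lhs => rw [show x = ((⟨x, hx⟩ : transcendental W X) : W.H X) from rfl, ← h1]
    rw [Submodule.coe_sum]
    rfl
  have h3 : ∀ i, bil W X x (s.bT i) = s.uT.repr ⟨x, hx⟩ i := by
    intro i
    conv_lhs => rw [h2]
    rw [map_sum, LinearMap.sum_apply, Finset.sum_eq_single i]
    · rw [map_smul, LinearMap.smul_apply, s.uT_bT, if_pos rfl, smul_eq_mul, mul_one]
    · intro j _ hj
      rw [map_smul, LinearMap.smul_apply, s.uT_bT, if_neg (Ne.symm hj), smul_zero]
    · intro h
      exact absurd (Finset.mem_univ _) h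
  rw [Finset.sum_congr rfl fun i _ => by rw [h3]]
  exact h2

/-- the algebraic part of the diagonal -/
noncomputable def dC (s : SB W X) : W.H (X.prod X) :=
  ∑ i, W.map (fst X X) (s.bC i) * W.map (snd X X) (s.uC i)

/-- the transcendental part of the diagonal -/
noncomputable def dT (s : SB W X) : W.H (X.prod X) :=
  ∑ i, W.map (fst X X) (s.bT i) * W.map (snd X X) (s.uT i)

/-- **The decomposition of the diagonal.** -/
theorem diag_eq (hDX : HomEqNum W X) (hmid : transcendental W X ≤ W.gr X X.dim) (s : SB W X) :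
    W.push (diag X) 1 = dC s + dT s := by
  have hdec : ∀ x : W.H X, ∃ c ∈ algSpan W X, ∃ t ∈ transcendental W X, x = c + t := by
    intro x
    have hb : x ∈ algSpan W X ⊔ transcendental W X := by
      rw [(isCompl hDX).sup_eq_top]; exact Submodule.mem_top
    obtain ⟨c, hc, t, ht, rfl⟩ := Submodule.mem_sup.1 hb
    exact ⟨c, hc, t, ht, rfl⟩
  apply W.tr_ext
  intro c
  refine W.kunneth_induction (p := fun c => W.tr (X.prod X) (W.push (diag X) 1 * c) =
    W.tr (X.prod X) ((dC s + dT s) * c)) ?_ ?_ c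
  · intro a b ha hb
    rw [mul_add, mul_add, map_add, map_add, ha, hb]
  · intro i j x hx y hy
    rw [diag_pair, add_mul, map_add, dC, dT, Finset.sum_mul, Finset.sum_mul, map_sum, map_sum]
    have e1 : ∀ l, W.tr (X.prod X) (W.map (fst X X) (s.bC l : W.H X) *
        W.map (snd X X) (s.uC l : W.H X) * (W.map (fst X X) x * W.map (snd X X) y)) =
        bil W X (s.bC l) x * bil W X (s.uC l) y := by
      intro l
      have h1 : W.map (snd X X) (s.uC l : W.H X) * W.map (fst X X) x =
          W.map (fst X X) x * W.map (snd X X) (s.uC l : W.H X) :=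
        alg_comm (algSpan_map _ (s.uC l).2) _
      rw [mul_assoc, ← mul_assoc (W.map (snd X X) _), h1, mul_assoc, ← mul_assoc, ← map_mul,
        ← map_mul, W.tr_prod]
      rfl
    have e2 : ∀ l, W.tr (X.prod X) (W.map (fst X X) (s.bT l : W.H X) *
        W.map (snd X X) (s.uT l : W.H X) * (W.map (fst X X) x * W.map (snd X X) y)) =
        (-1 : W.K) ^ X.dim * (bil W X (s.bT l) x * bil W X (s.uT l) y) := by
      intro l
      have h1 : W.map (snd X X) (s.uT l : W.H X) * W.map (fst X X) x =
          (-1 : W.K) ^ (X.dim * i) • (W.map (fst X X) x * W.map (snd X X) (s.uT l : W.H X)) :=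
        W.comm (W.map_mem _ (hmid (s.uT l).2)) (W.map_mem _ hx)
      rw [mul_assoc, ← mul_assoc (W.map (snd X X) _), h1, smul_mul_assoc, mul_smul_comm,
        mul_assoc, ← mul_assoc (W.map (fst X X) _), ← map_mul, ← map_mul, map_smul, W.tr_prod,
        smul_eq_mul]
      by_cases hi : i = X.dim
      · subst hi
        congr 1
        rcases Nat.even_or_odd X.dim with h | h
        · rw [h.neg_one_pow, (h.mul_left _).neg_one_pow]
        · rw [h.neg_one_pow, (h.mul h).neg_one_pow]
      · rw [bil_eq_zero (hmid (s.bT l).2) hx (by omega),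
          W.tr_eq_zero (W.mul_mem (hmid (s.bT l).2) hx) (by omega)]
        ring
    rw [Finset.sum_congr rfl fun l _ => e1 l, Finset.sum_congr rfl fun l _ => e2 l,
      ← Finset.mul_sum]
    obtain ⟨c, hc, t, ht, rfl⟩ := hdec x
    have e3 : ∑ l, bil W X (s.bC l) (c + t) * bil W X (s.uC l) y = bil W X c y := by
      conv_rhs => rw [expand_uC s hc]
      rw [map_sum, LinearMap.sum_apply]
      refine Finset.sum_congr rfl fun l _ => ?_
      rw [map_add, alg_trans ht (s.bC l).2, add_zero, map_smul, LinearMap.smul_apply, smul_eq_mul]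
    have e4 : (-1 : W.K) ^ X.dim * ∑ l, bil W X (s.bT l) (c + t) * bil W X (s.uT l) y =
        bil W X t y := by
      conv_rhs => rw [expand_uT s ht]
      rw [map_sum, LinearMap.sum_apply, Finset.mul_sum]
      refine Finset.sum_congr rfl fun l _ => ?_
      rw [map_add, trans_alg (s.bT l).2 hc, zero_add, map_smul, LinearMap.smul_apply,
        smul_eq_mul, trans_symm hmid ht (s.bT l).2]
      ring
    rw [e3, e4, map_add, LinearMap.add_apply]

/-- **The transcendental part of the diagonal is algebraic.** -/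
theorem dT_alg (hDX : HomEqNum W X) (hmid : transcendental W X ≤ W.gr X X.dim) (s : SB W X) :
    dT s ∈ algSpan W (X.prod X) := by
  have h1 : dT s = W.push (diag X) 1 - dC s := by
    rw [diag_eq hDX hmid s, add_sub_cancel_left]
  rw [h1]
  refine Submodule.sub_mem _ (alg_mem (alg_push (diag X) (i := X.dim) alg_one ?_))
    (Submodule.sum_mem _ fun i _ => algSpan_mul (algSpan_map _ (s.bC i).2)
      (algSpan_map _ (s.uC i).2))
  rw [dim_prod]
  omega

/-- the class given by the Gram matrix of the dual classes -/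
noncomputable def dQ (s : SB W X) : W.H (X.prod X) :=
  ∑ a : Fin 2 → Fin s.NT, bil W X (s.uT (a 0)) (s.uT (a 1)) •
    (W.map (fst X X) (s.bT (a 0)) * W.map (snd X X) (s.bT (a 1)))

theorem dQ_eq (hmid : transcendental W X ≤ W.gr X X.dim) (s : SB W X) :
    dQ s = (-1 : W.K) ^ X.dim • dT s := by
  have h1 : dQ s = ∑ i, ∑ j, bil W X (s.uT i) (s.uT j) •
      (W.map (fst X X) (s.bT i : W.H X) * W.map (snd X X) (s.bT j : W.H X)) := by
    have h2 := Fintype.sum_equiv (finTwoArrowEquiv (Fin s.NT))
      (fun a : Fin 2 → Fin s.NT => bil W X (s.uT (a 0)) (s.uT (a 1)) •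
        (W.map (fst X X) (s.bT (a 0) : W.H X) * W.map (snd X X) (s.bT (a 1) : W.H X)))
      (fun a => bil W X (s.uT a.1) (s.uT a.2) •
        (W.map (fst X X) (s.bT a.1 : W.H X) * W.map (snd X X) (s.bT a.2 : W.H X)))
      (fun a => rfl)
    rw [Fintype.sum_prod_type] at h2
    exact h2
  rw [h1, dT, Finset.smul_sum]
  refine Finset.sum_congr rfl fun i _ => ?_
  have h2 : (s.uT i : W.H X) = ∑ j, (-1 : W.K) ^ X.dim • (bil W X (s.uT i) (s.uT j) •
      (s.bT j : W.H X)) := by
    conv_lhs => rw [s.expand_T (s.uT i).2]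
    refine Finset.sum_congr rfl fun j _ => ?_
    rw [trans_symm hmid (s.uT j).2 (s.uT i).2, mul_smul]
  conv_rhs => rw [h2]
  rw [map_sum, Finset.mul_sum, Finset.smul_sum]
  refine Finset.sum_congr rfl fun j _ => ?_
  have h3 : (-1 : W.K) ^ X.dim * (-1 : W.K) ^ X.dim = 1 := by
    rw [← mul_pow]
    norm_num
  rw [map_smul, map_smul, mul_smul_comm, mul_smul_comm, smul_smul, h3, one_smul]

theorem dQ_alg (hDX : HomEqNum W X) (hmid : transcendental W X ≤ W.gr X X.dim) (s : SB W X) :
    dQ s ∈ algSpan W (X.prod X) := by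
  rw [dQ_eq hmid]
  exact Submodule.smul_mem _ _ (dT_alg hDX hmid s)

theorem dQ_gr (hmid : transcendental W X ≤ W.gr X X.dim) (s : SB W X) :
    dQ s ∈ W.gr (X.prod X) (2 * X.dim) := by
  rw [dQ]
  refine Submodule.sum_mem _ fun a _ => Submodule.smul_mem _ _ ?_
  rw [two_mul]
  exact W.mul_mem (W.map_mem _ (hmid (s.bT _).2)) (W.map_mem _ (hmid (s.bT _).2))

end Pool.Agent.TH125.Gal
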