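import Pool.Agent.TH125.Gal.Tower

/-!
# Positivity of the form on the algebraic classes of a product
-/

open CategoryTheory AlgebraicGeometry Finset

set_option linter.unusedSectionVars false

universe u v w

namespace Pool.Agent.TH125.Gal

open Pool.Agent.H914 Pool.Agent.H914.VarClass Pool.Agent.H914.VarClass.Obj
  Pool.Agent.H914.WeilCohomology Pool.Agent.H281R3.HT Pool.Agent.W552 Pool.Agent.H447

variable {k : Type u} [Field k] {𝒱 : VarClass k} {ops : CycleOps 𝒱}
  {W : WeilCohomology.{u, v} ops} {X Y Z A B : 𝒱.Obj}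

/-- A frame with a positive form on the algebraic classes. -/
structure Fp (W : WeilCohomology.{u, v} ops) (X : 𝒱.Obj) (D : X.Cycles)
    (f : Module.End W.K (W.H X)) : Prop where
  fr : Fr W X D f
  sy : Sy W X D f
  pos : ∀ x, W552.AS W X x → x ≠ 0 → ∃ q : ℚ, 0 < q ∧ bf W X D f x x = q

theorem as_algSpan {x : W.H X} (hx : W552.AS W X x) : x ∈ algSpan W X :=
  W552.AS.ind (p := fun x => x ∈ algSpan W X) (fun _ _ hx => alg_mem hx)
    (fun _ _ hx hy => Submodule.add_mem _ hx hy) hx

theorem algSpan_eq : algSpan W X = Submodule.span W.K {x | W552.AS W X x} := by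
  apply le_antisymm
  · apply Submodule.span_mono
    intro x hx
    obtain ⟨j, hj⟩ := Set.mem_iUnion.1 hx
    exact W552.AS.of hj
  · apply Submodule.span_le.2
    intro x hx
    exact as_algSpan hx

theorem par_AS {x : W.H X} (hx : W552.AS W X x) : par (W.isInternal X) x = x := by
  refine W552.AS.ind (p := fun y => par (W.isInternal X) y = y) ?_ ?_ hx
  · intro j y hy
    rw [par, scal_apply _ _ (alg_gr hy), pow_mul]
    simp
  · intro y y' hy hy'
    rw [map_add, hy, hy']

/-- Existence of the frame. -/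
theorem exists_Fp {D : X.Cycles} (hD : X.IsCyc 1 D) (hHL : HardLefschetz W X D)
    (hB : LefschetzB W X D) (hH : HodgeType W X D) : ∃ f, Fp W X D f ∧
      LefStr (W.isInternal X) X.dim (LinearMap.mulLeft W.K (W.cl X D)) f := by
  obtain ⟨f, F, hls⟩ := exists_fr hD hHL hB
  refine ⟨f, ⟨F, ?_, fun x hx hx0 => F.bf_pos hH hx hx0⟩, hls⟩
  intro x y
  have hbs : ∀ {i j : ℕ} {p q : W.H X}, p ∈ W.gr X i → q ∈ W.gr X j →
      bf W X D f q p = (-1 : W.K) ^ i * bf W X D f p q := by
    intro i j p q hp hq
    exact hls.form_symm (B := bil W X) (fun p q => by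
        rw [bil_apply, bil_apply, LinearMap.mulLeft_apply, LinearMap.mulLeft_apply, ← mul_assoc,
          alg_even_comm (W := W) ⟨D, hD, rfl⟩ p])
      (fun i j a ha b hb hij => W.tr_eq_zero (W.mul_mem ha hb) hij)
      (fun i j a ha b hb => by
        rw [bil_apply, bil_apply, W.comm ha hb, map_smul, smul_eq_mul]) hp hq
  refine gr_induction (W.isInternal X) (p := fun y => bf W X D f x y =
    bf W X D f (par (W.isInternal X) y) x) ?_ ?_ y
  swap
  · intro y y' hy hy'
    rw [map_add, hy, hy', map_add, map_add, LinearMap.add_apply]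
  intro j y hy
  refine gr_induction (W.isInternal X) (p := fun x => bf W X D f x y =
    bf W X D f (par (W.isInternal X) y) x) ?_ ?_ x
  swap
  · intro x x' hx hx'
    rw [map_add, LinearMap.add_apply, hx, hx', map_add]
  intro i x hx
  rw [par, scal_apply _ _ hy, map_smul, LinearMap.smul_apply, smul_eq_mul]
  exact hbs hy hx

namespace Fp

variable {D : X.Cycles} {f : Module.End W.K (W.H X)} (F : Fp W X D f)

include F

theorem symm {x y : W.H X} (hy : W552.AS W X y) : bf W X D f x y = bf W X D f y x := by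
  rw [F.sy x y, par_AS hy]

/-- **Orthogonal rational basis of the algebraic classes.** -/
theorem exists_onb : ∃ (N : ℕ) (e : Fin N → W.H X) (w : Fin N → ℚ), (∀ k, W552.AS W X (e k)) ∧
    (∀ k, 0 < w k) ∧ (∀ k l, bf W X D f (e k) (e l) = if k = l then (w k : W.K) else 0) ∧
    ∀ x ∈ algSpan W X, x = ∑ k, ((w k : W.K)⁻¹ * bf W X D f x (e k)) • e k := by
  obtain ⟨N, e, w, he, hw, horth, hspan⟩ := exists_ratBasis (W552.AS.ratSub (W := W) (X := X))
    (bf W X D f) (fun x y hx hy => F.fr.bf_rat hx hy) (fun x y hx hy => F.symm hy) F.pos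
  refine ⟨N, e, w, he, hw, horth, fun x hx => ?_⟩
  rw [algSpan_eq] at hx
  induction hx using Submodule.span_induction with
  | mem x hx =>
    obtain ⟨r, hr⟩ := hspan x (Submodule.subset_span hx) fun k => F.fr.bf_rat hx (he k)
    have h1 : ∀ k, bf W X D f x (e k) = r k * w k := by
      intro k
      rw [hr, map_sum, LinearMap.sum_apply, Finset.sum_eq_single k]
      · rw [map_smul, LinearMap.smul_apply, horth, if_pos rfl, smul_eq_mul]
      · intro l _ hl
        rw [map_smul, LinearMap.smul_apply, horth, if_neg hl, smul_zero]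
      · intro h
        exact absurd (Finset.mem_univ _) h
    conv_lhs => rw [hr]
    refine Finset.sum_congr rfl fun k _ => ?_
    have h2 : (w k : W.K) ≠ 0 := by exact_mod_cast (hw k).ne'
    rw [h1, mul_comm, mul_assoc, mul_inv_cancel₀ h2, mul_one]
  | zero => simp
  | add x y _ _ hx hy =>
    conv_lhs => rw [hx, hy]
    rw [← Finset.sum_add_distrib]
    refine Finset.sum_congr rfl fun k _ => ?_
    rw [map_add, LinearMap.add_apply, mul_add, add_smul]
  | smul q x _ hx =>
    conv_lhs => rw [hx]
    rw [Finset.smul_sum]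
    refine Finset.sum_congr rfl fun k _ => ?_
    rw [map_smul, LinearMap.smul_apply, smul_eq_mul, smul_smul]
    congr 1
    ring

/-- The conjectures of Hodge type and D. -/
theorem hodge : HodgeType W X D ∧ HomEqNum W X := by
  constructor
  · intro j hj z hz
    exact (F.fr.hodge hz (fun h => F.pos _ (W552.AS.of ⟨z, hz, rfl⟩) h)).1 hj
  · intro j hj z hz
    exact (F.fr.hodge hz (fun h => F.pos _ (W552.AS.of ⟨z, hz, rfl⟩) h)).2 hj

end Fp

end Pool.Agent.TH125.Gal
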