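import Pool.Agent.TH125.Gal.Kun

/-!
# The multilinear map given by a class on a product
-/

open CategoryTheory AlgebraicGeometry Finset

set_option linter.unusedSectionVars false

universe u v w

namespace Pool.Agent.TH125.Gal

open Pool.Agent.H914 Pool.Agent.H914.VarClass Pool.Agent.H914.VarClass.Obj
  Pool.Agent.H914.WeilCohomology Pool.Agent.H281R3.HT Pool.Agent.W552

variable {k : Type u} [Field k] {𝒱 : VarClass k} {ops : CycleOps 𝒱}
  {W : WeilCohomology.{u, v} ops}

/-- monomials as a multilinear map -/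
noncomputable def monoML {Y X : 𝒱.Obj} {n : ℕ} (π : Fin n → (Y ⟶ X)) :
    MultilinearMap W.K (fun _ : Fin n => W.H X) (W.H Y) :=
  (MultilinearMap.mkPiAlgebraFin W.K n (W.H Y)).compLinearMap fun p => (W.map (π p)).toLinearMap

theorem monoML_apply {Y X : 𝒱.Obj} {n : ℕ} (π : Fin n → (Y ⟶ X)) (a : Fin n → W.H X) :
    monoML π a = mono π a := rfl

section

variable {P : Polarized 𝒱} {J : Type} [Fintype J] {e : Module.Basis J W.K (W.H P.X)} {n : ℕ}
  {b : Module.Basis (Fin (n + 1) → J) W.K (W.H (nest ops n fun _ => P).X)}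
  (hb : ∀ r, b r = mono (prj ops n fun _ => P) fun p => e (r p))

/-- The linear form on the cohomology of a power given by linear forms on the cohomology of the
factors. -/
noncomputable def phi (e : Module.Basis J W.K (W.H P.X))
    (b : Module.Basis (Fin (n + 1) → J) W.K (W.H (nest ops n fun _ => P).X))
    (ψ : Fin (n + 1) → W.H P.X →ₗ[W.K] W.K) : W.H (nest ops n fun _ => P).X →ₗ[W.K] W.K :=
  b.constr W.K fun r => ∏ p, ψ p (e (r p))

include hb in
theorem phi_mono (ψ : Fin (n + 1) → W.H P.X →ₗ[W.K] W.K) (a : Fin (n + 1) → W.H P.X) :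
    phi e b ψ (mono (prj ops n fun _ => P) a) = ∏ p, ψ p (a p) := by
  have h1 : (phi e b ψ).compMultilinearMap (monoML (prj ops n fun _ => P)) =
      (MultilinearMap.mkPiAlgebra W.K (Fin (n + 1)) W.K).compLinearMap ψ := by
    refine Module.Basis.ext_multilinear (fun _ => e) fun r => ?_
    change phi e b ψ (mono (prj ops n fun _ => P) fun p => e (r p)) = ∏ p, ψ p (e (r p))
    rw [← hb, phi, Module.Basis.constr_basis]
  exact DFunLike.congr_fun h1 a

variable {Z : 𝒱.Obj}

/-- the multilinear map of a class -/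
noncomputable def hml (e : Module.Basis J W.K (W.H P.X))
    (b : Module.Basis (Fin (n + 1) → J) W.K (W.H (nest ops n fun _ => P).X))
    (c : W.H ((nest ops n fun _ => P).X.prod Z)) :
    MultilinearMap W.K (fun _ : Fin (n + 1) => W.H P.X) (W.H Z) :=
  ∑ r, ((MultilinearMap.mkPiAlgebra W.K (Fin (n + 1)) W.K).compLinearMap
    fun p => (bil W P.X).flip (e (r p))).smulRight (ctr (b.coord r) c)

include hb in
theorem hml_eq (c : W.H ((nest ops n fun _ => P).X.prod Z)) (v : Fin (n + 1) → W.H P.X) :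
    hml e b c v = ctr (phi e b fun p => bil W P.X (v p)) c := by
  conv_rhs => rw [expand b c]
  rw [map_sum, hml, _root_.sum_apply]
  refine Finset.sum_congr rfl fun r _ => ?_
  rw [ctr_apply, hb r, phi_mono hb]
  rfl

include hb in
/-- the multilinear map of an external product -/
theorem hml_mono (a : Fin (n + 1) → W.H P.X) (z : W.H Z) (v : Fin (n + 1) → W.H P.X) :
    hml e b (W.map (fst _ Z) (mono (prj ops n fun _ => P) a) * W.map (snd _ Z) z) v =
      (∏ p, bil W P.X (v p) (a p)) • z := by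
  rw [hml_eq hb, ctr_apply, phi_mono hb]

include hb in
theorem hml_add (c c' : W.H ((nest ops n fun _ => P).X.prod Z)) (v : Fin (n + 1) → W.H P.X) :
    hml e b (c + c') v = hml e b c v + hml e b c' v := by
  rw [hml_eq hb, hml_eq hb, hml_eq hb, map_add]

include hb in
theorem hml_smul (x : W.K) (c : W.H ((nest ops n fun _ => P).X.prod Z))
    (v : Fin (n + 1) → W.H P.X) : hml e b (x • c) v = x • hml e b c v := by
  rw [hml_eq hb, hml_eq hb, map_smul]

include hb in
theorem hml_sum {R : Type*} (s : Finset R) (c : R → W.H ((nest ops n fun _ => P).X.prod Z))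
    (v : Fin (n + 1) → W.H P.X) : hml e b (∑ r ∈ s, c r) v = ∑ r ∈ s, hml e b (c r) v := by
  rw [hml_eq hb, map_sum]
  exact Finset.sum_congr rfl fun r _ => (hml_eq hb _ _).symm

include hb in
/-- **equivariance** -/
theorem hml_equiv {ρ : W.H P.X ≃ₐ[W.K] W.H P.X} {τ : W.H Z ≃ₐ[W.K] W.H Z}
    {υ : W.H ((nest ops n fun _ => P).X.prod Z) ≃ₐ[W.K] W.H ((nest ops n fun _ => P).X.prod Z)}
    {x : W.K} (hρ : ∀ a b, bil W P.X (ρ a) (ρ b) = x * bil W P.X a b)
    (h1 : ∀ p a, υ (W.map (fst _ Z) (W.map (prj ops n (fun _ => P) p) a)) =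
      W.map (fst _ Z) (W.map (prj ops n (fun _ => P) p) (ρ a)))
    (h2 : ∀ z, υ (W.map (snd _ Z) z) = W.map (snd _ Z) (τ z))
    (c : W.H ((nest ops n fun _ => P).X.prod Z)) (v : Fin (n + 1) → W.H P.X) :
    hml e b (υ c) (fun p => ρ (v p)) = x ^ (n + 1) • τ (hml e b c v) := by
  have h3 : ∀ a : Fin (n + 1) → W.H P.X, υ (W.map (fst _ Z)
      (mono (prj ops n fun _ => P) a)) = W.map (fst _ Z)
        (mono (prj ops n fun _ => P) fun p => ρ (a p)) := by
    intro a
    rw [mono, mono, map_list_prod, map_list_prod, map_list_prod, List.map_ofFn, List.map_ofFn,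
      List.map_ofFn]
    congr 2
    funext p
    exact h1 p (a p)
  conv_lhs => rw [expand b c]
  conv_rhs => rw [expand b c]
  rw [map_sum, hml_sum hb, hml_sum hb, map_sum, Finset.smul_sum]
  refine Finset.sum_congr rfl fun r _ => ?_
  rw [map_mul, hb r, h3, h2, hml_mono hb, hml_mono hb, map_smul, smul_smul]
  congr 1
  simp only [hρ]
  rw [Finset.prod_mul_distrib, Finset.prod_const, Finset.card_univ, Fintype.card_fin]

end

end Pool.Agent.TH125.Gal
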