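import Pool.Agent.W552.Main

/-!
# Coordinates on products
-/

open CategoryTheory AlgebraicGeometry Finset

universe u v w

namespace Pool.Agent.TH125.Gal

open Pool.Agent.H914 Pool.Agent.H914.VarClass Pool.Agent.H914.VarClass.Obj
  Pool.Agent.H914.WeilCohomology Pool.Agent.H281R3.HT Pool.Agent.W552

variable {k : Type u} [Field k] {𝒱 : VarClass k} {ops : CycleOps 𝒱}
  {W : WeilCohomology.{u, v} ops}

/-- The Kunneth isomorphism. -/
noncomputable def kEquiv (W : WeilCohomology.{u, v} ops) (A Z : 𝒱.Obj) :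
    TensorProduct W.K (W.H A) (W.H Z) ≃ₗ[W.K] W.H (A.prod Z) :=
  LinearEquiv.ofBijective _ (W.kunneth A Z)

theorem kEquiv_tmul (A Z : 𝒱.Obj) (a : W.H A) (z : W.H Z) :
    kEquiv W A Z (a ⊗ₜ z) = W.map (fst A Z) a * W.map (snd A Z) z := rfl

theorem kEquiv_symm (A Z : 𝒱.Obj) (a : W.H A) (z : W.H Z) :
    (kEquiv W A Z).symm (W.map (fst A Z) a * W.map (snd A Z) z) = a ⊗ₜ z := by
  rw [← kEquiv_tmul, LinearEquiv.symm_apply_apply]

/-- Contraction with a linear form on the first factor. -/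
noncomputable def ctr {A Z : 𝒱.Obj} (φ : W.H A →ₗ[W.K] W.K) : W.H (A.prod Z) →ₗ[W.K] W.H Z :=
  (TensorProduct.lid W.K (W.H Z)).toLinearMap ∘ₗ (φ.rTensor (W.H Z)) ∘ₗ
    (kEquiv W A Z).symm.toLinearMap

theorem ctr_apply {A Z : 𝒱.Obj} (φ : W.H A →ₗ[W.K] W.K) (a : W.H A) (z : W.H Z) :
    ctr φ (W.map (fst A Z) a * W.map (snd A Z) z) = φ a • z := by
  change TensorProduct.lid W.K (W.H Z) (φ.rTensor (W.H Z) ((kEquiv W A Z).symm _)) = _
  rw [kEquiv_symm, LinearMap.rTensor_tmul, TensorProduct.lid_tmul]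

/-- Linear maps on a product are determined by the external products. -/
theorem kun_ext {A Z : 𝒱.Obj} {M : Type*} [AddCommGroup M] {L L' : W.H (A.prod Z) → M}
    (hL : ∀ a b, L (a + b) = L a + L b) (hL' : ∀ a b, L' (a + b) = L' a + L' b)
    (h : ∀ a z, L (W.map (fst A Z) a * W.map (snd A Z) z) =
      L' (W.map (fst A Z) a * W.map (snd A Z) z)) (c : W.H (A.prod Z)) : L c = L' c := by
  refine W.kunneth_induction (p := fun c => L c = L' c) ?_ ?_ c
  · intro a b ha hb
    rw [hL, hL', ha, hb]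
  · intro i j a _ b _
    exact h a b

/-- Expansion in a basis of the cohomology of the first factor. -/
theorem expand {A Z : 𝒱.Obj} {R : Type*} [Fintype R] (b : Module.Basis R W.K (W.H A))
    (c : W.H (A.prod Z)) :
    c = ∑ r, W.map (fst A Z) (b r) * W.map (snd A Z) (ctr (b.coord r) c) := by
  refine kun_ext (L := fun c => c) (L' := fun c => ∑ r, W.map (fst A Z) (b r) *
    W.map (snd A Z) (ctr (b.coord r) c)) (fun _ _ => rfl) ?_ ?_ c
  · intro a c
    rw [← Finset.sum_add_distrib]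
    refine Finset.sum_congr rfl fun r _ => ?_
    rw [map_add, map_add, mul_add]
  · intro a z
    simp only [ctr_apply, map_smul]
    have h1 : ∀ r, W.map (fst A Z) (b r) * b.coord r a • W.map (snd A Z) z =
        W.map (fst A Z) (b.repr a r • b r) * W.map (snd A Z) z := by
      intro r
      rw [map_smul, smul_mul_assoc, mul_smul_comm]
      rfl
    rw [Finset.sum_congr rfl fun r _ => h1 r, ← Finset.sum_mul, ← map_sum, b.sum_repr]

/-- A basis of the cohomology of a product. -/
noncomputable def prodBasis {A Z : 𝒱.Obj} {R R' : Type} [Fintype R] [Fintype R']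
    (b : Module.Basis R W.K (W.H A)) (b' : Module.Basis R' W.K (W.H Z)) :
    Module.Basis (R × R') W.K (W.H (A.prod Z)) :=
  (b.tensorProduct b').map (kEquiv W A Z)

theorem prodBasis_apply {A Z : 𝒱.Obj} {R R' : Type} [Fintype R] [Fintype R']
    (b : Module.Basis R W.K (W.H A)) (b' : Module.Basis R' W.K (W.H Z)) (r : R × R') :
    prodBasis b b' r = W.map (fst A Z) (b r.1) * W.map (snd A Z) (b' r.2) := by
  rw [prodBasis, Module.Basis.map_apply, Module.Basis.tensorProduct_apply, kEquiv_tmul]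

/-- monomials -/
noncomputable def mono {Y X : 𝒱.Obj} {n : ℕ} (π : Fin n → (Y ⟶ X)) (a : Fin n → W.H X) :
    W.H Y := (List.ofFn fun p => W.map (π p) (a p)).prod

theorem mono_succ {Y X : 𝒱.Obj} {n : ℕ} (π : Fin (n + 1) → (Y ⟶ X)) (a : Fin (n + 1) → W.H X) :
    mono π a = W.map (π 0) (a 0) * mono (fun p => π p.succ) (fun p => a p.succ) := by
  rw [mono, List.ofFn_succ, List.prod_cons]
  rfl

theorem mono_one {Y X : 𝒱.Obj} (π : Fin 1 → (Y ⟶ X)) (a : Fin 1 → W.H X) :
    mono π a = W.map (π 0) (a 0) := by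
  rw [mono_succ, mono, List.ofFn_zero, List.prod_nil, mul_one]

theorem map_mono {Y Y' X : 𝒱.Obj} {n : ℕ} (f : Y' ⟶ Y) (π : Fin n → (Y ⟶ X))
    (a : Fin n → W.H X) : W.map f (mono π a) = mono (fun p => f ≫ π p) a := by
  rw [mono, mono, map_list_prod, List.map_ofFn]
  congr 2
  funext p
  exact (W.map_comp _ _ _).symm

/-- **The basis of monomials.** -/
theorem exists_monoBasis (P : Polarized 𝒱) {J : Type} [Fintype J]
    (e : Module.Basis J W.K (W.H P.X)) (n : ℕ) :
    ∃ b : Module.Basis (Fin (n + 1) → J) W.K (W.H (nest ops n fun _ => P).X),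
      ∀ r, b r = mono (prj ops n fun _ => P) fun p => e (r p) := by
  induction n with
  | zero =>
    refine ⟨e.reindex (Equiv.funUnique (Fin 1) J).symm, fun r => ?_⟩
    have h1 : e.reindex (Equiv.funUnique (Fin 1) J).symm r = e (r 0) :=
      Module.Basis.reindex_apply _ _ _
    exact h1.trans ((W.map_id P.X (e (r 0))).symm.trans
      (mono_one (prj ops 0 fun _ => P) (fun p => e (r p))).symm)
  | succ n ih =>
    obtain ⟨b, hb⟩ := ih
    refine ⟨(prodBasis e b).reindex (Fin.consEquiv fun _ => J), fun r => ?_⟩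
    have h1 : (prodBasis e b).reindex (Fin.consEquiv fun _ => J) r =
        W.map (fst P.X (nest ops n fun _ => P).X) (e (r 0)) *
          W.map (snd P.X (nest ops n fun _ => P).X) (b fun p => r p.succ) := by
      rw [Module.Basis.reindex_apply, prodBasis_apply]
      rfl
    rw [hb, map_mono] at h1
    exact h1.trans (mono_succ (prj ops (n + 1) fun _ => P) fun p => e (r p)).symm

end Pool.Agent.TH125.Gal
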