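import Mathlib

/-!
# Products over permuted lists and sums of products
-/

open Finset Function

namespace Pool.Agent.TH125.Gal

universe u v

variable {K : Type u} [Field K] {A : Type v} [Ring A] [Algebra K A]

/-- Products over permuted lists. -/
theorem perm_sign {Λ : Type} (D : Λ → ℕ) {L L' : List Λ} (h : L.Perm L') (hnd : L.Nodup) :
    ∃ ε : ℤ, ε * ε = 1 ∧ ∀ x : Λ → A,
      (∀ p q, p ≠ q → x p * x q = (-1 : K) ^ (D p * D q) • (x q * x p)) →
      (L'.map x).prod = (ε : K) • (L.map x).prod := by
  induction h with
  | nil => exact ⟨1, by norm_num, fun x _ => by simp⟩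
  | @cons a l l' h ih =>
    obtain ⟨ε, h1, h2⟩ := ih (List.nodup_cons.1 hnd).2
    refine ⟨ε, h1, fun x hx => ?_⟩
    rw [List.map_cons, List.prod_cons, List.map_cons, List.prod_cons, h2 x hx, mul_smul_comm]
  | @swap a b l =>
    refine ⟨(-1) ^ (D a * D b), ?_, fun x hx => ?_⟩
    · rw [← mul_pow]
      norm_num
    · have hab : a ≠ b := by
        rintro rfl
        exact (List.nodup_cons.1 hnd).1 List.mem_cons_self
      rw [List.map_cons, List.prod_cons, List.map_cons, List.prod_cons, List.map_cons,
        List.prod_cons, List.map_cons, List.prod_cons, ← mul_assoc, hx a b hab, smul_mul_assoc,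
        mul_assoc]
      push_cast
      rfl
  | @trans l l' l'' h h' ih ih' =>
    obtain ⟨ε, h1, h2⟩ := ih hnd
    obtain ⟨ε', h1', h2'⟩ := ih' (h.nodup_iff.1 hnd)
    refine ⟨ε' * ε, ?_, fun x hx => ?_⟩
    · calc ε' * ε * (ε' * ε) = (ε' * ε') * (ε * ε) := by ring
        _ = 1 := by rw [h1, h1', one_mul]
    · rw [h2' x hx, h2 x hx, smul_smul]
      push_cast
      rfl

/-- Sums of products. -/
theorem sum_prod {m : ℕ} {α : Type} [Fintype α] [DecidableEq α] (q : Fin m → α → K)
    (F : Fin m → α → A) :
    ∑ g : Fin m → α, (∏ l, q l (g l)) • (List.ofFn fun l => F l (g l)).prod =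
      (List.ofFn fun l => ∑ a, q l a • F l a).prod := by
  have h1 := (MultilinearMap.mkPiAlgebraFin K m A).map_sum (fun l a => q l a • F l a)
  simp only [MultilinearMap.mkPiAlgebraFin_apply] at h1
  rw [h1]
  refine Finset.sum_congr rfl fun g _ => ?_
  have h2 := (MultilinearMap.mkPiAlgebraFin K m A).map_smul_univ (fun l => q l (g l))
    (fun l => F l (g l))
  simp only [MultilinearMap.mkPiAlgebraFin_apply] at h2
  exact h2.symm

section pattern

variable {JC JT : Type} {N : ℕ}

/-- The positions of the pattern which are not fixed. -/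
abbrev Free (c : Fin N → Option JC) : Type := {p : Fin N // c p = none}

/-- Filling the free positions of a pattern. -/
def comb (c : Fin N → Option JC) (r : Free c → JT) (p : Fin N) : JC ⊕ JT :=
  match h : c p with
  | some i => Sum.inl i
  | none => Sum.inr (r ⟨p, h⟩)

theorem comb_none {c : Fin N → Option JC} (r : Free c → JT) (p : Free c) :
    comb c r p.1 = Sum.inr (r p) := by
  unfold comb
  split
  · rename_i i h
    rw [p.2] at h
    cases h
  · rfl

theorem comb_some {c : Fin N → Option JC} (r : Free c → JT) {p : Fin N} {i : JC}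
    (h : c p = some i) : comb c r p = Sum.inl i := by
  unfold comb
  split
  · rename_i j h'
    rw [h] at h'
    cases h'
    rfl
  · rename_i h'
    rw [h] at h'
    cases h'

/-- the pattern of an index function -/
def pat (r : Fin N → JC ⊕ JT) (p : Fin N) : Option JC := (r p).elim some fun _ => none

theorem pat_comb (c : Fin N → Option JC) (r : Free c → JT) : pat (comb c r) = c := by
  funext p
  cases h : c p with
  | none =>
    rw [pat, comb_none r ⟨p, h⟩]
    rfl
  | some i =>
    rw [pat, comb_some r h]
    rfl

/-- Sums over all index functions. -/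
theorem sum_patterns [Fintype JC] [DecidableEq JC] [Fintype JT] [DecidableEq JT] {M : Type*}
    [AddCommMonoid M] (F : (Fin N → JC ⊕ JT) → M) :
    ∑ s, F s = ∑ c : Fin N → Option JC, ∑ r : Free c → JT, F (comb c r) := by
  rw [← Finset.sum_fiberwise Finset.univ (pat (JC := JC) (JT := JT))]
  refine Finset.sum_congr rfl fun c _ => ?_
  symm
  refine Finset.sum_bij (fun r _ => comb c r) ?_ ?_ ?_ ?_
  · intro r _
    rw [Finset.mem_filter]
    exact ⟨Finset.mem_univ _, pat_comb c r⟩
  · intro r _ r' _ h
    funext p
    have h1 := congrFun h p.1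
    beta_reduce at h1
    rw [comb_none, comb_none] at h1
    exact Sum.inr_injective h1
  · intro s hs
    rw [Finset.mem_filter] at hs
    obtain ⟨-, rfl⟩ := hs
    have h1 : ∀ p : Free (pat s), ∃ j : JT, s p.1 = Sum.inr j := by
      rintro ⟨p, hp⟩
      unfold pat at hp
      cases h : s p with
      | inl i => rw [h] at hp; cases hp
      | inr j => exact ⟨j, rfl⟩
    choose r hr using h1
    refine ⟨r, Finset.mem_univ _, ?_⟩
    funext p
    cases h : pat s p with
    | none =>
      rw [comb_none r ⟨p, h⟩]
      exact (hr ⟨p, h⟩).symm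
    | some i =>
      rw [comb_some r h]
      unfold pat at h
      cases h' : s p with
      | inl j =>
        rw [h'] at h
        cases h
        rfl
      | inr j => rw [h'] at h; cases h
  · intro r _
    rfl

/-- the list of the positions in pairs -/
def pairList {c : Fin N → Option JC} {m : ℕ} (e : Fin m × Fin 2 ≃ Free c) : List (Fin N) :=
  (List.finRange m).flatMap fun l => [(e (l, 0)).1, (e (l, 1)).1]

/-- the list of the fixed positions -/
def fixList (c : Fin N → Option JC) : List (Fin N) :=
  (List.finRange N).filter fun p => (c p).isSome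

theorem mem_pairList {c : Fin N → Option JC} {m : ℕ} (e : Fin m × Fin 2 ≃ Free c) (p : Fin N) :
    p ∈ pairList e ↔ c p = none := by
  rw [pairList, List.mem_flatMap]
  constructor
  · rintro ⟨l, -, h⟩
    simp only [List.mem_cons, List.not_mem_nil, or_false] at h
    rcases h with h | h
    · rw [h]; exact (e (l, 0)).2
    · rw [h]; exact (e (l, 1)).2
  · intro h
    obtain ⟨⟨l, i⟩, hl⟩ := e.surjective ⟨p, h⟩
    refine ⟨l, List.mem_finRange l, ?_⟩
    simp only [List.mem_cons, List.not_mem_nil, or_false]
    fin_cases i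
    · left
      exact (congrArg Subtype.val hl).symm
    · right
      exact (congrArg Subtype.val hl).symm

theorem mem_fixList (c : Fin N → Option JC) (p : Fin N) : p ∈ fixList c ↔ c p ≠ none := by
  rw [fixList, List.mem_filter]
  simp [Option.isSome_iff_ne_none]

theorem nodup_pairList {c : Fin N → Option JC} {m : ℕ} (e : Fin m × Fin 2 ≃ Free c) :
    (pairList e).Nodup := by
  rw [pairList, List.nodup_flatMap]
  refine ⟨fun l _ => ?_, ?_⟩
  · rw [List.nodup_cons]
    refine ⟨?_, List.nodup_singleton _⟩
    rw [List.mem_singleton]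
    intro h
    have h1 := e.injective (Subtype.ext h)
    have h2 := (Prod.mk.inj h1).2
    exact absurd h2 (by decide)
  · refine (List.nodup_finRange m).imp_of_mem ?_
    intro l l' _ _ hll
    simp only [Function.onFun]
    intro p hp hp'
    simp only [List.mem_cons, List.not_mem_nil, or_false] at hp hp'
    have key : ∀ i i', (e (l, i)).1 ≠ (e (l', i')).1 := by
      intro i i' h
      exact hll (Prod.mk.inj (e.injective (Subtype.ext h))).1
    rcases hp with h | h <;> rcases hp' with h' | h' <;> exact key _ _ (h.symm.trans h')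

theorem perm_lists {c : Fin N → Option JC} {m : ℕ} (e : Fin m × Fin 2 ≃ Free c) :
    (List.finRange N).Perm (pairList e ++ fixList c) := by
  refine (List.perm_ext_iff_of_nodup (List.nodup_finRange N) ?_).2 fun p => ?_
  · rw [List.nodup_append]
    refine ⟨nodup_pairList e, (List.nodup_finRange N).filter _, ?_⟩
    intro p hp q hq h
    rw [mem_pairList] at hp
    rw [mem_fixList] at hq
    rw [h] at hp
    exact hq hp
  · rw [List.mem_append, mem_pairList, mem_fixList]
    simp only [List.mem_finRange, true_iff]
    exact em _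

/-- **Sums of monomials over the free positions of a pattern.** -/
theorem sum_pattern [Fintype JT] [DecidableEq JT] {E : Fin N → JC ⊕ JT → A} {dg : JC ⊕ JT → ℕ}
    {d : ℕ} (hd : ∀ j, dg (Sum.inr j) = d)
    (hE : ∀ p q, p ≠ q → ∀ i j, E p i * E q j = (-1 : K) ^ (dg i * dg j) • (E q j * E p i))
    {c : Fin N → Option JC} {m : ℕ} (e : Fin m × Fin 2 ≃ Free c) (Q : JT → JT → K) :
    ∃ ε : ℤ, ∑ r : Free c → JT, (∏ l, Q (r (e (l, 0))) (r (e (l, 1)))) •
        (List.ofFn fun p => E p (comb c r p)).prod =
      (ε : K) • ((List.ofFn fun l : Fin m => ∑ a : Fin 2 → JT, Q (a 0) (a 1) •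
        (E (e (l, 0)).1 (Sum.inr (a 0)) * E (e (l, 1)).1 (Sum.inr (a 1)))).prod *
        ((fixList c).map fun p => (c p).elim 1 fun i => E p (Sum.inl i)).prod) := by
  obtain ⟨ε, h1, h2⟩ := perm_sign (K := K) (A := A)
    (fun p => (c p).elim d fun i => dg (Sum.inl i)) (perm_lists e) (List.nodup_finRange N)
  refine ⟨ε, ?_⟩
  have hdeg : ∀ (r : Free c → JT) p, dg (comb c r p) = (c p).elim d fun i => dg (Sum.inl i) := by
    intro r p
    cases h : c p with
    | none => rw [comb_none r ⟨p, h⟩, hd]; rfl
    | some i => rw [comb_some r h]; rfl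
  have h3 : ∀ r : Free c → JT, (List.ofFn fun p => E p (comb c r p)).prod =
      (ε : K) • ((List.ofFn fun l : Fin m =>
        E (e (l, 0)).1 (Sum.inr (r (e (l, 0)))) * E (e (l, 1)).1 (Sum.inr (r (e (l, 1))))).prod *
        ((fixList c).map fun p => (c p).elim 1 fun i => E p (Sum.inl i)).prod) := by
    intro r
    have h4 := h2 (fun p => E p (comb c r p)) fun p q hpq => by
      rw [hE p q hpq, hdeg, hdeg]
    have h5 : ((pairList e).map fun p => E p (comb c r p)).prod = (List.ofFn fun l : Fin m =>
        E (e (l, 0)).1 (Sum.inr (r (e (l, 0)))) *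
          E (e (l, 1)).1 (Sum.inr (r (e (l, 1))))).prod := by
      rw [pairList, List.map_flatMap, List.ofFn_eq_map]
      generalize List.finRange m = L
      induction L with
      | nil => rfl
      | cons l L ih =>
        rw [List.flatMap_cons, List.prod_append, ih, List.map_cons, List.prod_cons]
        congr 1
        simp only [List.map_cons, List.map_nil, List.prod_cons, List.prod_nil, mul_one]
        rw [comb_none, comb_none]
    have h6 : ((fixList c).map fun p => E p (comb c r p)) =
        ((fixList c).map fun p => (c p).elim 1 fun i => E p (Sum.inl i)) := by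
      refine List.map_congr_left fun p hp => ?_
      rw [mem_fixList] at hp
      cases h : c p with
      | none => exact absurd h hp
      | some i => rw [comb_some r h]; rfl
    rw [List.map_append, List.prod_append, h5, h6] at h4
    rw [List.ofFn_eq_map, h4, smul_smul]
    have h7 : (ε : K) * (ε : K) = 1 := by
      rw [← Int.cast_mul, h1, Int.cast_one]
    rw [h7, one_smul]
  have h8 : ∑ r : Free c → JT, (∏ l, Q (r (e (l, 0))) (r (e (l, 1)))) •
      (List.ofFn fun l : Fin m =>
        E (e (l, 0)).1 (Sum.inr (r (e (l, 0)))) * E (e (l, 1)).1 (Sum.inr (r (e (l, 1))))).prod =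
      (List.ofFn fun l : Fin m => ∑ a : Fin 2 → JT, Q (a 0) (a 1) •
        (E (e (l, 0)).1 (Sum.inr (a 0)) * E (e (l, 1)).1 (Sum.inr (a 1)))).prod := by
    rw [← sum_prod]
    refine Fintype.sum_equiv ((Equiv.arrowCongr e.symm (Equiv.refl JT)).trans
      (Equiv.curry _ _ _)) _ _ fun r => ?_
    rfl
  rw [← h8, Finset.sum_mul, Finset.smul_sum]
  refine Finset.sum_congr rfl fun r _ => ?_
  rw [h3, smul_comm, smul_mul_assoc]

end pattern

end Pool.Agent.TH125.Gal
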