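import Pool.Agent.TH125.Gal.Diag
import Pool.Agent.TH125.Gal.Rec

/-!
# Products of algebraic classes on factors and of diagonal classes on pairs of factors
-/

open CategoryTheory AlgebraicGeometry Finset

set_option linter.unusedSectionVars false

universe u v w

namespace Pool.Agent.TH125.Gal

open Pool.Agent.H914 Pool.Agent.H914.VarClass Pool.Agent.H914.VarClass.Obj
  Pool.Agent.H914.WeilCohomology Pool.Agent.H281R3.HT Pool.Agent.W552

variable {k : Type u} [Field k] {𝒱 : VarClass k} {ops : CycleOps 𝒱}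
  {W : WeilCohomology.{u, v} ops} {X Y Z : 𝒱.Obj}

/-- Products of algebraic classes on factors and of diagonal classes on pairs of factors. -/
inductive Mq (s : SB W X) {N : ℕ} (π : Fin N → (Y ⟶ X)) : Finset (Fin N) → ℕ → W.H Y → Prop
  | one : Mq s π ∅ 0 1
  | single {S i c p} (l : Fin s.NC) : Mq s π S i c → p ∉ S →
      Mq s π (insert p S) (s.jC l + i) (W.map (π p) (s.bC l) * c)
  | pair {S i c p q} : Mq s π S i c → p ∉ S → q ∉ S → p ≠ q →
      Mq s π (insert p (insert q S)) (X.dim + i) (W.map (Obj.lift (π p) (π q)) (dQ s) * c)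

variable {s : SB W X} {N : ℕ} {π : Fin N → (Y ⟶ X)}

theorem Mq.gr (hmid : transcendental W X ≤ W.gr X X.dim) {S : Finset (Fin N)} {i : ℕ}
    {c : W.H Y} (h : Mq s π S i c) : c ∈ W.gr Y (2 * i) := by
  induction h with
  | one => exact W.one_mem Y
  | single l _ _ ih =>
    rw [mul_add]
    exact W.mul_mem (W.map_mem _ (alg_gr (s.alg l))) ih
  | pair _ _ _ _ ih =>
    rw [mul_add]
    exact W.mul_mem (W.map_mem _ (dQ_gr hmid s)) ih

theorem Mq.alg (hDX : HomEqNum W X) (hmid : transcendental W X ≤ W.gr X X.dim)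
    {S : Finset (Fin N)} {i : ℕ} {c : W.H Y} (h : Mq s π S i c) : c ∈ algSpan W Y := by
  induction h with
  | one => exact algSpan_one
  | single l _ _ ih => exact algSpan_mul (algSpan_map _ (s.bC l).2) ih
  | pair _ _ _ _ ih => exact algSpan_mul (algSpan_map _ (dQ_alg hDX hmid s)) ih

/-- the fixed positions -/
theorem mq_fix (c : Fin N → Option (Fin s.NC)) (L : List (Fin N)) (hL : L.Nodup)
    (hc : ∀ p ∈ L, c p ≠ none) : ∃ i, Mq s π L.toFinset i
      (L.map fun p => (c p).elim 1 fun i => W.map (π p) (s.bC i)).prod := by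
  induction L with
  | nil => exact ⟨0, Mq.one⟩
  | cons p L ih =>
    obtain ⟨i, hi⟩ := ih (List.nodup_cons.1 hL).2 fun q hq => hc q (List.mem_cons_of_mem _ hq)
    rw [List.map_cons, List.prod_cons, List.toFinset_cons]
    cases h : c p with
    | none => exact absurd h (hc p List.mem_cons_self)
    | some l =>
      exact ⟨_, Mq.single l hi (fun h0 => (List.nodup_cons.1 hL).1 (List.mem_toFinset.1 h0))⟩

/-- the pairs -/
theorem mq_pairs {c : Fin N → Option (Fin s.NC)} {m : ℕ} (e : Fin m × Fin 2 ≃ Free c)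
    {S : Finset (Fin N)} {i : ℕ} {x : W.H Y} (hx : Mq s π S i x) (hS : ∀ p ∈ S, c p ≠ none)
    (L : List (Fin m)) (hL : L.Nodup) : ∃ S' i', (∀ p ∈ S', c p ≠ none ∨
      ∃ l ∈ L, ∃ j, p = (e (l, j)).1) ∧ Mq s π S' i'
        ((L.map fun l => W.map (Obj.lift (π (e (l, 0)).1) (π (e (l, 1)).1)) (dQ s)).prod * x) := by
  induction L with
  | nil =>
    refine ⟨S, i, fun p hp => Or.inl (hS p hp), ?_⟩
    rw [List.map_nil, List.prod_nil, one_mul]
    exact hx
  | cons l L ih =>
    obtain ⟨S', i', hS', h⟩ := ih (List.nodup_cons.1 hL).2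
    have hnot : ∀ j, (e (l, j)).1 ∉ S' := by
      intro j hj
      rcases hS' _ hj with h1 | ⟨l', hl', j', h1⟩
      · exact h1 (e (l, j)).2
      · have h2 := (Prod.mk.inj (e.injective (Subtype.ext h1))).1
        rw [h2] at hL
        exact (List.nodup_cons.1 hL).1 hl'
    refine ⟨insert (e (l, 0)).1 (insert (e (l, 1)).1 S'), X.dim + i', ?_, ?_⟩
    · intro p hp
      rw [Finset.mem_insert, Finset.mem_insert] at hp
      rcases hp with h1 | h1 | h1
      · exact Or.inr ⟨l, List.mem_cons_self, 0, h1⟩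
      · exact Or.inr ⟨l, List.mem_cons_self, 1, h1⟩
      · rcases hS' p h1 with h2 | ⟨l', hl', j', h2⟩
        · exact Or.inl h2
        · exact Or.inr ⟨l', List.mem_cons_of_mem _ hl', j', h2⟩
    · rw [List.map_cons, List.prod_cons, mul_assoc]
      refine Mq.pair h (hnot 0) (hnot 1) ?_
      intro h1
      have h2 := (Prod.mk.inj (e.injective (Subtype.ext h1))).2
      exact absurd h2 (by decide)

/-- the degrees of the basis -/
noncomputable def SB.dg (s : SB W X) (i : Fin s.NC ⊕ Fin s.NT) : ℕ :=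
  i.elim (fun i => 2 * s.jC i) fun _ => X.dim

theorem SB.e_gr (hmid : transcendental W X ≤ W.gr X X.dim) (s : SB W X)
    (i : Fin s.NC ⊕ Fin s.NT) : s.e i ∈ W.gr X (s.dg i) := by
  rcases i with i | i
  · rw [s.e_inl]
    exact alg_gr (s.alg i)
  · rw [s.e_inr]
    exact hmid (s.bT i).2

/-- **The sums over the free positions.** -/
theorem mq_sum (hmid : transcendental W X ≤ W.gr X X.dim) {c : Fin N → Option (Fin s.NC)} {m : ℕ}
    (e : Fin m × Fin 2 ≃ Free c) : ∃ (ε : ℤ) (S : Finset (Fin N)) (i : ℕ) (x : W.H Y),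
      Mq s π S i x ∧ ∑ r : Free c → Fin s.NT,
        (∏ l, bil W X (s.uT (r (e (l, 0)))) (s.uT (r (e (l, 1))))) •
        mono π (fun p => s.e (comb c r p)) = (ε : W.K) • x := by
  obtain ⟨ε, hε⟩ := sum_pattern (K := W.K) (E := fun p i => W.map (π p) (s.e i)) (dg := s.dg)
    (d := X.dim) (fun _ => rfl) (fun p q _ i j => W.comm (W.map_mem _ (s.e_gr hmid i))
      (W.map_mem _ (s.e_gr hmid j))) e (fun i j => bil W X (s.uT i) (s.uT j))
  obtain ⟨i, hi⟩ := mq_fix (s := s) (π := π) c (fixList c) ((List.nodup_finRange N).filter _)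
    fun p hp => (mem_fixList c p).1 hp
  obtain ⟨S', i', -, h⟩ := mq_pairs e hi (fun p hp => (mem_fixList c p).1
    (List.mem_toFinset.1 hp)) (List.finRange m) (List.nodup_finRange m)
  refine ⟨ε, S', i', _, h, hε.trans ?_⟩
  congr 2
  · rw [List.ofFn_eq_map]
    congr 2
    funext l
    rw [dQ, map_sum]
    refine Finset.sum_congr rfl fun a _ => ?_
    rw [map_smul, map_mul, ← W.map_comp, ← W.map_comp, Obj.lift_fst, Obj.lift_snd, s.e_inr,
      s.e_inr]
  · congr 2
    funext p
    cases c p with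
    | none => rfl
    | some l =>
      change W.map (π p) (s.e (Sum.inl l)) = W.map (π p) (s.bC l : W.H X)
      rw [s.e_inl]

end Pool.Agent.TH125.Gal
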