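import Pool.Agent.TH125.Gal.Sqr

/-!
# Positivity of the form on powers
-/

open CategoryTheory AlgebraicGeometry Finset

set_option linter.unusedSectionVars false

universe u v w

namespace Pool.Agent.TH125.Gal

open Pool.Agent.H914 Pool.Agent.H914.VarClass Pool.Agent.H914.VarClass.Obj
  Pool.Agent.H914.WeilCohomology Pool.Agent.H281R3.HT Pool.Agent.W552 Pool.Agent.H447

variable {k : Type u} [Field k] {𝒱 : VarClass k} {ops : CycleOps 𝒱}
  {W : WeilCohomology.{u, v} ops} {X Y Z A B : 𝒱.Obj}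

/-- Contraction with a linear form on the second factor. -/
noncomputable def ctr2 {A Z : 𝒱.Obj} (φ : W.H Z →ₗ[W.K] W.K) : W.H (A.prod Z) →ₗ[W.K] W.H A :=
  (TensorProduct.rid W.K (W.H A)).toLinearMap ∘ₗ (φ.lTensor (W.H A)) ∘ₗ
    (kEquiv W A Z).symm.toLinearMap

theorem ctr2_apply {A Z : 𝒱.Obj} (φ : W.H Z →ₗ[W.K] W.K) (a : W.H A) (z : W.H Z) :
    ctr2 φ (W.map (fst A Z) a * W.map (snd A Z) z) = φ z • a := by
  change TensorProduct.rid W.K (W.H A) (φ.lTensor (W.H A) ((kEquiv W A Z).symm _)) = _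
  rw [kEquiv_symm, LinearMap.lTensor_tmul, TensorProduct.rid_tmul]

/-- classes on the first factor of a product -/
theorem mq_of_fst {P : Polarized 𝒱} {n : ℕ} {s : SB W P.X} (h1 : (1 : W.H Z) ≠ 0)
    {m : W.H (nest ops n fun _ => P).X} (h : W.map (fst _ Z) m ∈ Tgt s n Z) :
    m ∈ Submodule.span W.K {m | ∃ S i, Mq s (prj ops n fun _ => P) S i m} := by
  obtain ⟨φ, hφ⟩ : ∃ φ : W.H Z →ₗ[W.K] W.K, φ 1 = 1 := by
    obtain ⟨φ, hφ⟩ : ∃ φ : Module.Dual W.K (W.H Z), φ 1 ≠ 0 := by
      by_contra hcon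
      push Not at hcon
      exact h1 ((Module.forall_dual_apply_eq_zero_iff W.K _).1 hcon)
    exact ⟨(φ 1)⁻¹ • φ, by rw [LinearMap.smul_apply, smul_eq_mul, inv_mul_cancel₀ hφ]⟩
  have h2 : ∀ c ∈ Tgt s n Z, ctr2 φ c ∈
      Submodule.span W.K {m | ∃ S i, Mq s (prj ops n fun _ => P) S i m} := by
    intro c hc
    induction hc using Submodule.span_induction with
    | mem c hc =>
      obtain ⟨S, i, m, w, hm, rfl⟩ := hc
      rw [ctr2_apply]
      exact Submodule.smul_mem _ _ (Submodule.subset_span ⟨S, i, hm⟩)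
    | zero => rw [map_zero]; exact Submodule.zero_mem _
    | add x y _ _ hx hy => rw [map_add]; exact Submodule.add_mem _ hx hy
    | smul q x _ hx => rw [map_smul]; exact Submodule.smul_mem _ _ hx
  have h3 := h2 _ h
  have h4 : W.map (fst _ Z) m = W.map (fst _ Z) m * W.map (snd _ Z) 1 := by
    rw [map_one, mul_one]
  rwa [h4, ctr2_apply, hφ, one_smul] at h3

/-- the external products of algebraic classes -/
noncomputable def EE (W : WeilCohomology.{u, v} ops) (A B : 𝒱.Obj) :
    Submodule W.K (W.H (A.prod B)) :=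
  Submodule.span W.K {c | ∃ a ∈ algSpan W A, ∃ b ∈ algSpan W B, c = H281R3.HT.ext W a b}

theorem ee_fst {a : W.H A} (ha : a ∈ algSpan W A) {c : W.H (A.prod B)} (hc : c ∈ EE W A B) :
    W.map (fst A B) a * c ∈ EE W A B := by
  induction hc using Submodule.span_induction with
  | mem c hc =>
    obtain ⟨a', ha', b, hb, rfl⟩ := hc
    refine Submodule.subset_span ⟨a * a', algSpan_mul ha ha', b, hb, ?_⟩
    rw [H281R3.HT.ext, H281R3.HT.ext, map_mul, mul_assoc]
  | zero => rw [mul_zero]; exact Submodule.zero_mem _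
  | add x y _ _ hx hy => rw [mul_add]; exact Submodule.add_mem _ hx hy
  | smul q x _ hx => rw [mul_smul_comm]; exact Submodule.smul_mem _ _ hx

theorem ee_snd {b : W.H B} (hb : b ∈ algSpan W B) {c : W.H (A.prod B)} (hc : c ∈ EE W A B) :
    W.map (snd A B) b * c ∈ EE W A B := by
  induction hc using Submodule.span_induction with
  | mem c hc =>
    obtain ⟨a, ha, b', hb', rfl⟩ := hc
    refine Submodule.subset_span ⟨a, ha, b * b', algSpan_mul hb hb', ?_⟩
    rw [H281R3.HT.ext, H281R3.HT.ext, map_mul, ← mul_assoc, ← mul_assoc,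
      alg_comm (algSpan_map (snd A B) hb)]
  | zero => rw [mul_zero]; exact Submodule.zero_mem _
  | add x y _ _ hx hy => rw [mul_add]; exact Submodule.add_mem _ hx hy
  | smul q x _ hx => rw [mul_smul_comm]; exact Submodule.smul_mem _ _ hx

theorem dQ_lift (s : SB W X) (p q : Y ⟶ X) : W.map (Obj.lift p q) (dQ s) =
    ∑ i, ∑ j, bil W X (s.uT i) (s.uT j) • (W.map p (s.bT i) * W.map q (s.bT j)) := by
  have h2 := Fintype.sum_equiv (finTwoArrowEquiv (Fin s.NT))
    (fun a : Fin 2 → Fin s.NT => bil W X (s.uT (a 0)) (s.uT (a 1)) •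
      (W.map p (s.bT (a 0) : W.H X) * W.map q (s.bT (a 1) : W.H X)))
    (fun a => bil W X (s.uT a.1) (s.uT a.2) •
      (W.map p (s.bT a.1 : W.H X) * W.map q (s.bT a.2 : W.H X)))
    (fun a => rfl)
  rw [Fintype.sum_prod_type] at h2
  rw [← h2, dQ, map_sum]
  refine Finset.sum_congr rfl fun a _ => ?_
  rw [map_smul, map_mul, ← W.map_comp, ← W.map_comp, Obj.lift_fst, Obj.lift_snd]

theorem dQ_lift_self (s : SB W X) : W.map (Obj.lift (fst X X) (snd X X)) (dQ s) = dQ s := by
  rw [dQ, map_sum]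
  refine Finset.sum_congr rfl fun a _ => ?_
  rw [map_smul, map_mul, ← W.map_comp, ← W.map_comp, Obj.lift_fst, Obj.lift_snd]

theorem dQ_swap (hmid : transcendental W X ≤ W.gr X X.dim) (s : SB W X) :
    W.map (Obj.lift (snd X X) (fst X X)) (dQ s) = dQ s := by
  have h0 := dQ_lift_self s
  rw [dQ_lift] at h0
  conv_rhs => rw [← h0]
  rw [dQ_lift, Finset.sum_comm]
  refine Finset.sum_congr rfl fun i _ => Finset.sum_congr rfl fun j _ => ?_
  rw [W.comm (W.map_mem (snd X X) (hmid (s.bT j).2)) (W.map_mem (fst X X) (hmid (s.bT i).2)),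
    trans_symm hmid (s.uT j).2 (s.uT i).2, smul_smul]
  congr 1
  have h1 : (-1 : W.K) ^ X.dim * (-1 : W.K) ^ (X.dim * X.dim) = 1 := by
    rw [← pow_add]
    apply Even.neg_one_pow
    rw [show X.dim + X.dim * X.dim = X.dim * (X.dim + 1) by ring]
    exact Nat.even_mul_succ_self _
  linear_combination (bil W X (s.uT i : W.H X) (s.uT j : W.H X)) * h1

theorem mq_empty {s : SB W X} {N : ℕ} {π : Fin N → (Y ⟶ X)} {S : Finset (Fin N)} {i : ℕ}
    {m : W.H Y} (h : Mq s π S i m) (hS : S = ∅) : m = 1 := by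
  cases h with
  | one => rfl
  | single l _ _ => exact absurd hS (Finset.insert_ne_empty _ _)
  | pair _ _ _ _ => exact absurd hS (Finset.insert_ne_empty _ _)

theorem mq_two (hmid : transcendental W X ≤ W.gr X X.dim) (s : SB W X)
    {π : Fin 2 → (X.prod X ⟶ X)} (h0 : π 0 = fst X X) (h1 : π 1 = snd X X)
    {S : Finset (Fin 2)} {i : ℕ} {m : W.H (X.prod X)} (h : Mq s π S i m) :
    m ∈ EE W X X ∨ (S = Finset.univ ∧ m = dQ s) := by
  induction h with
  | one =>
    refine Or.inl (Submodule.subset_span ⟨1, algSpan_one, 1, algSpan_one, ?_⟩)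
    rw [H281R3.HT.ext, map_one, map_one, mul_one]
  | @single S i c p l _ hp ih =>
    refine Or.inl ?_
    rcases ih with ih | ⟨rfl, _⟩
    · have h2 : p = 0 ∨ p = 1 := by omega
      rcases h2 with rfl | rfl
      · rw [h0]
        exact ee_fst (s.bC l).2 ih
      · rw [h1]
        exact ee_snd (s.bC l).2 ih
    · exact absurd (Finset.mem_univ _) hp
  | @pair S i c p q hm hp hq hpq _ =>
    refine Or.inr ?_
    have hS : S = ∅ := by
      rw [Finset.eq_empty_iff_forall_notMem]
      intro x hx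
      have : x = p ∨ x = q := by omega
      rcases this with rfl | rfl
      · exact hp hx
      · exact hq hx
    subst hS
    rw [mq_empty hm rfl, mul_one]
    constructor
    · rw [Finset.eq_univ_iff_forall]
      intro x
      rw [Finset.mem_insert, Finset.mem_insert]
      have : x = p ∨ x = q := by omega
      rcases this with rfl | rfl
      · exact Or.inl rfl
      · exact Or.inr (Or.inl rfl)
    · have h2 : (p = 0 ∧ q = 1) ∨ (p = 1 ∧ q = 0) := by omega
      rcases h2 with ⟨rfl, rfl⟩ | ⟨rfl, rfl⟩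
      · rw [h0, h1, dQ_lift_self]
      · rw [h0, h1, dQ_swap hmid]

/-- the classes of the square -/
theorem span_two (hmid : transcendental W X ≤ W.gr X X.dim) (s : SB W X)
    {π : Fin 2 → (X.prod X ⟶ X)} (h0 : π 0 = fst X X) (h1 : π 1 = snd X X)
    {c : W.H (X.prod X)} (hc : c ∈ Submodule.span W.K {m | ∃ S i, Mq s π S i m}) :
    c ∈ Submodule.span W.K
      {c | (∃ a ∈ algSpan W X, ∃ b ∈ algSpan W X, c = H281R3.HT.ext W a b) ∨ c = dT s} := by
  refine (Submodule.span_le.2 ?_) hc
  rintro m ⟨S, i, hm⟩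
  rcases mq_two hmid s h0 h1 hm with h | ⟨_, rfl⟩
  · exact Submodule.span_mono (fun c hc => Or.inl hc) h
  · rw [dQ_eq hmid]
    exact Submodule.smul_mem _ _ (Submodule.subset_span (Or.inr rfl))

/-- The classes `Mq` are products of classes from pairs of factors. -/
theorem mq_matching {P : Polarized 𝒱} {n : ℕ} {s : SB W P.X} (hDX : HomEqNum W P.X)
    (hmid : transcendental W P.X ≤ W.gr P.X P.X.dim) {S : Finset (Fin (n + 1))} {i : ℕ}
    {m : W.H (nest ops n fun _ => P).X} (h : Mq s (prj ops n fun _ => P) S i m) :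
    m ∈ Submodule.span W.K {c | IsMatching W (fun _ => P) S c} := by
  induction h with
  | one => exact Submodule.subset_span IsMatching.one
  | @single S i c p l hm hp ih =>
    clear hm
    induction ih using Submodule.span_induction with
    | mem c hc => exact Submodule.subset_span (IsMatching.single hc hp (s.alg l))
    | zero => rw [mul_zero]; exact Submodule.zero_mem _
    | add x y _ _ hx hy => rw [mul_add]; exact Submodule.add_mem _ hx hy
    | smul q x _ hx => rw [mul_smul_comm]; exact Submodule.smul_mem _ _ hx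
  | @pair S i c p q hm hp hq hpq ih =>
    clear hm
    have h1 : ∀ x ∈ algSpan W (P.X.prod P.X), W.map (Obj.lift (prj ops n (fun _ => P) p)
        (prj ops n (fun _ => P) q)) x * c ∈
        Submodule.span W.K {c | IsMatching W (fun _ => P) (insert p (insert q S)) c} := by
      intro x hx
      induction hx using Submodule.span_induction with
      | mem x hx =>
        obtain ⟨j, hj⟩ := Set.mem_iUnion.1 hx
        induction ih using Submodule.span_induction with
        | mem c hc => exact Submodule.subset_span (IsMatching.pair hc hp hq hpq hj)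
        | zero => rw [mul_zero]; exact Submodule.zero_mem _
        | add x y _ _ hx hy => rw [mul_add]; exact Submodule.add_mem _ hx hy
        | smul q x _ hx => rw [mul_smul_comm]; exact Submodule.smul_mem _ _ hx
      | zero => rw [map_zero, zero_mul]; exact Submodule.zero_mem _
      | add x y _ _ hx hy => rw [map_add, add_mul]; exact Submodule.add_mem _ hx hy
      | smul q x _ hx => rw [map_smul, smul_mul_assoc]; exact Submodule.smul_mem _ _ hx
    exact h1 _ (dQ_alg hDX hmid s)

/-- Positivity on the span of the products of pull-backs of classes of a system. -/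
theorem core' {n : ℕ} {P : Fin (n + 1) → Polarized 𝒱}
    {f : ∀ a, Module.End W.K (W.H (P a).X)} {R : ∀ a b, W.H ((P a).X.prod (P b).X) → Prop}
    (S : RSys W (fun a => (P a).X) (fun a => (P a).D) f R) (h1 : ∀ a, R a a 1)
    (hpos : ∀ a, ∃ q : ℚ, 0 < q ∧ bf W (P a).X (P a).D (f a) 1 1 = q)
    (hSy : ∀ a, Sy W (P a).X (P a).D (f a)) :
    ∃ g, Fr W (nest ops n P).X (nest ops n P).D g ∧ Sy W (nest ops n P).X (nest ops n P).D g ∧
      ∀ z : W.H (nest ops n P).X, W552.AS W _ z →
      z ∈ Submodule.span W.K {c | ∃ T, Mch W (fun a => (P a).X) R (prj ops n P) T c} →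
      z ≠ 0 → ∃ q : ℚ, 0 < q ∧ bf W (nest ops n P).X (nest ops n P).D g z z = q := by
  obtain ⟨g, l₀, hG, hGS, hl₀, hla, hB⟩ := exists_nest n P f S.fr hSy
    (fun a => (exists_HB W (P a).X).some)
  exact ⟨g, hG, hGS, core_aux S h1 hpos _ hG hGS hl₀ hla hB⟩

/-- **Positivity of the form on the algebraic classes of a power.** -/
theorem fp_nest {P : Polarized 𝒱} {f : Module.End W.K (W.H P.X)} (F : Fp W P.X P.D f)
    (hls : LefStr (W.isInternal P.X) P.X.dim (LinearMap.mulLeft W.K (W.cl P.X P.D)) f)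
    (hHL : HardLefschetz W P.X P.D) (hB : LefschetzB W P.X P.D)
    (hDX : HomEqNum W P.X) (hmid : transcendental W P.X ≤ W.gr P.X P.X.dim) (s : SB W P.X)
    (hne : (1 : W.H P.X) ≠ 0) (n : ℕ)
    (h1 : 1 ≤ n → ∀ c, W552.AS W (nest ops 1 fun _ => P).X c → c ∈ Submodule.span W.K
      {m | ∃ S i, Mq s (prj ops 1 fun _ => P) S i m})
    (hn : ∀ c, W552.AS W (nest ops n fun _ => P).X c → c ∈ Submodule.span W.K
      {m | ∃ S i, Mq s (prj ops n fun _ => P) S i m}) :
    ∃ g, Fp W (nest ops n fun _ => P).X (nest ops n fun _ => P).D g := by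
  rcases Nat.eq_zero_or_pos n with rfl | hn0
  · exact ⟨f, F⟩
  have hpr : (prj ops 1 (fun _ => P) 1 : (P.X.prod P.X) ⟶ P.X) = snd P.X P.X :=
    Category.comp_id _
  have hsq := fp_square hDX hmid F s fun c hc =>
    span_two hmid s (π := prj ops 1 fun _ => P) rfl hpr (h1 hn0 c hc)
  have hp : ∀ i, AOp W P.X P.X (proj (W.isInternal P.X) i) := proj_aop F.fr.hD hHL hB
  have S : RSys W (fun a : Fin (n + 1) => ((fun _ => P) a : Polarized 𝒱).X)
      (fun a => ((fun _ => P) a : Polarized 𝒱).D) (fun _ => f) (fun a b => W552.AS W _) := by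
    refine ⟨fun _ => F.fr, fun _ => hls, fun a b => W552.AS.ratSub, fun h => h,
      fun h h' => h.comp h', fun h => h.map _, fun a => AOp.one, fun a => st_aop F.fr hp,
      fun a => par_aop hp, ?_⟩
    intro a b x hx hx0
    exact hsq.pos x hx hx0
  obtain ⟨g, hG, hGS, hG'⟩ := core' S (fun a => W552.AS.one)
    (fun a => F.pos 1 W552.AS.one hne) (fun _ => F.sy)
  refine ⟨g, hG, hGS, fun x hx hx0 => hG' x hx ?_ hx0⟩
  refine (Submodule.span_le.2 ?_) (hn x hx)
  rintro m ⟨T, i, hm⟩
  have h2 := mq_matching hDX hmid hm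
  refine Submodule.span_mono ?_ h2
  intro c hc
  refine ⟨T, ?_⟩
  have hc' : IsMatching W (fun _ => P) T c := hc
  clear hc hm h2
  induction hc' with
  | one => exact Mch.one
  | single _ ha hx ih => exact Mch.single ih ha ((W552.AS.of hx).map _)
  | pair _ ha hb hab hx ih => exact Mch.pair ih ha hb hab (W552.AS.of hx)

end Pool.Agent.TH125.Gal
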