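import Pool.Agent.TH125.Gal.Fpp

/-!
# Positivity of the form on the square
-/

open CategoryTheory AlgebraicGeometry Finset

set_option linter.unusedSectionVars false

universe u v w

namespace Pool.Agent.TH125.Gal

open Pool.Agent.H914 Pool.Agent.H914.VarClass Pool.Agent.H914.VarClass.Obj
  Pool.Agent.H914.WeilCohomology Pool.Agent.H281R3.HT Pool.Agent.W552 Pool.Agent.H447

variable {k : Type u} [Field k] {𝒱 : VarClass k} {ops : CycleOps 𝒱}
  {W : WeilCohomology.{u, v} ops} {X Y Z A B : 𝒱.Obj}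

/-- expansion of an algebraic class in the basis -/
theorem expand_C (s : SB W X) {c : W.H X} (hc : c ∈ algSpan W X) :
    c = ∑ i, bil W X (s.uC i) c • (s.bC i : W.H X) := by
  have h1 := s.bC.sum_repr ⟨c, hc⟩
  have h2 : c = ∑ i, s.bC.repr ⟨c, hc⟩ i • (s.bC i : W.H X) := by
    conv_lhs => rw [show c = ((⟨c, hc⟩ : algSpan W X) : W.H X) from rfl, ← h1]
    rw [Submodule.coe_sum]
    rfl
  have h3 : ∀ i, bil W X (s.uC i) c = s.bC.repr ⟨c, hc⟩ i := by
    intro i
    conv_lhs => rw [h2]
    rw [map_sum, Finset.sum_eq_single i]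
    · rw [map_smul, s.uC_bC, if_pos rfl, smul_eq_mul, mul_one]
    · intro j _ hj
      rw [map_smul, s.uC_bC, if_neg hj, smul_zero]
    · intro h
      exact absurd (Finset.mem_univ _) h
  rw [Finset.sum_congr rfl fun i _ => by rw [h3]]
  exact h2

section

variable {D : X.Cycles} {f : Module.End W.K (W.H X)} {N : ℕ}
    {e : Fin N → W.H X} {w : Fin N → ℚ}

/-- the algebraic part of the diagonal in a rational basis -/
theorem dC_eq (F : Fp W X D f) (s : SB W X) (he : ∀ k, W552.AS W X (e k))
    (hexp : ∀ x ∈ algSpan W X, x = ∑ k, ((w k : W.K)⁻¹ * bf W X D f x (e k)) • e k) :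
    dC s = ∑ k, ((((w k)⁻¹ : ℚ) : W.K) • H281R3.HT.ext W (st W X D f (e k)) (e k)) := by
  have h1 : ∀ i, (s.uC i : W.H X) = ∑ k, ((w k : W.K)⁻¹ * bil W X (s.uC i) (st W X D f (e k))) •
      e k := fun i => hexp _ (s.uC i).2
  rw [dC]
  calc ∑ i, W.map (fst X X) (s.bC i : W.H X) * W.map (snd X X) (s.uC i : W.H X)
      = ∑ i, ∑ k, (w k : W.K)⁻¹ • (W.map (fst X X)
          (bil W X (s.uC i) (st W X D f (e k)) • (s.bC i : W.H X)) *
            W.map (snd X X) (e k)) := by
        refine Finset.sum_congr rfl fun i _ => ?_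
        conv_lhs => rw [h1 i]
        rw [map_sum, Finset.mul_sum]
        refine Finset.sum_congr rfl fun k _ => ?_
        rw [map_smul, map_smul, mul_smul_comm, smul_mul_assoc, smul_smul]
    _ = _ := by
        rw [Finset.sum_comm]
        refine Finset.sum_congr rfl fun k _ => ?_
        rw [← Finset.smul_sum, ← Finset.sum_mul, ← map_sum,
          ← expand_C s (as_algSpan (F.fr.st_AS (he k)))]
        push_cast
        rfl

/-- the transcendental part of the diagonal is the class of a cycle -/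
theorem dT_AS (hDX : HomEqNum W X) (hmid : transcendental W X ≤ W.gr X X.dim) (F : Fp W X D f)
    (s : SB W X) : W552.AS W (X.prod X) (dT s) := by
  obtain ⟨N, e, w, he, hw, horth, hexp⟩ := F.exists_onb
  have h1 : dT s = W.push (diag X) 1 - dC s := by
    rw [diag_eq hDX hmid s, add_sub_cancel_left]
  rw [h1, dC_eq F s he hexp]
  refine W552.AS.ratSub.sub (W552.AS.one.push _) (W552.AS.ratSub.sum _ fun k _ => ?_)
  exact ((F.fr.st_AS (he k)).ext (he k)).smul _

/-- transcendental classes are primitive -/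
theorem st_trans (hmid : transcendental W X ≤ W.gr X X.dim) (F : Fp W X D f) {t : W.H X}
    (ht : t ∈ transcendental W X) : st W X D f t = (sg X.dim : W.K) • t := by
  have hg := hmid ht
  have hL : W.cl X D * t = 0 := by
    have h1 : W.cl X D * t ∈ transcendental W X := by
      rw [mem_trans']
      intro c hc
      rw [bil_apply, alg_even_comm (W := W) ⟨D, F.fr.hD, rfl⟩ t, mul_assoc, ← bil_apply]
      exact trans_alg ht (algSpan_mul (alg_mem ⟨D, F.fr.hD, rfl⟩) hc)
    have h2 := F.fr.e_gr hg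
    have h3 := hmid h1
    have h4 := proj_same (W.isInternal X) h2
    rw [proj_ne (W.isInternal X) h3 (by omega)] at h4
    exact h4.symm
  have hwt : wt (W.isInternal X) X.dim t = -((0 : ℕ) : W.K) • t := by
    rw [Fr.wt_gr hg, sub_self, Nat.cast_zero, neg_zero]
  have hf : f t = 0 := by
    refine F.fr.sl2.f_eq_zero hwt ?_
    rw [zero_add, pow_one]
    exact hL
  have h4 := wey_lowest F.fr.sl2 hf hwt
  rw [Nat.factorial_zero, Nat.cast_one, inv_one, one_smul, pow_zero] at h4
  rw [st_apply hg]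
  exact congrArg _ h4

theorem bf_trans (hmid : transcendental W X ≤ W.gr X X.dim) (F : Fp W X D f) (x : W.H X)
    {t : W.H X} (ht : t ∈ transcendental W X) :
    bf W X D f x t = (sg X.dim : W.K) * bil W X x t := by
  rw [bf_apply, st_trans hmid F ht, mul_smul_comm, map_smul, smul_eq_mul, bil_apply]

theorem sum_bT (s : SB W X) (i : Fin s.NT) :
    ∑ j, bil W X (s.bT i) (s.bT j) • (s.uT j : W.H X) = s.bT i := by
  exact (expand_uT s (s.bT i).2).symm

theorem bf_dT (hmid : transcendental W X ≤ W.gr X X.dim) (F : Fp W X D f) (s : SB W X) :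
    bf W (X.prod X) (ops.pull (fst X X) D + ops.pull (snd X X) D) (extSum W f f) (dT s) (dT s) =
      s.NT := by
  have hsg : (sg X.dim : W.K) * (sg X.dim : W.K) = 1 := by
    have := congrArg (Int.cast (R := W.K)) (sg_sq X.dim)
    push_cast at this
    exact this
  have h1 : ∀ i j, bf W (X.prod X) (ops.pull (fst X X) D + ops.pull (snd X X) D)
      (extSum W f f) (W.map (fst X X) (s.bT i : W.H X) * W.map (snd X X) (s.uT i : W.H X))
      (W.map (fst X X) (s.bT j : W.H X) * W.map (snd X X) (s.uT j : W.H X)) =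
      bil W X (s.bT i) (s.bT j) * bil W X (s.uT i) (s.uT j) := by
    intro i j
    have h2 := F.fr.bf_ext F.fr (s.bT i : W.H X) (s.bT j : W.H X) (s.uT i : W.H X)
      (s.uT j : W.H X)
    rw [H281R3.HT.ext, H281R3.HT.ext] at h2
    rw [h2, bf_trans hmid F _ (s.bT j).2, bf_trans hmid F _ (s.uT j).2]
    linear_combination (bil W X (s.bT i : W.H X) (s.bT j : W.H X) *
      bil W X (s.uT i : W.H X) (s.uT j : W.H X)) * hsg
  rw [dT, map_sum (bf W (X.prod X) _ _), LinearMap.sum_apply]
  simp only [map_sum, h1]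
  have h2 : ∀ i, ∑ j, bil W X (s.bT i : W.H X) (s.bT j : W.H X) *
      bil W X (s.uT i : W.H X) (s.uT j : W.H X) = 1 := by
    intro i
    have h3 := congrArg (bil W X (s.uT i : W.H X)) (sum_bT s i)
    rw [map_sum, s.uT_bT, if_pos rfl] at h3
    rw [← h3]
    refine Finset.sum_congr rfl fun j _ => ?_
    rw [map_smul, smul_eq_mul]
  rw [Finset.sum_congr rfl fun i _ => h2 i, Finset.sum_const, Finset.card_univ,
    Fintype.card_fin, nsmul_eq_mul, mul_one]

theorem bf_ext_dT (hmid : transcendental W X ≤ W.gr X X.dim) (F : Fp W X D f) (s : SB W X)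
    {a b : W.H X} (ha : a ∈ algSpan W X) :
    bf W (X.prod X) (ops.pull (fst X X) D + ops.pull (snd X X) D) (extSum W f f)
      (H281R3.HT.ext W a b) (dT s) = 0 := by
  rw [dT, map_sum]
  refine Finset.sum_eq_zero fun i _ => ?_
  have h2 := F.fr.bf_ext F.fr a (s.bT i : W.H X) b (s.uT i : W.H X)
  rw [bf_trans hmid F _ (s.bT i).2, alg_trans (s.bT i).2 ha, mul_zero, zero_mul] at h2
  exact h2

/-- **Positivity of the form on the algebraic classes of the square.** -/
theorem fp_square (hDX : HomEqNum W X) (hmid : transcendental W X ≤ W.gr X X.dim)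
    (F : Fp W X D f) (s : SB W X)
    (hspan : ∀ c, W552.AS W (X.prod X) c → c ∈ Submodule.span W.K
      {c | (∃ a ∈ algSpan W X, ∃ b ∈ algSpan W X, c = H281R3.HT.ext W a b) ∨ c = dT s}) :
    Fp W (X.prod X) (ops.pull (fst X X) D + ops.pull (snd X X) D) (extSum W f f) := by
  refine ⟨F.fr.prod F.fr, F.sy.prod F.fr F.fr F.sy, ?_⟩
  obtain ⟨N, e, w, he, hw, horth, hexp⟩ := F.exists_onb
  set M : W.H (X.prod X) → Prop := fun c => ∃ (r : Fin N × Fin N → ℚ) (r0 : ℚ),
    c = ∑ x, (r x : W.K) • H281R3.HT.ext W (e x.1) (e x.2) + (r0 : W.K) • dT s with hM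
  have hRat : RatSub W.K M := by
    refine ⟨⟨0, 0, by simp⟩, ?_, ?_⟩
    · rintro x y ⟨r, r0, rfl⟩ ⟨r', r0', rfl⟩
      refine ⟨r + r', r0 + r0', ?_⟩
      simp only [Pi.add_apply, Rat.cast_add, add_smul, Finset.sum_add_distrib]
      abel
    · rintro q x ⟨r, r0, rfl⟩
      refine ⟨q • r, q * r0, ?_⟩
      rw [smul_add, Finset.smul_sum, smul_smul]
      congr 1
      · refine Finset.sum_congr rfl fun x _ => ?_
        rw [Pi.smul_apply, smul_eq_mul, smul_smul, Rat.cast_mul]
      · rw [Rat.cast_mul]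
  have hMAS : ∀ c, M c → W552.AS W _ c := by
    rintro c ⟨r, r0, rfl⟩
    exact (W552.AS.ratSub.sum _ fun x _ => ((he x.1).ext (he x.2)).smul _).add
      ((dT_AS hDX hmid F s).smul _)
  have hFF := F.fr.prod F.fr
  have hsy := F.sy.prod F.fr F.fr F.sy
  have hbf : ∀ (r : Fin N × Fin N → ℚ) (r0 : ℚ), bf W (X.prod X)
      (ops.pull (fst X X) D + ops.pull (snd X X) D) (extSum W f f)
      (∑ x, (r x : W.K) • H281R3.HT.ext W (e x.1) (e x.2) + (r0 : W.K) • dT s)
      (∑ x, (r x : W.K) • H281R3.HT.ext W (e x.1) (e x.2) + (r0 : W.K) • dT s) =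
      ((∑ x, r x ^ 2 * (w x.1 * w x.2) + r0 ^ 2 * s.NT : ℚ) : W.K) := by
    intro r r0
    have h1 : ∀ x y : Fin N × Fin N, bf W (X.prod X)
        (ops.pull (fst X X) D + ops.pull (snd X X) D) (extSum W f f)
        (H281R3.HT.ext W (e x.1) (e x.2)) (H281R3.HT.ext W (e y.1) (e y.2)) =
        if x = y then (w x.1 * w x.2 : W.K) else 0 := by
      intro x y
      rw [F.fr.bf_ext F.fr, horth, horth]
      by_cases h1 : x.1 = y.1
      · by_cases h2 : x.2 = y.2
        · rw [if_pos h1, if_pos h2, if_pos (Prod.ext h1 h2)]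
        · rw [if_neg h2, mul_zero, if_neg (fun h => h2 (congrArg Prod.snd h))]
      · rw [if_neg h1, zero_mul, if_neg (fun h => h1 (congrArg Prod.fst h))]
    have h2 : ∀ x : Fin N × Fin N, bf W (X.prod X)
        (ops.pull (fst X X) D + ops.pull (snd X X) D) (extSum W f f)
        (H281R3.HT.ext W (e x.1) (e x.2)) (dT s) = 0 := fun x =>
      bf_ext_dT hmid F s (as_algSpan (he x.1))
    have h3 : ∀ x : Fin N × Fin N, bf W (X.prod X)
        (ops.pull (fst X X) D + ops.pull (snd X X) D) (extSum W f f)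
        (dT s) (H281R3.HT.ext W (e x.1) (e x.2)) = 0 := by
      intro x
      rw [hsy, par_AS ((he x.1).ext (he x.2)), h2]
    have h4 : ∀ x, bf W (X.prod X) (ops.pull (fst X X) D + ops.pull (snd X X) D)
        (extSum W f f) (∑ y, (r y : W.K) • H281R3.HT.ext W (e y.1) (e y.2))
        (H281R3.HT.ext W (e x.1) (e x.2)) = r x * (w x.1 * w x.2) := by
      intro x
      rw [map_sum (bf W (X.prod X) _ _), LinearMap.sum_apply, Finset.sum_eq_single x]
      · rw [map_smul, LinearMap.smul_apply, h1, if_pos rfl, smul_eq_mul]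
      · intro y _ hy
        rw [map_smul, LinearMap.smul_apply, h1, if_neg hy, smul_zero]
      · intro h
        exact absurd (Finset.mem_univ _) h
    have h5 : bf W (X.prod X) (ops.pull (fst X X) D + ops.pull (snd X X) D)
        (extSum W f f) (∑ y, (r y : W.K) • H281R3.HT.ext W (e y.1) (e y.2)) (dT s) = 0 := by
      rw [map_sum (bf W (X.prod X) _ _), LinearMap.sum_apply]
      refine Finset.sum_eq_zero fun y _ => ?_
      rw [map_smul, LinearMap.smul_apply, h2, smul_zero]
    have h6 : bf W (X.prod X) (ops.pull (fst X X) D + ops.pull (snd X X) D)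
        (extSum W f f) (dT s) (∑ y, (r y : W.K) • H281R3.HT.ext W (e y.1) (e y.2)) = 0 := by
      rw [map_sum]
      refine Finset.sum_eq_zero fun y _ => ?_
      rw [map_smul, h3, smul_zero]
    have h7 := bf_dT hmid F s
    rw [map_add, map_add, LinearMap.add_apply, LinearMap.add_apply, map_smul, map_smul,
      LinearMap.smul_apply, LinearMap.smul_apply, h5, h6]
    conv_lhs =>
      enter [1, 1]
      rw [map_sum]
    simp only [map_smul, h4, h7, smul_eq_mul, mul_zero, add_zero, zero_add]
    push_cast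
    congr 1
    · refine Finset.sum_congr rfl fun x _ => ?_
      ring
    · ring
  have hpos : ∀ c, M c → c ≠ 0 → ∃ q : ℚ, 0 < q ∧ bf W (X.prod X)
      (ops.pull (fst X X) D + ops.pull (snd X X) D) (extSum W f f) c c = q := by
    rintro c ⟨r, r0, rfl⟩ hc0
    refine ⟨_, ?_, hbf r r0⟩
    have h1 : ∀ x, 0 ≤ r x ^ 2 * (w x.1 * w x.2) := fun x =>
      mul_nonneg (sq_nonneg _) (mul_pos (hw _) (hw _)).le
    have h2 : (0 : ℚ) ≤ r0 ^ 2 * s.NT := mul_nonneg (sq_nonneg _) (Nat.cast_nonneg _)
    by_cases hr : ∀ x, r x = 0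
    · have h3 : r0 ≠ 0 := by
        rintro rfl
        apply hc0
        rw [Finset.sum_eq_zero fun x _ => by rw [hr x, Rat.cast_zero, zero_smul]]
        simp
      have h4 : s.NT ≠ 0 := by
        intro h4
        apply hc0
        have h5 : dT s = 0 := by
          rw [dT]
          apply Finset.sum_eq_zero
          intro i
          exact absurd i.2 (by omega)
        rw [Finset.sum_eq_zero fun x _ => by rw [hr x, Rat.cast_zero, zero_smul], h5]
        simp
      have h5 : (0 : ℚ) < r0 ^ 2 * s.NT := by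
        have : (0 : ℚ) < s.NT := by exact_mod_cast Nat.pos_of_ne_zero h4
        positivity
      exact add_pos_of_nonneg_of_pos (Finset.sum_nonneg fun x _ => h1 x) h5
    · push Not at hr
      obtain ⟨x, hx⟩ := hr
      refine add_pos_of_pos_of_nonneg (Finset.sum_pos' (fun x _ => h1 x)
        ⟨x, Finset.mem_univ _, ?_⟩) h2
      have := mul_pos (hw x.1) (hw x.2)
      positivity
  obtain ⟨N', e', w', he', hw', horth', hspan'⟩ := exists_ratBasis hRat (bf W (X.prod X)
      (ops.pull (fst X X) D + ops.pull (snd X X) D) (extSum W f f))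
    (fun x y hx hy => hFF.bf_rat (hMAS x hx) (hMAS y hy))
    (fun x y hx hy => by rw [hsy x y, par_AS (hMAS y hy)]) hpos
  intro c hc hc0
  obtain ⟨r, hr⟩ := hspan' c (by
    have h1 := hspan c hc
    refine (Submodule.span_le.2 ?_) h1
    rintro c (⟨a, ha, b, hb, rfl⟩ | rfl)
    · have h2 : H281R3.HT.ext W a b = ∑ k, ∑ l, (((w k : W.K)⁻¹ * bf W X D f a (e k)) *
          ((w l : W.K)⁻¹ * bf W X D f b (e l))) • H281R3.HT.ext W (e k) (e l) := by
        conv_lhs => rw [hexp a ha, hexp b hb]
        rw [H281R3.HT.ext, map_sum, map_sum, Finset.sum_mul]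
        refine Finset.sum_congr rfl fun k _ => ?_
        rw [Finset.mul_sum]
        refine Finset.sum_congr rfl fun l _ => ?_
        rw [map_smul, map_smul, smul_mul_smul_comm, H281R3.HT.ext]
      rw [h2]
      refine Submodule.sum_mem _ fun k _ => Submodule.sum_mem _ fun l _ =>
        Submodule.smul_mem _ _ (Submodule.subset_span ?_)
      refine ⟨fun x => if x = (k, l) then 1 else 0, 0, ?_⟩
      rw [Finset.sum_eq_single (k, l)]
      · simp
      · intro y _ hy
        beta_reduce
        rw [if_neg hy, Rat.cast_zero, zero_smul]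
      · intro h
        exact absurd (Finset.mem_univ _) h
    · refine Submodule.subset_span ⟨0, 1, ?_⟩
      simp) (fun k => hFF.bf_rat hc (hMAS _ (he' k)))
  have hMc : M c := by
    rw [hr]
    exact hRat.sum _ fun k _ => hRat.smul _ (he' k)
  exact hpos c hMc hc0

end

end Pool.Agent.TH125.Gal
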