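import Pool.Agent.TH125.Gal.Mat
import Pool.Agent.TH125.Gal.Blk

/-!
# The structure of the Tate classes on products with powers
-/

open CategoryTheory AlgebraicGeometry Finset

set_option linter.unusedSectionVars false

universe u v w

namespace Pool.Agent.TH125.Gal

open Pool.Agent.H914 Pool.Agent.H914.VarClass Pool.Agent.H914.VarClass.Obj
  Pool.Agent.H914.WeilCohomology Pool.Agent.H281R3.HT Pool.Agent.W552

variable {k : Type u} [Field k] {𝒱 : VarClass k} {ops : CycleOps 𝒱}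
  {W : WeilCohomology.{u, v} ops}

/-- the twist of an action -/
noncomputable def twist {Γ : Type w} [Group Γ] {Z : 𝒱.Obj} (lam : Γ →* W.Kˣ)
    (τ : Γ →* (W.H Z ≃ₐ[W.K] W.H Z)) : Γ →* (W.H Z →ₗ[W.K] W.H Z) where
  toFun g := (lam g : W.K) • (τ g).toLinearMap
  map_one' := by
    rw [map_one, map_one, Units.val_one, one_smul]
    rfl
  map_mul' g g' := by
    apply LinearMap.ext
    intro x
    rw [map_mul, map_mul, Units.val_mul]
    change ((lam g : W.K) * (lam g' : W.K)) • τ g (τ g' x) =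
      (lam g : W.K) • τ g ((lam g' : W.K) • τ g' x)
    rw [map_smul, smul_smul]

theorem twist_apply {Γ : Type w} [Group Γ] {Z : 𝒱.Obj} (lam : Γ →* W.Kˣ)
    (τ : Γ →* (W.H Z ≃ₐ[W.K] W.H Z)) (g : Γ) (x : W.H Z) :
    twist lam τ g x = (lam g : W.K) • τ g x := rfl

section

variable {P : Polarized 𝒱} {n : ℕ} {Z : 𝒱.Obj} {s : SB W P.X}
  {b : Module.Basis (Fin (n + 1) → Fin s.NC ⊕ Fin s.NT) W.K (W.H (nest ops n fun _ => P).X)}
  (hb : ∀ r, b r = mono (prj ops n fun _ => P) fun p => s.e (r p))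

include hb in
/-- the coordinates -/
theorem coord_eq (c : W.H ((nest ops n fun _ => P).X.prod Z))
    (r : Fin (n + 1) → Fin s.NC ⊕ Fin s.NT) :
    ctr (b.coord r) c = hml s.e b c fun p => s.es (r p) := by
  rw [hml_eq hb]
  congr 2
  refine b.ext fun r' => ?_
  rw [Module.Basis.coord_apply, Module.Basis.repr_self]
  conv_rhs => rw [hb r', phi_mono hb]
  by_cases h : r' = r
  · subst h
    rw [Finsupp.single_eq_same]
    symm
    refine Finset.prod_eq_one fun p _ => ?_
    rw [s.es_e, if_pos rfl]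
  · rw [Finsupp.single_eq_of_ne (Ne.symm h)]
    obtain ⟨p, hp⟩ := Function.ne_iff.1 h
    symm
    refine Finset.prod_eq_zero (Finset.mem_univ p) ?_
    rw [s.es_e, if_neg hp]

/-- the vectors at the fixed positions -/
noncomputable def fixv (s : SB W P.X) (c₀ : Fin (n + 1) → Option (Fin s.NC))
    (a : {a // ¬ c₀ a = none}) : W.H P.X := (c₀ a.1).elim 0 fun i => (s.uC i : W.H P.X)

theorem fixv_some {s : SB W P.X} {c₀ : Fin (n + 1) → Option (Fin s.NC)} {p : Fin (n + 1)}
    {i : Fin s.NC} (h : c₀ p = some i) (h' : ¬ c₀ p = none) : fixv s c₀ ⟨p, h'⟩ = s.uC i := by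
  rw [fixv, h]
  rfl

/-- the multilinear map on the transcendental part at the free positions -/
noncomputable def hS (s : SB W P.X)
    (b : Module.Basis (Fin (n + 1) → Fin s.NC ⊕ Fin s.NT) W.K (W.H (nest ops n fun _ => P).X))
    (c : W.H ((nest ops n fun _ => P).X.prod Z)) (c₀ : Fin (n + 1) → Option (Fin s.NC)) :
    MultilinearMap W.K (fun _ : Free c₀ => transcendental W P.X) (W.H Z) :=
  ((hml s.e b c).domDomRestrict (fun p => c₀ p = none) (fixv s c₀)).compLinearMap
    fun _ => (transcendental W P.X).subtype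

theorem hS_apply (c : W.H ((nest ops n fun _ => P).X.prod Z))
    (c₀ : Fin (n + 1) → Option (Fin s.NC)) (v : Free c₀ → transcendental W P.X) :
    hS s b c c₀ v = hml s.e b c
      fun p => if h : c₀ p = none then (v ⟨p, h⟩ : W.H P.X) else fixv s c₀ ⟨p, h⟩ := rfl

theorem hS_comb (c : W.H ((nest ops n fun _ => P).X.prod Z))
    (c₀ : Fin (n + 1) → Option (Fin s.NC)) (r : Free c₀ → Fin s.NT) :
    hS s b c c₀ (fun j => s.uT (r j)) = hml s.e b c fun p => s.es (comb c₀ r p) := by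
  rw [hS_apply]
  congr 1
  funext p
  by_cases h : c₀ p = none
  · rw [dif_pos h, comb_none r ⟨p, h⟩]
    rfl
  · obtain ⟨i, hi⟩ := Option.ne_none_iff_exists'.1 h
    rw [dif_neg h, comb_some r hi, fixv_some hi]
    rfl

variable {Γ : Type w} [Group Γ] {χ : Γ →* W.Kˣ} {ρ : Γ →* (W.H P.X ≃ₐ[W.K] W.H P.X)}
  {τ : Γ →* (W.H Z ≃ₐ[W.K] W.H Z)}
  {υ : Γ →* (W.H ((nest ops n fun _ => P).X.prod Z) ≃ₐ[W.K]
    W.H ((nest ops n fun _ => P).X.prod Z))}

/-- the weights of the fixed positions -/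
noncomputable def fixw (s : SB W P.X) (c₀ : Fin (n + 1) → Option (Fin s.NC)) (p : Fin (n + 1)) : ℕ :=
  (c₀ p).elim 0 fun i => P.X.dim - s.jC i

/-- the twisting character -/
noncomputable def lamb (χ : Γ →* W.Kˣ) (s : SB W P.X) (c₀ : Fin (n + 1) → Option (Fin s.NC))
    (j : ℕ) : Γ →* W.Kˣ :=
  (∏ p, (χ ^ fixw s c₀ p)⁻¹) * (χ ^ j)⁻¹ * (χ ^ P.X.dim) ^ (n + 1)

theorem lamb_apply (s : SB W P.X) (c₀ : Fin (n + 1) → Option (Fin s.NC)) (j : ℕ) (g : Γ) :
    lamb χ s c₀ j g = (∏ p, (χ g ^ fixw s c₀ p)⁻¹) * (χ g ^ j)⁻¹ * (χ g ^ P.X.dim) ^ (n + 1) := by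
  simp [lamb]

include hb in
/-- **Equivariance.** -/
theorem hS_eqv (hG : IsGalois W χ P.X ρ) (hP : IsPowAct W P n Z ρ τ υ)
    {c : W.H ((nest ops n fun _ => P).X.prod Z)} {j : ℕ} {Δ : Subgroup Γ} (hΔ : Δ.FiniteIndex)
    (hc : ∀ g ∈ Δ, υ g c = (χ g : W.K) ^ j • c) (c₀ : Fin (n + 1) → Option (Fin s.NC)) :
    Eqv (rhoT hG) (twist (lamb χ s c₀ j) τ) (hS s b c c₀) := by
  obtain ⟨Δ', hΔ', hfix⟩ := exists_fix hG s
  refine ⟨Δ ⊓ Δ', inferInstance, fun g hg v => ?_⟩
  have hχ : (χ g : W.K) ≠ 0 := Units.ne_zero _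
  set V : Fin (n + 1) → W.H P.X := fun p =>
    if h : c₀ p = none then (v ⟨p, h⟩ : W.H P.X) else fixv s c₀ ⟨p, h⟩ with hV
  have h1 : (fun p => if h : c₀ p = none then ((rhoT hG g (v ⟨p, h⟩) : transcendental W P.X) :
      W.H P.X) else fixv s c₀ ⟨p, h⟩) = fun p => ((χ g : W.K) ^ fixw s c₀ p)⁻¹ • ρ g (V p) := by
    funext p
    by_cases h : c₀ p = none
    · rw [dif_pos h, hV]
      beta_reduce
      rw [dif_pos h, fixw, h, rhoT_apply]
      simp
    · obtain ⟨i, hi⟩ := Option.ne_none_iff_exists'.1 h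
      rw [dif_neg h, hV]
      beta_reduce
      rw [dif_neg h, fixv_some hi, uC_act hG s (hfix g hg.2), fixw, hi, smul_smul]
      change _ = (((χ g : W.K) ^ (P.X.dim - s.jC i))⁻¹ * (χ g : W.K) ^ (P.X.dim - s.jC i)) •
        (s.uC i : W.H P.X)
      rw [inv_mul_cancel₀ (pow_ne_zero _ hχ), one_smul]
  rw [hS_apply, h1, MultilinearMap.map_smul_univ]
  have h2 : c = ((χ g : W.K) ^ j)⁻¹ • υ g c := by
    rw [hc g hg.1, smul_smul, inv_mul_cancel₀ (pow_ne_zero _ hχ), one_smul]
  have h3 : hml s.e b c (fun p => ρ g (V p)) =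
      (((χ g : W.K) ^ j)⁻¹ * ((χ g : W.K) ^ P.X.dim) ^ (n + 1)) • τ g (hml s.e b c V) := by
    conv_lhs => rw [h2]
    rw [hml_smul hb, hml_equiv hb (bil_act hG g) (hP g).1 (hP g).2, smul_smul]
  rw [h3, twist_apply, lamb_apply, hS_apply, smul_smul]
  congr 1
  push_cast
  ring

theorem SI_rhoT (hG : IsGalois W χ P.X ρ) (h : StronglyIrreducible ρ (transcendental W P.X)) :
    SI (rhoT hG) := by
  intro Δ hΔ U hU
  have hst : ∀ g ∈ Δ, ∀ a ∈ U.map (transcendental W P.X).subtype,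
      ρ g a ∈ U.map (transcendental W P.X).subtype := by
    rintro g hg _ ⟨x, hx, rfl⟩
    exact ⟨rhoT hG g x, hU g hg x hx, rfl⟩
  rcases h Δ hΔ (U.map (transcendental W P.X).subtype) (Submodule.map_subtype_le _ _) hst with
    h1 | h1
  · left
    rw [eq_bot_iff]
    intro x hx
    have h2 : (x : W.H P.X) ∈ U.map (transcendental W P.X).subtype := ⟨x, hx, rfl⟩
    rw [h1, Submodule.mem_bot] at h2
    exact (Submodule.mem_bot _).2 (Subtype.ext h2)
  · right
    rw [eq_top_iff]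
    intro x _
    have h2 : (x : W.H P.X) ∈ U.map (transcendental W P.X).subtype := by
      rw [h1]
      exact x.2
    obtain ⟨y, hy, hyx⟩ := h2
    have h3 : y = x := Subtype.ext hyx
    rwa [h3] at hy

include hb in
/-- the coordinates at the free positions are invariant -/
theorem gen_free (hDX : HomEqNum W P.X) (hmid : transcendental W P.X ≤ W.gr P.X P.X.dim)
    (hG : IsGalois W χ P.X ρ) (hP : IsPowAct W P n Z ρ τ υ)
    (hirr : StronglyIrreducible ρ (transcendental W P.X)) {g : Γ} (hχ : χ g = 1) (hτ : τ g = 1)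
    (hPL : PicardLefschetz W P.X (ρ g))
    (hK : Even P.X.dim → FewRoots W.K ∧ n + 1 < Module.finrank W.K (transcendental W P.X))
    {c : W.H ((nest ops n fun _ => P).X.prod Z)} {j : ℕ} {Δ : Subgroup Γ} (hΔ : Δ.FiniteIndex)
    (hc : ∀ g ∈ Δ, υ g c = (χ g : W.K) ^ j • c) (c₀ : Fin (n + 1) → Option (Fin s.NC)) :
    (fun r : Free c₀ → Fin s.NT => hml s.e b c fun p => s.es (comb c₀ r p)) ∈
      Nod.Gen (fun _ : Fin s.NT => ()) (Matrix.of fun i j => bil W P.X (s.uT i) (s.uT j))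
        (fun _ : Free c₀ => ()) := by
  obtain ⟨δ, hδ, hδ0, x, hx, hgx⟩ := hPL
  have heven : (-1 : ℤ) ^ P.X.dim = 1 → Even P.X.dim := by
    intro h
    by_contra h'
    rw [(Nat.not_even_iff_odd.1 h').neg_one_pow] at h
    exact absurd h (by decide)
  have h1 := gen_mem (S := Free c₀) (J := Fin s.NT) (s := (-1) ^ P.X.dim)
    (μ := fun g => (χ g : W.K) ^ P.X.dim) (B := rform W P.X (transcendental W P.X))
    (neg_one_pow_eq_or ℤ _)
    (fun a b => by
      rw [rform_apply, rform_apply, trans_symm hmid a.2 b.2]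
      push_cast
      rfl)
    (trans_nondeg hDX) (fun g => pow_ne_zero _ (Units.ne_zero _))
    (fun g a b => bil_act hG g a b) (SI_rhoT hG hirr) (g := g) (δ := ⟨δ, hδ⟩) (c := x)
    (fun h => hδ0 (congrArg Subtype.val h)) hx
    (fun t => Subtype.ext (hgx t t.2))
    (by rw [hχ, Units.val_one, one_pow])
    (σ := twist (lamb χ s c₀ j) τ)
    (by
      apply LinearMap.ext
      intro z
      rw [twist_apply, lamb_apply, hχ, hτ]
      simp)
    (fun h => ⟨(hK (heven h)).1, by have := (hK (heven h)).2; omega⟩)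
    (hS_eqv hb hG hP hΔ hc c₀) s.uT
    (fun h => by
      have h2 := (hK (heven h)).2
      rw [Module.finrank_eq_card_basis s.uT] at h2
      refine lt_of_le_of_lt (Fintype.card_subtype_le _) ?_
      rwa [Fintype.card_fin])
  have h2 : (fun r : Free c₀ → Fin s.NT => hS s b c c₀ fun j => s.uT (r j)) =
      fun r : Free c₀ → Fin s.NT => hml s.e b c fun p => s.es (comb c₀ r p) := by
    funext r
    exact hS_comb c c₀ r
  rw [← h2]
  exact h1

/-- the external products of the classes `Mq` with arbitrary classes -/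
noncomputable def Tgt (s : SB W P.X) (n : ℕ) (Z : 𝒱.Obj) :
    Submodule W.K (W.H ((nest ops n fun _ => P).X.prod Z)) :=
  Submodule.span W.K {x | ∃ S i m w, Mq s (prj ops n fun _ => P) S i m ∧
    x = W.map (fst _ Z) m * W.map (snd _ Z) w}

include hb in
/-- **The structure of the Tate classes on products with powers.** -/
theorem mem_Tgt (hDX : HomEqNum W P.X) (hmid : transcendental W P.X ≤ W.gr P.X P.X.dim)
    (hG : IsGalois W χ P.X ρ) (hP : IsPowAct W P n Z ρ τ υ)
    (hirr : StronglyIrreducible ρ (transcendental W P.X)) {g : Γ} (hχ : χ g = 1) (hτ : τ g = 1)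
    (hPL : PicardLefschetz W P.X (ρ g))
    (hK : Even P.X.dim → FewRoots W.K ∧ n + 1 < Module.finrank W.K (transcendental W P.X))
    {c : W.H ((nest ops n fun _ => P).X.prod Z)} {j : ℕ} {Δ : Subgroup Γ} (hΔ : Δ.FiniteIndex)
    (hc : ∀ g ∈ Δ, υ g c = (χ g : W.K) ^ j • c) : c ∈ Tgt s n Z := by
  rw [expand b c, sum_patterns]
  refine Submodule.sum_mem _ fun c₀ _ => ?_
  have h1 := gen_free hb hDX hmid hG hP hirr hχ hτ hPL hK hΔ hc c₀
  have h2 : ∀ F ∈ Nod.Gen (fun _ : Fin s.NT => ())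
      (Matrix.of fun i j => bil W P.X (s.uT i) (s.uT j)) (fun _ : Free c₀ => ()),
      ∑ r : Free c₀ → Fin s.NT, W.map (fst _ Z) (b (comb c₀ r)) * W.map (snd _ Z) (F r : W.H Z) ∈
        Tgt s n Z := by
    intro F hF
    induction hF using Submodule.span_induction with
    | mem F hF =>
      obtain ⟨m, e, w, rfl⟩ := hF
      obtain ⟨ε, S, i, x, hx, h3⟩ := mq_sum (s := s) (π := prj ops n fun _ => P) hmid e
      have h4 : ∑ r : Free c₀ → Fin s.NT, W.map (fst _ Z) (b (comb c₀ r)) *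
          W.map (snd _ Z) (Nod.gen (fun _ : Fin s.NT => ())
            (Matrix.of fun i j => bil W P.X (s.uT i) (s.uT j)) (fun _ : Free c₀ => ()) e w r) =
          (ε : W.K) • (W.map (fst _ Z) x * W.map (snd _ Z) w) := by
        rw [← smul_mul_assoc, ← map_smul, ← h3, map_sum, Finset.sum_mul]
        refine Finset.sum_congr rfl fun r _ => ?_
        rw [Nod.gen, if_pos (fun _ => rfl), map_smul, map_smul, mul_smul_comm, smul_mul_assoc,
          hb]
        rfl
      rw [h4]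
      exact Submodule.smul_mem _ _ (Submodule.subset_span ⟨S, i, x, w, hx, rfl⟩)
    | zero =>
      simp only [Pi.zero_apply, map_zero, mul_zero, Finset.sum_const_zero]
      exact Submodule.zero_mem _
    | add F F' _ _ hF hF' =>
      simp only [Pi.add_apply, map_add, mul_add, Finset.sum_add_distrib]
      exact Submodule.add_mem _ hF hF'
    | smul x F _ hF =>
      simp only [Pi.smul_apply, map_smul, mul_smul_comm]
      rw [← Finset.smul_sum]
      exact Submodule.smul_mem _ _ hF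
  have h3 := h2 _ h1
  simp only [coord_eq hb]
  exact h3

end

end Pool.Agent.TH125.Gal
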