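import Pool.Agent.TH125.Gal.Str

/-!
# Tate classes on products with powers
-/

open CategoryTheory AlgebraicGeometry Finset

set_option linter.unusedSectionVars false

universe u v w

namespace Pool.Agent.TH125.Gal

open Pool.Agent.H914 Pool.Agent.H914.VarClass Pool.Agent.H914.VarClass.Obj
  Pool.Agent.H914.WeilCohomology Pool.Agent.H281R3.HT Pool.Agent.W552

variable {k : Type u} [Field k] {𝒱 : VarClass k} {ops : CycleOps 𝒱}
  {W : WeilCohomology.{u, v} ops}

/-- The Tate conjecture for `X`: for all `j`, every class `c` in `H^(2j)(X)` such that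
`ρ g c = χ g ^ j • c` for all `g` in a subgroup of finite index is a linear combination of classes of
algebraic cycles of codimension `j`. -/
def TateConj (W : WeilCohomology.{u, v} ops) {Γ : Type w} [Group Γ] (χ : Γ →* W.Kˣ)
    (X : 𝒱.Obj) (ρ : Γ →* (W.H X ≃ₐ[W.K] W.H X)) : Prop :=
  ∀ j, ∀ c ∈ W.gr X (2 * j),
    (∃ Δ : Subgroup Γ, Δ.FiniteIndex ∧ ∀ g ∈ Δ, ρ g c = (χ g : W.K) ^ j • c) →
      c ∈ Submodule.span W.K (algClasses W X j)

section diag

variable {X Y : 𝒱.Obj} {Γ : Type w} [Group Γ] {χ : Γ →* W.Kˣ}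
  {ρ : Γ →* (W.H X ≃ₐ[W.K] W.H X)}

/-- the transcendental part of the diagonal is semi-invariant -/
theorem dT_act (hG : IsGalois W χ X ρ) (s : SB W X) (g : Γ) (F F' : W.H X →ₗ[W.K] W.H Y) :
    ∑ i, F (ρ g (s.bT i)) * F' (ρ g (s.uT i)) =
      (χ g : W.K) ^ X.dim • ∑ i, F (s.bT i) * F' (s.uT i) := by
  have h1 : ∀ i, ρ g (s.uT i : W.H X) =
      ∑ j, bil W X (ρ g (s.uT i)) (s.bT j) • (s.uT j : W.H X) := fun i =>
    expand_uT s (act_trans hG g (s.uT i).2)
  have h2 : ∀ j, ∑ i, bil W X (ρ g (s.uT i)) (s.bT j) • ρ g (s.bT i : W.H X) =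
      (χ g : W.K) ^ X.dim • (s.bT j : W.H X) := by
    intro j
    have h3 : ∀ i, bil W X (ρ g (s.uT i)) (s.bT j) =
        (χ g : W.K) ^ X.dim * bil W X (s.uT i) (ρ g⁻¹ (s.bT j)) := by
      intro i
      have h4 := bil_act hG g (s.uT i) (ρ g⁻¹ (s.bT j))
      rwa [act_inv] at h4
    have h5 := s.expand_T (act_trans hG g⁻¹ (s.bT j).2)
    have h6 : (s.bT j : W.H X) = ρ g (ρ g⁻¹ (s.bT j)) := (act_inv ρ g _).symm
    conv_rhs => rw [h6, h5]
    rw [map_sum, Finset.smul_sum]
    refine Finset.sum_congr rfl fun i _ => ?_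
    rw [h3, map_smul, smul_smul]
  calc ∑ i, F (ρ g (s.bT i)) * F' (ρ g (s.uT i))
      = ∑ i, ∑ j, F (bil W X (ρ g (s.uT i)) (s.bT j) • ρ g (s.bT i : W.H X)) *
          F' (s.uT j) := by
        refine Finset.sum_congr rfl fun i _ => ?_
        conv_lhs => rw [h1 i]
        rw [map_sum, Finset.mul_sum]
        refine Finset.sum_congr rfl fun j _ => ?_
        rw [map_smul, map_smul, mul_smul_comm, smul_mul_assoc]
    _ = ∑ j, F (∑ i, bil W X (ρ g (s.uT i)) (s.bT j) • ρ g (s.bT i : W.H X)) * F' (s.uT j) := by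
        rw [Finset.sum_comm]
        refine Finset.sum_congr rfl fun j _ => ?_
        rw [map_sum, Finset.sum_mul]
    _ = _ := by
        rw [Finset.smul_sum]
        refine Finset.sum_congr rfl fun j _ => ?_
        rw [h2, map_smul, smul_mul_assoc]

end diag

section

variable {P : Polarized 𝒱} {n : ℕ} {Z : 𝒱.Obj} {s : SB W P.X}
  {Γ : Type w} [Group Γ] {χ : Γ →* W.Kˣ} {ρ : Γ →* (W.H P.X ≃ₐ[W.K] W.H P.X)}
  {τ : Γ →* (W.H Z ≃ₐ[W.K] W.H Z)}
  {υ : Γ →* (W.H ((nest ops n fun _ => P).X.prod Z) ≃ₐ[W.K]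
    W.H ((nest ops n fun _ => P).X.prod Z))}

/-- the classes `Mq` are semi-invariant -/
theorem mq_act (hmid : transcendental W P.X ≤ W.gr P.X P.X.dim) (hG : IsGalois W χ P.X ρ)
    (hP : IsPowAct W P n Z ρ τ υ) {g : Γ}
    (hg : ∀ i, ρ g (s.bC i) = (χ g : W.K) ^ s.jC i • (s.bC i : W.H P.X))
    {S : Finset (Fin (n + 1))} {i : ℕ} {m : W.H (nest ops n fun _ => P).X}
    (h : Mq s (prj ops n fun _ => P) S i m) :
    υ g (W.map (fst _ Z) m) = (χ g : W.K) ^ i • W.map (fst _ Z) m := by
  induction h with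
  | one => rw [map_one, map_one, pow_zero, one_smul]
  | single l _ _ ih =>
    rw [map_mul, map_mul, ih, (hP g).1, hg, map_smul, map_smul, smul_mul_smul_comm, pow_add]
  | @pair S i c p q _ _ _ _ ih =>
    rw [map_mul, map_mul, ih, pow_add, ← smul_mul_smul_comm]
    congr 1
    have h1 : W.map (fst _ Z) (W.map (Obj.lift (prj ops n (fun _ => P) p)
        (prj ops n (fun _ => P) q)) (dQ s)) = (-1 : W.K) ^ P.X.dim • ∑ i,
        (W.map (fst _ Z)).toLinearMap.comp (W.map (prj ops n (fun _ => P) p)).toLinearMap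
          (s.bT i) *
        (W.map (fst _ Z)).toLinearMap.comp (W.map (prj ops n (fun _ => P) q)).toLinearMap
          (s.uT i) := by
      rw [dQ_eq hmid, map_smul, map_smul, dT, map_sum, map_sum]
      congr 1
      refine Finset.sum_congr rfl fun i _ => ?_
      rw [map_mul, ← W.map_comp, ← W.map_comp, Obj.lift_fst, Obj.lift_snd, map_mul]
      rfl
    rw [h1, map_smul, smul_comm, ← dT_act hG s g]
    congr 1
    rw [map_sum]
    refine Finset.sum_congr rfl fun i _ => ?_
    rw [map_mul]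
    exact congrArg₂ (· * ·) ((hP g).1 p _) ((hP g).1 q _)

end

/-- homogeneous components of external products -/
theorem proj_ext {A Z : 𝒱.Obj} {i l : ℕ} {a : W.H A} (ha : a ∈ W.gr A i) (w : W.H Z) :
    proj (W.isInternal (A.prod Z)) l (W.map (fst A Z) a * W.map (snd A Z) w) =
      if i ≤ l then W.map (fst A Z) a * W.map (snd A Z) (proj (W.isInternal Z) (l - i) w)
      else 0 := by
  refine gr_induction (W.isInternal Z) (p := fun w => proj (W.isInternal (A.prod Z)) l
    (W.map (fst A Z) a * W.map (snd A Z) w) = if i ≤ l then W.map (fst A Z) a *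
      W.map (snd A Z) (proj (W.isInternal Z) (l - i) w) else 0) ?_ ?_ w
  · intro j w hw
    have h1 : W.map (fst A Z) a * W.map (snd A Z) w ∈ W.gr (A.prod Z) (i + j) :=
      W.mul_mem (W.map_mem _ ha) (W.map_mem _ hw)
    by_cases hil : i ≤ l
    · rw [if_pos hil]
      by_cases hj : j = l - i
      · subst hj
        rw [proj_same _ hw]
        have h2 : i + (l - i) = l := by omega
        rw [h2] at h1
        rw [proj_same _ h1]
      · rw [proj_ne _ hw hj, map_zero, mul_zero, proj_ne _ h1 (by omega)]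
    · rw [if_neg hil, proj_ne _ h1 (by omega)]
  · intro w w' hw hw'
    rw [map_add, mul_add, map_add, hw, hw']
    by_cases hil : i ≤ l
    · rw [if_pos hil, if_pos hil, if_pos hil, map_add, map_add, mul_add]
    · rw [if_neg hil, if_neg hil, if_neg hil, add_zero]

section

variable {P : Polarized 𝒱} {n : ℕ} {Z : 𝒱.Obj} {s : SB W P.X}

/-- Expansion of the elements of `Tgt`. -/
theorem exists_expansion (s : SB W P.X) (n : ℕ) (Z : 𝒱.Obj) :
    ∃ (N : ℕ) (m : Fin N → W.H (nest ops n fun _ => P).X) (i : Fin N → ℕ)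
      (φ : Fin N → W.H (nest ops n fun _ => P).X →ₗ[W.K] W.K),
      (∀ l, ∃ S, Mq s (prj ops n fun _ => P) S (i l) (m l)) ∧
      (∀ l l', φ l (m l') = if l' = l then 1 else 0) ∧
      ∀ c ∈ Tgt s n Z, c = ∑ l, W.map (fst _ Z) (m l) * W.map (snd _ Z) (ctr (φ l) c) := by
  classical
  obtain ⟨S, hSA, hSspan, hSli⟩ := exists_linearIndependent W.K
    {m | ∃ S i, Mq s (prj ops n fun _ => P) S i m}
  have hfin : S.Finite := hSli.setFinite
  have := hfin.fintype
  let eS := Fintype.equivFin S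
  have hinj : ∀ l : Fin (Fintype.card S), ∃ i S', Mq s (prj ops n fun _ => P) S' i
      ((eS.symm l : S) : W.H (nest ops n fun _ => P).X) := by
    intro l
    obtain ⟨S', i, h⟩ := hSA (eS.symm l).2
    exact ⟨i, S', h⟩
  choose i hi using hinj
  let B := Module.Basis.extend hSli
  let φ : Fin (Fintype.card S) → W.H (nest ops n fun _ => P).X →ₗ[W.K] W.K := fun l =>
    B.coord ⟨(eS.symm l : S), Module.Basis.subset_extend hSli (eS.symm l).2⟩
  have hφ : ∀ l l', φ l ((eS.symm l' : S) : W.H (nest ops n fun _ => P).X) =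
      if l' = l then 1 else 0 := by
    intro l l'
    have h1 : ((eS.symm l' : S) : W.H (nest ops n fun _ => P).X) =
        B ⟨(eS.symm l' : S), Module.Basis.subset_extend hSli (eS.symm l').2⟩ :=
      (Module.Basis.extend_apply_self hSli ⟨((eS.symm l' : S) : W.H (nest ops n fun _ => P).X),
        Module.Basis.subset_extend hSli (eS.symm l').2⟩).symm
    change B.coord _ _ = _
    rw [h1, Module.Basis.coord_apply, Module.Basis.repr_self, Finsupp.single_apply]
    congr 1
    apply propext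
    rw [Subtype.mk.injEq, Subtype.ext_iff.symm, EmbeddingLike.apply_eq_iff_eq]
  refine ⟨Fintype.card S, fun l => (eS.symm l : S), i, φ, hi, hφ, ?_⟩
  intro c hc
  induction hc using Submodule.span_induction with
  | mem c hc =>
    obtain ⟨S', i', m, w, hm, rfl⟩ := hc
    have h1 : m ∈ Submodule.span W.K (Set.range fun l : Fin (Fintype.card S) =>
        ((eS.symm l : S) : W.H (nest ops n fun _ => P).X)) := by
      have h2 : (Set.range fun l : Fin (Fintype.card S) =>
          ((eS.symm l : S) : W.H (nest ops n fun _ => P).X)) = S := by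
        ext x
        constructor
        · rintro ⟨l, rfl⟩
          exact (eS.symm l).2
        · intro hx
          exact ⟨eS ⟨x, hx⟩, by simp⟩
      rw [h2, hSspan]
      exact Submodule.subset_span ⟨S', i', hm⟩
    obtain ⟨a, ha⟩ := (Submodule.mem_span_range_iff_exists_fun W.K).1 h1
    have h3 : ∀ l, φ l m = a l := by
      intro l
      rw [← ha, map_sum, Finset.sum_eq_single l]
      · rw [map_smul, hφ, if_pos rfl, smul_eq_mul, mul_one]
      · intro l' _ hl
        rw [map_smul, hφ, if_neg hl, smul_zero]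
      · intro h
        exact absurd (Finset.mem_univ _) h
    conv_lhs => rw [← ha, map_sum, Finset.sum_mul]
    refine Finset.sum_congr rfl fun l _ => ?_
    rw [ctr_apply, h3, map_smul, map_smul, smul_mul_assoc, mul_smul_comm]
  | zero => simp
  | add x y _ _ hx hy =>
    conv_lhs => rw [hx, hy]
    rw [← Finset.sum_add_distrib]
    refine Finset.sum_congr rfl fun l _ => ?_
    rw [map_add, map_add, mul_add]
  | smul q x _ hx =>
    conv_lhs => rw [hx]
    rw [Finset.smul_sum]
    refine Finset.sum_congr rfl fun l _ => ?_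
    rw [map_smul, map_smul, mul_smul_comm]

end

section

variable {P : Polarized 𝒱} {n : ℕ} {Z : 𝒱.Obj} {Γ : Type w} [Group Γ] {χ : Γ →* W.Kˣ}
  {ρ : Γ →* (W.H P.X ≃ₐ[W.K] W.H P.X)} {τ : Γ →* (W.H Z ≃ₐ[W.K] W.H Z)}
  {υ : Γ →* (W.H ((nest ops n fun _ => P).X.prod Z) ≃ₐ[W.K]
    W.H ((nest ops n fun _ => P).X.prod Z))}

/-- **The Tate conjecture for products with powers.** -/
theorem tate_step (hDX : HomEqNum W P.X) (hmid : transcendental W P.X ≤ W.gr P.X P.X.dim)
    (hG : IsGalois W χ P.X ρ) (hP : IsPowAct W P n Z ρ τ υ)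
    (hirr : StronglyIrreducible ρ (transcendental W P.X)) {g : Γ} (hχ : χ g = 1) (hτ : τ g = 1)
    (hPL : PicardLefschetz W P.X (ρ g))
    (hK : Even P.X.dim → FewRoots W.K ∧ n + 1 < Module.finrank W.K (transcendental W P.X))
    (hT : TateConj W χ Z τ) :
    TateConj W χ ((nest ops n fun _ => P).X.prod Z) υ := by
  obtain ⟨s⟩ := exists_SB hDX
  obtain ⟨b, hb⟩ := exists_monoBasis (ops := ops) P s.e n
  intro j c hcj ⟨Δ, hΔ, hc⟩
  have h1 := mem_Tgt hb hDX hmid hG hP hirr hχ hτ hPL hK hΔ hc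
  obtain ⟨N, m, i, φ, hm, hφ, hexp⟩ := exists_expansion s n Z
  obtain ⟨Δ', hΔ', hfix⟩ := exists_fix hG s
  have h2 := hexp c h1
  -- uniqueness
  have huni : ∀ (x : Fin N → W.H Z) (l : Fin N),
      ctr (φ l) (∑ l', W.map (fst _ Z) (m l') * W.map (snd _ Z) (x l')) = x l := by
    intro x l
    rw [map_sum, Finset.sum_eq_single l]
    · rw [ctr_apply, hφ, if_pos rfl, one_smul]
    · intro l' _ hl
      rw [ctr_apply, hφ, if_neg hl, zero_smul]
    · intro h
      exact absurd (Finset.mem_univ _) h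
  set x : Fin N → W.H Z := fun l => ctr (φ l) c with hx
  -- degrees
  have hdeg : ∀ l, x l = if 2 * i l ≤ 2 * j then
      proj (W.isInternal Z) (2 * j - 2 * i l) (x l) else 0 := by
    intro l
    have h3 : c = ∑ l', W.map (fst _ Z) (m l') * W.map (snd _ Z)
        (if 2 * i l' ≤ 2 * j then proj (W.isInternal Z) (2 * j - 2 * i l') (x l') else 0) := by
      conv_lhs => rw [← proj_same (W.isInternal _) hcj, h2]
      rw [map_sum]
      refine Finset.sum_congr rfl fun l' _ => ?_
      obtain ⟨S, hS⟩ := hm l'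
      rw [proj_ext (hS.gr hmid)]
      by_cases h : 2 * i l' ≤ 2 * j
      · rw [if_pos h, if_pos h]
      · rw [if_neg h, if_neg h, map_zero, mul_zero]
    conv_lhs => rw [hx]
    beta_reduce
    rw [h3]
    exact huni _ l
  -- semi-invariance
  have hact : ∀ g ∈ Δ ⊓ Δ', ∀ l, (χ g : W.K) ^ i l • τ g (x l) = (χ g : W.K) ^ j • x l := by
    intro g hg l
    have h3 : υ g c = ∑ l', W.map (fst _ Z) (m l') * W.map (snd _ Z)
        ((χ g : W.K) ^ i l' • τ g (x l')) := by
      conv_lhs => rw [h2]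
      rw [map_sum]
      refine Finset.sum_congr rfl fun l' _ => ?_
      obtain ⟨S, hS⟩ := hm l'
      rw [map_mul, mq_act hmid hG hP (hfix g hg.2) hS, (hP g).2, map_smul, smul_mul_assoc,
        mul_smul_comm]
    have h4 := huni (fun l' => (χ g : W.K) ^ i l' • τ g (x l')) l
    rw [← h3, hc g hg.1, map_smul] at h4
    exact h4.symm
  have halg : ∀ l, x l ∈ algSpan W Z := by
    intro l
    by_cases h : 2 * i l ≤ 2 * j
    · have h3 := hdeg l
      rw [if_pos h] at h3
      have h4 : x l ∈ W.gr Z (2 * (j - i l)) := by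
        rw [h3, show 2 * (j - i l) = 2 * j - 2 * i l by omega]
        exact proj_mem _ _ _
      have h5 := hT (j - i l) (x l) h4 ⟨Δ ⊓ Δ', inferInstance, fun g hg => ?_⟩
      · exact Submodule.span_mono (Set.subset_iUnion _ _) h5
      · have h6 := hact g hg l
        have h7 : (χ g : W.K) ^ j = (χ g : W.K) ^ i l * (χ g : W.K) ^ (j - i l) := by
          rw [← pow_add]
          congr 1
          omega
        rw [h7, mul_smul] at h6
        exact smul_right_injective _ (pow_ne_zero _ (Units.ne_zero (χ g))) h6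
    · have h3 := hdeg l
      rw [if_neg h] at h3
      rw [h3]
      exact Submodule.zero_mem _
  refine algSpan_gr ?_ hcj
  rw [h2]
  refine Submodule.sum_mem _ fun l _ => ?_
  obtain ⟨S, hS⟩ := hm l
  exact algSpan_mul (algSpan_map _ (hS.alg hDX hmid)) (algSpan_map _ (halg l))

/-- An element which acts trivially on the factors acts trivially on the product. -/
theorem act_one (hP : IsPowAct W P n Z ρ τ υ) {g : Γ} (hρ : ρ g = 1) (hτ : τ g = 1) :
    υ g = 1 := by
  obtain ⟨b, hb⟩ := exists_monoBasis (ops := ops) P (Module.finBasis W.K (W.H P.X)) n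
  have h3 : ∀ a : Fin (n + 1) → W.H P.X, υ g (W.map (fst _ Z)
      (mono (prj ops n fun _ => P) a)) = W.map (fst _ Z)
        (mono (prj ops n fun _ => P) a) := by
    intro a
    rw [mono, map_list_prod, map_list_prod, List.map_ofFn, List.map_ofFn]
    congr 2
    funext p
    have h4 := (hP g).1 p (a p)
    rw [hρ] at h4
    exact h4
  apply AlgEquiv.ext
  intro c
  rw [expand b c, map_sum]
  refine Finset.sum_congr rfl fun r _ => ?_
  rw [map_mul, hb r, h3, (hP g).2, hτ]
  rfl

theorem tr_mono (P : Polarized 𝒱) (a : W.H P.X) (n : ℕ) :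
    W.tr (nest ops n fun _ => P).X (mono (prj ops n fun _ => P) fun _ => a) =
      W.tr P.X a ^ (n + 1) := by
  induction n with
  | zero =>
    exact (congrArg (W.tr P.X) ((mono_one (prj ops 0 fun _ => P) fun _ => a).trans
      (W.map_id P.X a))).trans (pow_one _).symm
  | succ n ih =>
    have h1 : mono (prj ops (n + 1) fun _ => P) (fun _ => a) =
        W.map (fst P.X (nest ops n fun _ => P).X) a *
          W.map (snd P.X (nest ops n fun _ => P).X) (mono (prj ops n fun _ => P) fun _ => a) := by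
      rw [map_mono]
      exact mono_succ (prj ops (n + 1) fun _ => P) fun _ => a
    rw [pow_succ', ← ih]
    exact (congrArg (W.tr (P.X.prod (nest ops n fun _ => P).X)) h1).trans (W.tr_prod _ _)

theorem exists_pt {X : 𝒱.Obj} (hDX : HomEqNum W X) (h1 : (1 : W.H X) ≠ 0) :
    ∃ a ∈ algClasses W X X.dim, W.tr X a ≠ 0 := by
  by_contra hcon
  push Not at hcon
  apply h1
  rw [← W.cl_fund X]
  refine hDX 0 (Nat.zero_le _) _ X.V.fundCycle_mem fun w hw => ?_
  have h2 := ops.mul_mem X.V.fundCycle_mem hw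
  rw [zero_add, Nat.sub_zero] at h2
  have h3 := hcon _ ⟨_, h2, rfl⟩
  rw [W.tr_cl h2] at h3
  exact_mod_cast h3

theorem mono_alg {Y X : 𝒱.Obj} {N : ℕ} (π : Fin N → (Y ⟶ X)) {a : Fin N → W.H X}
    (ha : ∀ p, a p ∈ algSpan W X) : mono π a ∈ algSpan W Y := by
  rw [mono, List.ofFn_eq_map]
  generalize List.finRange N = L
  induction L with
  | nil => exact algSpan_one
  | cons p L ih =>
    rw [List.map_cons, List.prod_cons]
    exact algSpan_mul (algSpan_map _ (ha p)) ih

theorem algSpan_push {X Y : 𝒱.Obj} (f : X ⟶ Y) {a : W.H X} (ha : a ∈ algSpan W X) :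
    W.push f a ∈ algSpan W Y := by
  induction ha using Submodule.span_induction with
  | mem a ha =>
    obtain ⟨i, hi⟩ := Set.mem_iUnion.1 ha
    have h1 : W552.AS W Y (W.push f a) := (W552.AS.of hi).push f
    refine W552.AS.ind (p := fun x => x ∈ algSpan W Y) (fun j x hx => alg_mem hx)
      (fun x y hx hy => Submodule.add_mem _ hx hy) h1
  | zero => rw [map_zero]; exact Submodule.zero_mem _
  | add x y _ _ hx hy => rw [map_add]; exact Submodule.add_mem _ hx hy
  | smul q x _ hx => rw [map_smul]; exact Submodule.smul_mem _ _ hx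

/-- The Tate conjecture for a product implies it for the factor. -/
theorem tate_conv (hDX : HomEqNum W P.X) (h1 : (1 : W.H P.X) ≠ 0)
    (hP : IsPowAct W P n Z ρ τ υ)
    (hT : TateConj W χ ((nest ops n fun _ => P).X.prod Z) υ) :
    TateConj W χ Z τ := by
  intro j c hcj ⟨Δ, hΔ, hc⟩
  have h2 := hT j (W.map (snd _ Z) c) (W.map_mem _ hcj) ⟨Δ, hΔ, fun g hg => by
    rw [(hP g).2, hc g hg, map_smul]⟩
  obtain ⟨a, ha, ha0⟩ := exists_pt hDX h1
  have h3 : W.push (snd (nest ops n fun _ => P).X Z) (W.map (fst _ Z)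
      (mono (prj ops n fun _ => P) fun _ => a) * W.map (snd _ Z) c) ∈ algSpan W Z :=
    algSpan_push _ (algSpan_mul (algSpan_map _ (mono_alg _ fun _ => alg_mem ha))
      (Submodule.span_mono (Set.subset_iUnion _ j) h2))
  rw [W.push_snd, tr_mono] at h3
  have h4 := Submodule.smul_mem _ (W.tr P.X a ^ (n + 1))⁻¹ h3
  rw [smul_smul, inv_mul_cancel₀ (pow_ne_zero _ ha0), one_smul] at h4
  exact algSpan_gr h4 hcj

end

end Pool.Agent.TH125.Gal
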