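import Pool.Agent.TH125.Gal.Tate

/-!
# Towers of products with powers
-/

open CategoryTheory AlgebraicGeometry Finset

set_option linter.unusedSectionVars false

universe u v w

namespace Pool.Agent.TH125.Gal

open Pool.Agent.H914 Pool.Agent.H914.VarClass Pool.Agent.H914.VarClass.Obj
  Pool.Agent.H914.WeilCohomology Pool.Agent.H281R3.HT Pool.Agent.W552

variable {k : Type u} [Field k] {𝒱 : VarClass k} {ops : CycleOps 𝒱}
  {W : WeilCohomology.{u, v} ops} {Γ : Type w} [Group Γ] {χ : Γ →* W.Kˣ}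

theorem isGalois {X : 𝒱.Obj} {ρ : Γ →* (W.H X ≃ₐ[W.K] W.H X)}
    (h : IsGaloisAct χ (W.gr X) X.dim (W.tr X) (algClasses W X) ρ) : IsGalois W χ X ρ :=
  ⟨h.gr_mem, h.tr_act, h.cl_act, h.cl_fix⟩

/-- the compatibility with the projections -/
theorem isPowAct {X : 𝒱.Obj} {ρ : Γ →* (W.H X ≃ₐ[W.K] W.H X)} {n : ℕ} {Z : 𝒱.Obj}
    {τ : Γ →* (W.H Z ≃ₐ[W.K] W.H Z)}
    {υ : Γ →* (W.H ((power ops X n).prod Z) ≃ₐ[W.K] W.H ((power ops X n).prod Z))}
    (h1 : ∀ p, Intertwines (W.map (fst (power ops X n) Z ≫ powerPrj ops X n p)) ρ υ)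
    (h2 : Intertwines (W.map (snd (power ops X n) Z)) τ υ) :
    IsPowAct W (⟨X, 0⟩ : Polarized 𝒱) n Z ρ τ υ := by
  intro g
  refine ⟨fun p a => ?_, fun b => h2 g b⟩
  have h3 := h1 p g a
  rw [W.map_comp, W.map_comp] at h3
  exact h3

theorem trivAct {X : 𝒱.Obj} {ρ : Γ →* (W.H X ≃ₐ[W.K] W.H X)} {g : Γ} :
    TrivAct ρ g ↔ ρ g = 1 :=
  ⟨fun h => AlgEquiv.ext h, fun h a => by rw [h]; rfl⟩

theorem GTower.trivAct {ι : Type} {X : ι → GVar W Γ} {Z : GVar W Γ} {S : Set ι} {Y : GVar W Γ}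
    (h : GTower X Z S Y) {g : Γ} (hX : ∀ j ∈ S, TrivAct (X j).act g) (hZ : TrivAct Z.act g) :
    TrivAct Y.act g := by
  induction h with
  | base => exact hZ
  | step i n _ _ _ hP ih =>
    obtain ⟨υ, h1, h2⟩ := hP
    rw [Gal.trivAct]
    exact act_one (isPowAct h1 h2) (Gal.trivAct.1 (hX i (Set.mem_insert _ _)))
      (Gal.trivAct.1 (ih fun j hj => hX j (Set.mem_insert_of_mem _ hj)))

/-- **The Tate conjecture for towers.** -/
theorem tate_tower {ι : Type} {X : ι → GVar W Γ} {Z : GVar W Γ} (h : NodalFamily χ X Z)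
    {S : Set ι} {Y : GVar W Γ} (hY : GTower X Z S Y) :
    TateConjecture χ Y ↔ TateConjecture χ Z := by
  induction hY with
  | base => exact Iff.rfl
  | @step S Y Y' i n hT hi hn hP ih =>
    obtain ⟨g, ⟨δ, hδ, hδ0, hδ'⟩, hχ, hZ, hj⟩ := h.node i
    rw [← ih]
    obtain ⟨υ, h1, h2⟩ := hP
    constructor
    · refine tate_conv (P := ⟨(X i).X, 0⟩) (h.homEqNum i) ?_ (isPowAct h1 h2)
      intro h3
      apply hδ0
      rw [← one_mul δ, h3, zero_mul]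
    · refine tate_step (P := ⟨(X i).X, 0⟩) (h.homEqNum i) (h.middle i) (isGalois (h.galois i))
        (isPowAct h1 h2) (h.irreducible i) hχ ?_ ⟨δ, hδ, hδ0, hδ'⟩
        fun h' => ⟨h.few ⟨i, h'⟩, hn h'⟩
      exact trivAct.1 (hT.trivAct (fun j hjS => hj j fun h' => hi (h' ▸ hjS)) hZ)

end Pool.Agent.TH125.Gal
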