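import Pool.Agent.TH125.Gal.Std

/-!
# The standard conjectures for towers
-/

open CategoryTheory AlgebraicGeometry Finset

set_option linter.unusedSectionVars false

universe u v w

namespace Pool.Agent.TH125.Gal

open Pool.Agent.H914 Pool.Agent.H914.VarClass Pool.Agent.H914.VarClass.Obj
  Pool.Agent.H914.WeilCohomology Pool.Agent.H281R3.HT Pool.Agent.W552 Pool.Agent.H447

variable {k : Type u} [Field k] {𝒱 : VarClass k} {ops : CycleOps 𝒱}
  {W : WeilCohomology.{u, v} ops} {Γ : Type w} [Group Γ] {χ : Γ →* W.Kˣ} {G : Set (GVar W Γ)}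
  {ι : Type} {X : ι → GVar W Γ} {D : ∀ i, (X i).X.Cycles} {Z : GVar W Γ}

theorem polPow_eq (P : Polarized 𝒱) (n : ℕ) : polPow ops P n = nest ops n fun _ => P := by
  induction n with
  | zero => rfl
  | succ n ih =>
    rw [polPow, ih]
    rfl

/-- The product of powers. -/
noncomputable def tower' (ops : CycleOps 𝒱) {ι : Type} (P : ι → Polarized 𝒱) (Z : Polarized 𝒱) :
    List (ι × ℕ) → Polarized 𝒱
  | [] => Z
  | a :: L => (nest ops a.2 fun _ => P a.1).prod ops (tower' ops P Z L)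

theorem tower_eq {ι : Type} (P : ι → Polarized 𝒱) (Z : Polarized 𝒱) (L : List (ι × ℕ)) :
    tower ops P Z L = tower' ops P Z L := by
  induction L with
  | nil => rfl
  | cons a L ih => rw [tower, tower', polPow_eq, ih]

/-- the action on the towers -/
theorem exists_tower_act (hG : GaloisClass χ G) (hX : ∀ i, X i ∈ G) (hZ : Z ∈ G)
    (E : Z.X.Cycles) (L : List (ι × ℕ)) :
    ∃ υ : Γ →* (W.H (tower' ops (fun i => ⟨(X i).X, D i⟩) ⟨Z.X, E⟩ L).X ≃ₐ[W.K]
        W.H (tower' ops (fun i => ⟨(X i).X, D i⟩) ⟨Z.X, E⟩ L).X),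
      (⟨(tower' ops (fun i => ⟨(X i).X, D i⟩) ⟨Z.X, E⟩ L).X, υ⟩ : GVar W Γ) ∈ G ∧
      ∀ g, (∀ a ∈ L, TrivAct (X a.1).act g) → TrivAct Z.act g → TrivAct υ g := by
  induction L with
  | nil => exact ⟨Z.act, hZ, fun g _ h => h⟩
  | cons a L ih =>
    obtain ⟨τ, hτ, hτ'⟩ := ih
    obtain ⟨υ, hυ, hP⟩ := exists_pow_act hG (hX a.1) hτ (D a.1) a.2
    refine ⟨υ, hυ, fun g hg hgZ => ?_⟩
    have h1 : υ g = 1 := act_one hP (trivAct.1 (hg a List.mem_cons_self))
      (trivAct.1 (hτ' g (fun b hb => hg b (List.mem_cons_of_mem _ hb)) hgZ))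
    exact trivAct.2 h1

/-- the conditions for one step -/
theorem NodalSystem.nodal (h : NodalSystem χ G X D Z) {a : ι × ℕ} {Y : 𝒱.Obj}
    {υ : Γ →* (W.H Y ≃ₐ[W.K] W.H Y)} {L : List (ι × ℕ)} (hL : a.1 ∉ L.map Prod.fst)
    (hn : Even (X a.1).X.dim → a.2 + 1 < transRank W (X a.1).X)
    (hυ : ∀ g, (∀ a ∈ L, TrivAct (X a.1).act g) → TrivAct Z.act g → TrivAct υ g) :
    Nodal χ (X a.1) (D a.1) ⟨Y, υ⟩ a.2 := by
  refine ⟨(h.transIrred a.1).1, (h.transIrred a.1).2, (h.transIrred a.1).3, ?_,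
    fun h' => ⟨h.few ⟨_, h'⟩, hn h'⟩⟩
  obtain ⟨g, hPL, hχ, hgZ, hgX⟩ := h.node a.1
  refine ⟨g, hPL, hχ, hυ g (fun b hb => hgX b.1 fun h0 => hL ?_) hgZ⟩
  exact List.mem_map.2 ⟨b, hb, h0⟩

/-- **The conjecture D for towers.** -/
theorem homEqNum_tower (h : NodalSystem χ G X D Z) (E : Z.X.Cycles) (L : List (ι × ℕ))
    (hL : (L.map Prod.fst).Nodup)
    (hn : ∀ a ∈ L, Even (X a.1).X.dim → a.2 + 1 < transRank W (X a.1).X) :
    HomEqNum W (tower' ops (fun i => ⟨(X i).X, D i⟩) ⟨Z.X, E⟩ L).X ↔ HomEqNum W Z.X := by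
  induction L with
  | nil => exact Iff.rfl
  | cons a L ih =>
    rw [List.map_cons, List.nodup_cons] at hL
    obtain ⟨υ, hυ, hυ'⟩ := exists_tower_act (D := D) h.galoisClass h.mem h.mem_base E L
    have hN := h.nodal (D := D) (Y := (tower' ops (fun i => ⟨(X i).X, D i⟩) ⟨Z.X, E⟩ L).X)
      (υ := υ) hL.1 (hn a List.mem_cons_self) hυ'
    rw [← ih hL.2 fun b hb => hn b (List.mem_cons_of_mem _ hb)]
    constructor
    · intro h1
      obtain ⟨x, hx⟩ := exists_tr hN.one_ne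
      have h2 : W.tr (nest ops a.2 fun _ => (⟨(X a.1).X, D a.1⟩ : Polarized 𝒱)).X
          (mono (prj ops a.2 fun _ => (⟨(X a.1).X, D a.1⟩ : Polarized 𝒱)) fun _ => x) ≠ 0 := by
        rw [tr_mono]
        exact pow_ne_zero _ hx
      exact homEqNum_factor h2 h1
    · intro h1
      exact hN.homEqNum_prod h.galoisClass (h.mem _) hυ h1

/-- **The conjecture of Hodge type for towers.** -/
theorem hodge_tower (h : NodalSystem χ G X D Z) {E : Z.X.Cycles}
    (hE : IsPolarization W Z.X E) (L : List (ι × ℕ))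
    (hL : (L.map Prod.fst).Nodup)
    (hn : ∀ a ∈ L, Even (X a.1).X.dim → a.2 + 1 < transRank W (X a.1).X) :
    ∃ g, Fp W (tower' ops (fun i => ⟨(X i).X, D i⟩) ⟨Z.X, E⟩ L).X
      (tower' ops (fun i => ⟨(X i).X, D i⟩) ⟨Z.X, E⟩ L).D g := by
  induction L with
  | nil =>
    obtain ⟨g, hg, _⟩ := exists_Fp hE.div hE.hard hE.lefschetz hE.hodge
    exact ⟨g, hg⟩
  | cons a L ih =>
    rw [List.map_cons, List.nodup_cons] at hL
    obtain ⟨υ, hυ, hυ'⟩ := exists_tower_act (D := D) h.galoisClass h.mem h.mem_base E L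
    have hN := h.nodal (D := D) (Y := (tower' ops (fun i => ⟨(X i).X, D i⟩) ⟨Z.X, E⟩ L).X)
      (υ := υ) hL.1 (hn a List.mem_cons_self) hυ'
    exact hN.fp_prod h.galoisClass (h.mem _) hυ (ih hL.2 fun b hb =>
      hn b (List.mem_cons_of_mem _ hb))

/-- **The conjecture D.** -/
theorem homEqNum_nodal (h : NodalSystem χ G X D Z) (E : Z.X.Cycles) (L : List (ι × ℕ))
    (hL : Admissible X L) : HomEqNum W (nodalTower X D Z E L).X ↔ HomEqNum W Z.X := by
  rw [nodalTower, tower_eq]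
  exact homEqNum_tower h E L hL.1 hL.2

/-- **The conjecture of Hodge type.** -/
theorem hodge_nodal (h : NodalSystem χ G X D Z) {E : Z.X.Cycles}
    (hE : IsPolarization W Z.X E) (L : List (ι × ℕ)) (hL : Admissible X L) :
    HodgeType W (nodalTower X D Z E L).X (nodalTower X D Z E L).D ∧
      HomEqNum W (nodalTower X D Z E L).X := by
  rw [nodalTower, tower_eq]
  obtain ⟨g, F⟩ := hodge_tower h hE L hL.1 hL.2
  exact F.hodge

end Pool.Agent.TH125.Gal
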